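import Pool.Agent.Lib_helper76.K4M.Biq

/-!
# Identities between the brackets of points
-/

set_option autoImplicit false
set_option linter.unusedSectionVars false

namespace Pool.Agent.GK

open WeierstrassCurve.Affine K4M

variable {F : Type*} [Field F] [DecidableEq F] {W : WeierstrassCurve.Affine F}

/-- the bracket, corrected at points with the same abscissa -/
def dl (b c : W.Point) : F := if b = c ∨ b = -c then pc b else dx b c

lemma dx_right_zero {a : W.Point} (ha : a ≠ 0) : dx a 0 = -1 := by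
  rw [dx_comm', dx_zero_left ha]

lemma dx_xc {a b : W.Point} (ha : a ≠ 0) (hb : b ≠ 0) : dx a b = xc a - xc b := by
  unfold dx
  rw [xv_of_ne ha, xv_of_ne hb]
  ring

/-- the biquadratic form at a point of order two -/
theorem S3 {a : W.Point} (ha : a ≠ 0) (haa : a + a = 0) (X : F) :
    NN W (xc a) (xc a) X = ph a ^ 2 := by
  have hpi := ps_two_torsion ha haa
  rcases a with _ | ⟨x₁, y₁, h₁⟩
  · exact absurd rfl ha
  have e1 := (equation_iff' x₁ y₁).mp h₁.1
  simp only [ps] at hpi
  simp only [xc, xv, ph]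
  rw [NN, WeierstrassCurve.b₂, WeierstrassCurve.b₄, WeierstrassCurve.b₆, WeierstrassCurve.b₈]
  linear_combination (4 * X + W.a₁ ^ 2 + 4 * W.a₂ + 8 * x₁) * e1 +
    (W.a₁ * (3 * x₁ ^ 2 + 2 * W.a₂ * x₁ + W.a₄ - W.a₁ * y₁) -
      (X + W.a₂ + 2 * x₁) * (2 * y₁ + W.a₁ * x₁ + W.a₃)) * hpi

/-- the biquadratic form in terms of brackets -/
theorem NN_eq {b c u : W.Point} (hb : b ≠ 0) (hc : c ≠ 0) (hu : u ≠ 0) :
    NN W (xc b) (xc c) (xc u) = dx u (b + c) * dx u (b - c) * dl b c ^ 2 := by
  have hdup : ∀ b : W.Point, b ≠ 0 → NN W (xc b) (xc b) (xc u) = - (dx u (b + b)) * pc b ^ 2 := by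
    intro b hb
    by_cases hbb : b + b = 0
    · rw [S3 hb hbb, hbb, dx_right_zero hu]
      unfold pc
      rw [if_pos hbb]
      ring
    · have h2 := S2 hb hbb (xc u)
      rw [dx_xc hu hbb]
      unfold pc
      rw [if_neg hbb]
      linear_combination h2
  unfold dl
  by_cases h1 : b = c
  · subst h1
    rw [if_pos (Or.inl rfl), sub_self, dx_right_zero hu, hdup b hb]
    ring
  by_cases h2 : b = -c
  · subst h2
    have hx : xc (-c) = xc c := by unfold xc; rw [xv_neg']
    have hcc : -c - c = -(c + c) := by abel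
    rw [if_pos (Or.inr rfl), neg_add_cancel, dx_right_zero hu, hx, hdup c hc, hcc,
      dx_neg_right]
    have : pc (-c) ^ 2 = pc c ^ 2 := by
      by_cases h : c + c = 0
      · rw [neg_eq_of_add_eq_zero_left h]
      · have h' : -c + -c ≠ 0 := by
          intro h0; apply h
          have : -(c + c) = 0 := by rw [neg_add]; exact h0
          exact neg_eq_zero.mp this
        unfold pc
        rw [if_neg h, if_neg h']
        rcases ps_neg c with e | e
        · rw [e]
        · rw [e]; ring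
    rw [this]
    ring
  · have hs : b + c ≠ 0 := fun h => h2 (eq_neg_of_add_eq_zero_left h)
    have hd : b - c ≠ 0 := sub_ne_zero.mpr h1
    rw [if_neg (by tauto), ← S1 hb hc h1 h2, dx_xc hu hs, dx_xc hu hd, dx_xc hb hc]

/-- **the parallelogram identity** -/
theorem par {u b c : W.Point} (hu : u ≠ 0) (hb : b ≠ 0) (hc : c ≠ 0) (h1 : u ≠ b) (h2 : u ≠ -b) :
    dx (u + b) c * dx (u - b) c * dx u b ^ 2 = dx u (b + c) * dx u (b - c) * dl b c ^ 2 := by
  have hs : u + b ≠ 0 := fun h => h2 (eq_neg_of_add_eq_zero_left h)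
  have hd : u - b ≠ 0 := sub_ne_zero.mpr h1
  rw [← NN_eq hb hc hu, dx_xc hs hc, dx_xc hd hc, dx_xc hu hb]
  have e1 := S1 hu hb h1 h2 (xc c)
  have e2 : NN W (xc b) (xc c) (xc u) = NN W (xc u) (xc b) (xc c) := by
    rw [NN_swap' W (xc b) (xc u) (xc c), NN_swap]
  rw [e2, ← e1]
  ring

lemma dl_ne (b c : W.Point) : dl b c ≠ 0 := by
  unfold dl
  split_ifs with h
  · exact pc_ne_zero b
  · push Not at h
    exact dx_ne h.1 h.2

lemma lg_dl_neg_left (b c : W.Point) : lg (dl (-b) c) = lg (dl b c) := by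
  unfold dl
  have e : (-b = c ∨ -b = -c) ↔ (b = c ∨ b = -c) := by
    rw [neg_inj, neg_eq_iff_eq_neg]; tauto
  simp only [e]
  split_ifs
  · exact lg_pc_neg b
  · rw [dx_neg_left]

lemma lg_dl_comm (b c : W.Point) : lg (dl c b) = lg (dl b c) := by
  unfold dl
  by_cases h : b = c ∨ b = -c
  · have h' : c = b ∨ c = -b := by
      rcases h with rfl | rfl
      · exact Or.inl rfl
      · exact Or.inr (neg_neg c).symm
    rw [if_pos h, if_pos h']
    rcases h with rfl | rfl
    · rfl
    · exact (lg_pc_neg c).symm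
  · have h' : ¬ (c = b ∨ c = -b) := by
      rintro (rfl | rfl)
      · exact h (Or.inl rfl)
      · exact h (Or.inr (neg_neg b).symm)
    rw [if_neg h, if_neg h', lg_dx_comm]

lemma dl_zero_left (c : W.Point) : lg (dl (0 : W.Point) c) = 0 := by
  unfold dl
  split_ifs
  · rw [pc_zero, lg_one]
  · exact lg_dx_zero_left c

end Pool.Agent.GK
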