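import Pool.Agent.Lib_helper40.GK.GE9
import Pool.Agent.Lib_helper76.FAM.Cr2

/-!
# Closed elements in the span of the quotients of lines
-/

set_option autoImplicit false
set_option linter.unusedSectionVars false

open scoped TensorProduct

namespace Pool.Agent.GK

open WeierstrassCurve.Affine
open K4M (dx dt ps pc)
open MK4 (FT lg HK hk sy Closed Cst)
open Pool.Agent.TN (V0 KC KC_eq)
open Pool.Agent.UEG (WF bc Gen)
open FK4 (Generic LineS Supp Sp OnlyConst UnitEqS)

section vv

variable {K : Type*} [Field K] [DecidableEq K] {W : WeierstrassCurve.Affine K}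

lemma slope_symm {x₁ x₂ y₁ y₂ : K} (h₁ : W.Equation x₁ y₁) (h₂ : W.Equation x₂ y₂) :
    W.slope x₁ x₂ y₁ y₂ = W.slope x₂ x₁ y₂ y₁ := by
  by_cases hx : x₁ = x₂
  · subst hx
    rcases Y_eq_of_X_eq h₁ h₂ rfl with h | h
    · subst h
      rfl
    · rw [slope_of_Y_eq rfl h, slope_of_Y_eq rfl]
      rw [h, negY_negY]
  · rw [slope_of_X_ne hx, slope_of_X_ne (Ne.symm hx), ← neg_sub y₁, ← neg_sub x₁, neg_div_neg_eq]

lemma vv_eq (T u : W.Point) : vv T u = FK4.vv T u := by
  rcases T with _ | ⟨p, q, hT⟩ <;> rcases u with _ | ⟨x, y, hu⟩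
  · rfl
  · rfl
  · rfl
  · show (if x = p ∧ y = W.negY p q then ((0 : K), (1 : K)) else (1, W.slope x p y q)) =
      (if p = x ∧ q = W.negY x y then ((0 : K), (1 : K)) else (1, W.slope p x q y))
    have e : (x = p ∧ y = W.negY p q) ↔ (p = x ∧ q = W.negY x y) := by
      constructor
      · rintro ⟨rfl, rfl⟩
        exact ⟨rfl, (negY_negY _ _).symm⟩
      · rintro ⟨rfl, rfl⟩
        exact ⟨rfl, (negY_negY _ _).symm⟩
    rw [slope_symm hu.1 hT.1]
    by_cases h : p = x ∧ q = W.negY x y
    · rw [if_pos h, if_pos (e.mpr h)]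
    · rw [if_neg h, if_neg fun h' => h (e.mp h')]

lemma bk_eq (T u v : W.Point) : bk T u v = FK4.dd (FK4.vv T u) (FK4.vv T v) := by
  unfold bk FK4.dd
  rw [vv_eq, vv_eq]

end vv

variable {k : Type*} [Field k] [DecidableEq k] [CharZero k] {W : WeierstrassCurve.Affine k}
  {F : Type*} [Field F] [Algebra k F] {X Y : F} {H : AddSubgroup W.Point}

/-- the potentials of a finite group of points are independent -/
theorem indTh [DecidableEq F] [Fintype H] [DecidableEq H] (hg : Gen W X Y) : IndTh H hg := by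
  intro e c hc he hp
  apply independent hg he hc
  rw [← hp]
  refine Finset.prod_congr rfl fun a _ => ?_
  rw [Finset.prod_zpow]
  congr 1
  refine Finset.prod_congr ?_ fun c _ => rfl
  ext c
  simp only [Finset.mem_erase]

/-- **quotients of lines through a point of the curve are constants or the functions `lamH`** -/
theorem lineS_lam [DecidableEq F] [Fintype H] [DecidableEq H] (hg : Gen W X Y) {f : F}
    (hf : LineS H X Y f) :
    (∃ c : k, f = algebraMap k F c) ∨ ∃ S p q r : H, f = lamH H hg S p q r := by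
  rcases FK4.lineS_cr4 hg hg.ns hf with h | ⟨S, hS, u, hu, v, hv, w, hw, -, -, -, rfl⟩
  · exact Or.inl h
  · right
    refine ⟨-⟨S, hS⟩, ⟨u, hu⟩, ⟨v, hv⟩, ⟨w, hw⟩, ?_⟩
    unfold lamH lamD DD FK4.cr4
    simp only [← bk_eq, map_neg, neg_neg]
    rfl

/-- the span of the quotients of lines and of the constants -/
noncomputable def SpL (H : AddSubgroup W.Point) (X Y : F) : Submodule ℚ (HK F) :=
  Submodule.span ℚ {z | ∃ f u : F, ((∃ c : k, f = algebraMap k F c) ∨ LineS H X Y f) ∧
    z = hk (sy f) (lg u)}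

lemma const_mem_KC (c : k) (u : F) : hk (sy (algebraMap k F c)) (lg u) ∈ KC k F := by
  rw [KC_eq]
  unfold Cst
  exact Submodule.subset_span ⟨c, u, rfl⟩

theorem closed_SpL [Finite H]
    (hg : Generic W X Y) (hS : ∀ [Fintype H], SiegelIndep H) {z : HK F} (hz : z ∈ SpL H X Y)
    (hc : Closed z) : z ∈ Cst k F := by
  classical
  have := Fintype.ofFinite H
  rw [← KC_eq]
  have hz' : z ∈ SpH H hg.toU := by
    refine Submodule.span_le.mpr ?_ hz
    rintro _ ⟨f, u, (⟨c, rfl⟩ | h1), rfl⟩
    · exact Submodule.mem_sup_right (const_mem_KC c u)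
    · rcases lineS_lam hg.toU h1 with ⟨c, rfl⟩ | ⟨S, p, q, r, rfl⟩
      · exact Submodule.mem_sup_right (const_mem_KC c u)
      · exact Submodule.mem_sup_left (Submodule.subset_span ⟨S, p, q, r, lg u, rfl⟩)
  exact closed_SpH H hg.toU (indTh hg.toU) (indG_of hS) hz' hc

end Pool.Agent.GK
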