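import Pool.Agent.Lib_helper40.GK.GE1

/-!
# Lines and pencils of lines
-/

set_option autoImplicit false
set_option linter.unusedSectionVars false

namespace Pool.Agent.GK

open WeierstrassCurve.Affine K4M

section vectors

variable {K : Type*} [Field K] [DecidableEq K] {W : WeierstrassCurve.Affine K}

/-- the line joining `T` and `u` as an element of the pencil of lines through `T` -/
noncomputable def vv (T u : W.Point) : K × K :=
  match T, u with
  | .zero, .zero => (0, 1)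
  | .zero, .some x _ _ => (1, x)
  | .some _ _ _, .zero => (0, 1)
  | .some x₀ y₀ _, .some x y _ =>
    if x = x₀ ∧ y = W.negY x₀ y₀ then (0, 1) else (1, W.slope x x₀ y y₀)

/-- the bracket of the pencil of lines through `T` -/
noncomputable def bk (T u v : W.Point) : K := (vv T u).1 * (vv T v).2 - (vv T u).2 * (vv T v).1

lemma vv_or (T u : W.Point) : vv T u = (0, 1) ∨ ∃ l, vv T u = (1, l) := by
  rcases T with _ | ⟨x₀, y₀, h₀⟩ <;> rcases u with _ | ⟨x, y, h⟩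
  · exact Or.inl rfl
  · exact Or.inr ⟨x, rfl⟩
  · exact Or.inl rfl
  · unfold vv
    by_cases h : x = x₀ ∧ y = W.negY x₀ y₀
    · simp only [h, and_self, if_true]; exact Or.inl trivial
    · simp only [h, if_false]; exact Or.inr ⟨_, rfl⟩

lemma bk_anti (T u v : W.Point) : bk T v u = - bk T u v := by unfold bk; ring

lemma bk_bracket (T : W.Point) : Bracket (bk T) where
  anti u v := bk_anti T u v
  pl a b c d := by unfold bk; ring

lemma bk_nbracket (T : W.Point) : NBracket (bk T) where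
  anti u v := bk_anti T u v
  pl a b c d := by unfold bk; ring
  trans a b c h1 h2 := by
    unfold bk at *
    rcases vv_or T a with e | ⟨l, e⟩ <;> rcases vv_or T b with e' | ⟨l', e'⟩ <;>
      rcases vv_or T c with e'' | ⟨l'', e''⟩ <;>
      rw [e, e'] at h1 <;> rw [e', e''] at h2 <;> rw [e, e''] <;> simp only at h1 h2 ⊢
    all_goals first
      | (ring1)
      | (exfalso; apply one_ne_zero (α := K); linear_combination h1)
      | (exfalso; apply one_ne_zero (α := K); linear_combination -h1)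
      | (exfalso; apply one_ne_zero (α := K); linear_combination h2)
      | (exfalso; apply one_ne_zero (α := K); linear_combination -h2)
      | (linear_combination h1 + h2)

lemma bk_self (T u : W.Point) : bk T u u = 0 := by unfold bk; ring

lemma bk_zero (u v : W.Point) : bk 0 u v = - dx u v := by
  rcases u with _ | ⟨x, y, h⟩ <;> rcases v with _ | ⟨x', y', h'⟩
  · show (0 : K) * 1 - 1 * 0 = -(1 * 0 - 0 * 1); ring
  · show (0 : K) * x' - 1 * 1 = -(1 * 1 - 0 * x'); ring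
  · show (1 : K) * 1 - x * 0 = -(x * 0 - 1 * 1); ring
  · show (1 : K) * x' - x * 1 = -(x * 1 - 1 * x'); ring

lemma vv_inf {T : W.Point} : vv T 0 = (0, 1) := by
  rcases T with _ | ⟨x₀, y₀, h₀⟩ <;> rfl

lemma vv_neg {T : W.Point} : vv T (-T) = (0, 1) := by
  rcases T with _ | ⟨x₀, y₀, h₀⟩
  · rfl
  · rw [Point.neg_some]
    unfold vv
    simp

/-- the slope -/
lemma vv_gen {T u : W.Point} (hu : u ≠ 0) (hT : u ≠ -T) : ∃ l, vv T u = (1, l) := by
  rcases T with _ | ⟨x₀, y₀, h₀⟩ <;> rcases u with _ | ⟨x, y, h⟩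
  · exact absurd rfl hu
  · exact ⟨x, rfl⟩
  · exact absurd rfl hu
  · have : ¬ (x = x₀ ∧ y = W.negY x₀ y₀) := by
      rintro ⟨rfl, rfl⟩
      exact hT (by rw [Point.neg_some])
    unfold vv
    simp only [this, if_false]
    exact ⟨_, rfl⟩

lemma bk_inf {T u : W.Point} (hu : u ≠ 0) (hT : u ≠ -T) : bk T u 0 = 1 := by
  obtain ⟨l, e⟩ := vv_gen hu hT
  unfold bk
  rw [e, vv_inf]; ring

lemma bk_neg {T u : W.Point} (hu : u ≠ 0) (hT : u ≠ -T) : bk T u (-T) = 1 := by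
  obtain ⟨l, e⟩ := vv_gen hu hT
  unfold bk
  rw [e, vv_neg]; ring

/-- chords -/
theorem bk_chord {T p q : W.Point} (hT : T ≠ 0) (hp : p ≠ 0) (hq : q ≠ 0) (hp1 : p ≠ T)
    (hp2 : p ≠ -T) (hq1 : q ≠ T) (hq2 : q ≠ -T) : bk T p q * (dx p T * dx q T) = dt T p q := by
  rcases T with _ | ⟨x₀, y₀, h₀⟩
  · exact absurd rfl hT
  rcases p with _ | ⟨x₁, y₁, h₁⟩
  · exact absurd rfl hp
  rcases q with _ | ⟨x₂, y₂, h₂⟩
  · exact absurd rfl hq
  have e1 := x_ne hp1 hp2
  have e2 := x_ne hq1 hq2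
  have n1 : ¬ (x₁ = x₀ ∧ y₁ = W.negY x₀ y₀) := fun h => e1 h.1
  have n2 : ¬ (x₂ = x₀ ∧ y₂ = W.negY x₀ y₀) := fun h => e2 h.1
  have d1 : x₁ - x₀ ≠ 0 := sub_ne_zero.mpr e1
  have d2 : x₂ - x₀ ≠ 0 := sub_ne_zero.mpr e2
  have s1 : vv (Point.some x₀ y₀ h₀) (Point.some x₁ y₁ h₁) = (1, (y₁ - y₀) / (x₁ - x₀)) := by
    unfold vv; simp only [n1, if_false]; rw [slope_of_X_ne e1]
  have s2 : vv (Point.some x₀ y₀ h₀) (Point.some x₂ y₂ h₂) = (1, (y₂ - y₀) / (x₂ - x₀)) := by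
    unfold vv; simp only [n2, if_false]; rw [slope_of_X_ne e2]
  unfold bk
  rw [s1, s2]
  simp only [dx, xv, dt, pv]
  field_simp
  ring

/-- the tangent and a chord -/
theorem bk_tan {T p : W.Point} (hT : T ≠ 0) (hTT : T ≠ -T) (hp : p ≠ 0) (hp1 : p ≠ T)
    (hp2 : p ≠ -T) : bk T p T * ps T = dx p T * dx (p + T) T := by
  rcases T with _ | ⟨x₀, y₀, h₀⟩
  · exact absurd rfl hT
  rcases p with _ | ⟨x₁, y₁, h₁⟩
  · exact absurd rfl hp
  have e1 := x_ne hp1 hp2
  have n1 : ¬ (x₁ = x₀ ∧ y₁ = W.negY x₀ y₀) := fun h => e1 h.1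
  have hy : y₀ ≠ W.negY x₀ y₀ := by
    intro h
    apply hTT
    rw [Point.neg_some]
    simp only [Point.some.injEq, true_and]
    exact h
  have n0 : ¬ (x₀ = x₀ ∧ y₀ = W.negY x₀ y₀) := fun h => hy h.2
  have d1 : x₁ - x₀ ≠ 0 := sub_ne_zero.mpr e1
  have d0 : y₀ - W.negY x₀ y₀ ≠ 0 := sub_ne_zero.mpr hy
  have s1 : vv (Point.some x₀ y₀ h₀) (Point.some x₁ y₁ h₁) = (1, (y₁ - y₀) / (x₁ - x₀)) := by
    unfold vv; simp only [n1, if_false]; rw [slope_of_X_ne e1]
  have s2 : vv (Point.some x₀ y₀ h₀) (Point.some x₀ y₀ h₀) =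
      (1, (3 * x₀ ^ 2 + 2 * W.a₂ * x₀ + W.a₄ - W.a₁ * y₀) / (y₀ - W.negY x₀ y₀)) := by
    unfold vv; simp only [hy, and_false, if_false]; rw [slope_of_Y_ne rfl hy]
  unfold bk
  rw [s1, s2, Point.add_of_X_ne e1, ps_some]
  simp only [dx, xv, mul_one, one_mul]
  rw [slope_of_X_ne e1, addX]
  have q0 := (equation_iff' x₀ y₀).mp h₀.1
  have q1 := (equation_iff' x₁ y₁).mp h₁.1
  field_simp
  unfold negY
  linear_combination q0 - q1

/-- **the norm of a line** -/
theorem norm_line {u v t : W.Point} (hu : u ≠ 0) (hv : v ≠ 0) (ht : t ≠ 0) (h1 : u ≠ v)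
    (h2 : u ≠ -v) : dt u v t * dt u v (-t) = -(dx u v ^ 2 * (dx t u * dx t v * dx t (u + v))) := by
  rcases u with _ | ⟨x₁, y₁, g₁⟩
  · exact absurd rfl hu
  rcases v with _ | ⟨x₂, y₂, g₂⟩
  · exact absurd rfl hv
  rcases t with _ | ⟨x₃, y₃, g₃⟩
  · exact absurd rfl ht
  have e1 := x_ne h1 h2
  have d1 : x₁ - x₂ ≠ 0 := sub_ne_zero.mpr e1
  have ev := congrArg (Polynomial.eval x₃) (addPolynomial_slope g₁.1 g₂.1 (fun h => e1 h.1))
  rw [addPolynomial_eq] at ev
  simp only [Cubic.toPoly, Polynomial.eval_neg, Polynomial.eval_add, Polynomial.eval_mul,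
    Polynomial.eval_C, Polynomial.eval_pow, Polynomial.eval_X, Polynomial.eval_sub] at ev
  have hl : W.slope x₁ x₂ y₁ y₂ * (x₁ - x₂) = y₁ - y₂ := by
    rw [slope_of_X_ne e1, div_mul_cancel₀ _ d1]
  rw [Point.add_of_X_ne e1, Point.neg_some]
  simp only [dx, xv, dt, pv, mul_one, one_mul]
  set l := W.slope x₁ x₂ y₁ y₂ with hl0
  have q3 := (equation_iff' x₃ y₃).mp g₃.1
  have a1 : x₁ * (y₂ - y₃) - y₁ * (x₂ - x₃) + (x₂ * y₃ - y₂ * x₃) =
      (x₂ - x₁) * ((y₃ - y₁) - l * (x₃ - x₁)) := by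
    linear_combination -(x₃ - x₁) * hl
  have a2 : x₁ * (y₂ - W.negY x₃ y₃) - y₁ * (x₂ - x₃) + (x₂ * W.negY x₃ y₃ - y₂ * x₃) =
      (x₂ - x₁) * ((W.negY x₃ y₃ - y₁) - l * (x₃ - x₁)) := by
    linear_combination -(x₃ - x₁) * hl
  have core : ((y₃ - y₁) - l * (x₃ - x₁)) * ((W.negY x₃ y₃ - y₁) - l * (x₃ - x₁)) =
      -((x₃ - x₁) * (x₃ - x₂) * (x₃ - W.addX x₁ x₂ l)) := by
    rw [← ev, negY]
    linear_combination -q3
  rw [a1, a2]
  linear_combination (x₂ - x₁) ^ 2 * core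

lemma dt_s12 (a b c : W.Point) : dt b a c = - dt a b c := dt_bracket.s12 a b c
lemma dt_s23 (a b c : W.Point) : dt a c b = - dt a b c := dt_bracket.s23 a b c
lemma dt_cyc (a b c : W.Point) : dt b c a = dt a b c := by
  rw [dt_s23, dt_s12, neg_neg]

/-- negation of three points -/
lemma dt_neg {a b c : W.Point} (ha : a ≠ 0) (hb : b ≠ 0) (hc : c ≠ 0) :
    dt (-a) (-b) (-c) = - dt a b c := by
  rcases a with _ | ⟨x₁, y₁, g₁⟩
  · exact absurd rfl ha
  rcases b with _ | ⟨x₂, y₂, g₂⟩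
  · exact absurd rfl hb
  rcases c with _ | ⟨x₃, y₃, g₃⟩
  · exact absurd rfl hc
  rw [Point.neg_some, Point.neg_some, Point.neg_some]
  simp only [dt, pv, negY]
  ring

/-- the square of the determinant of three points -/
theorem dt_sq {a b c : W.Point} (ha : a ≠ 0) (hb : b ≠ 0) (hc : c ≠ 0) (h1 : a ≠ b)
    (h2 : a ≠ -b) (h3 : a ≠ c) (h4 : a ≠ -c) (h5 : b ≠ c) (h6 : b ≠ -c) :
    dt a b c ^ 2 * (dx a b ^ 2 * (dx c a * dx c b * dx c (a - b))) =
      (dx a c ^ 2 * (dx b a * dx b c * dx b (a + c))) *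
      (dx b c ^ 2 * (dx a b * dx a c * dx a (b + c))) := by
  have hb' : -b ≠ 0 := neg_ne_zero.mpr hb
  have p1 := norm_line ha hc hb h3 h4
  have p2 := norm_line hb hc ha h5 h6
  have p3 := norm_line ha hb' hc h2 (by rwa [neg_neg])
  rw [dx_neg_right a b, dx_neg_right c b, ← sub_eq_add_neg] at p3
  have s1 : dt a c b = - dt a b c := dt_s23 a b c
  have s2 : dt b c a = dt a b c := dt_cyc a b c
  have s3 : dt a c (-b) = - dt a (-b) c := dt_s23 a (-b) c
  have s4 : dt b c (-a) = - dt a (-b) (-c) := by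
    have e1 := dt_neg hb hc (neg_ne_zero.mpr ha)
    rw [neg_neg] at e1
    have e2 : dt (-b) (-c) a = dt a (-b) (-c) := dt_cyc a (-b) (-c)
    rw [e2] at e1
    rw [e1, neg_neg]
  rw [s1, s3] at p1
  rw [s2, s4] at p2
  have e : dt a b c ^ 2 * (dt a (-b) c * dt a (-b) (-c)) =
      -(dx a c ^ 2 * (dx b a * dx b c * dx b (a + c))) *
      (dx b c ^ 2 * (dx a b * dx a c * dx a (b + c))) := by
    linear_combination (dt a b c * dt a (-b) (-c)) * p1 +
      (dx a c ^ 2 * (dx b a * dx b c * dx b (a + c))) * p2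
  rw [p3] at e
  linear_combination -e

/-- a vertical line -/
lemma dt_vert {u b : W.Point} (hu : u ≠ 0) (hb : b ≠ 0) : dt u b (-b) = dx u b * ps b := by
  rcases u with _ | ⟨x₁, y₁, g₁⟩
  · exact absurd rfl hu
  rcases b with _ | ⟨x₂, y₂, g₂⟩
  · exact absurd rfl hb
  rw [Point.neg_some]
  simp only [dt, pv, dx, xv, ps, negY]
  ring

lemma dt_inf {u b : W.Point} (hu : u ≠ 0) (hb : b ≠ 0) : dt u b 0 = - dx u b := by
  rcases u with _ | ⟨x₁, y₁, g₁⟩
  · exact absurd rfl hu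
  rcases b with _ | ⟨x₂, y₂, g₂⟩
  · exact absurd rfl hb
  show dt (Point.some x₁ y₁ g₁) (Point.some x₂ y₂ g₂) Point.zero = _
  simp only [dt, pv, dx, xv]
  ring

/-- three points of a line -/
lemma dt_line {T p : W.Point} (hT : T ≠ 0) (hp : p ≠ 0) (h1 : T ≠ p) (h2 : T ≠ -p) :
    dt T p (-(T + p)) = 0 := by
  rcases T with _ | ⟨x₁, y₁, g₁⟩
  · exact absurd rfl hT
  rcases p with _ | ⟨x₂, y₂, g₂⟩
  · exact absurd rfl hp
  have e1 := x_ne h1 h2
  have d1 : x₁ - x₂ ≠ 0 := sub_ne_zero.mpr e1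
  have hl : W.slope x₁ x₂ y₁ y₂ * (x₁ - x₂) = y₁ - y₂ := by
    rw [slope_of_X_ne e1, div_mul_cancel₀ _ d1]
  rw [Point.add_of_X_ne e1, Point.neg_some]
  set l := W.slope x₁ x₂ y₁ y₂ with hl0
  have e2 : W.negY (W.addX x₁ x₂ l) (W.addY x₁ x₂ y₁ l) = l * (W.addX x₁ x₂ l - x₁) + y₁ := by
    rw [addY, negY_negY]; rfl
  simp only [dt, pv]
  rw [e2]
  linear_combination (x₁ - W.addX x₁ x₂ l) * hl

lemma ps_ne {T : W.Point} (hT : T ≠ -T) : ps T ≠ 0 := by
  by_cases h : T = 0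
  · exact absurd (by rw [h, neg_zero]) hT
  · intro h0
    exact hT (eq_neg_of_add_eq_zero_left ((ps_eq_zero_iff h).mp h0))

/-- the third point of a line -/
theorem bk_third {T p : W.Point} : bk T p (-T - p) = 0 := by
  by_cases hT : T = 0
  · rw [hT, bk_zero, neg_zero, zero_sub, dx_neg_right, dx_bracket.self, neg_zero]
  by_cases hp : p = 0
  · rw [hp, sub_zero]; unfold bk; rw [vv_inf, vv_neg]; ring
  by_cases hp2 : p = -T
  · rw [hp2, sub_self]; unfold bk; rw [vv_inf, vv_neg]; ring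
  have hq : -T - p ≠ 0 := by
    intro h
    exact hp2 (sub_eq_zero.mp h).symm
  have hq2 : -T - p ≠ -T := by
    intro h
    exact hp (by rwa [sub_eq_self] at h)
  by_cases hp1 : p = T
  · subst hp1
    by_cases hq1 : -p - p = p
    · rw [hq1, bk_self]
    · have e := bk_tan hT hp2 hq hq1 hq2
      have e1 : -p - p + p = -p := by abel
      rw [e1, dx_neg_left, dx_bracket.self, mul_zero] at e
      rw [bk_anti, (mul_eq_zero.mp e).resolve_right (ps_ne hp2), neg_zero]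
  by_cases hq1 : -T - p = T
  · have hTT : T ≠ -T := by
      intro h
      apply hp
      have : p = -T - T := by rw [eq_sub_iff_add_eq, add_comm, ← eq_sub_iff_add_eq]; exact hq1.symm
      rw [this, ← h, sub_self]
    have e := bk_tan hT hTT hp hp1 hp2
    have e1 : p + T = -T := by
      rw [add_comm]
      exact (sub_eq_iff_eq_add.mp hq1).symm
    rw [e1, dx_neg_left, dx_bracket.self, mul_zero] at e
    rw [hq1, (mul_eq_zero.mp e).resolve_right (ps_ne hTT)]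
  · have e := bk_chord hT hp hq hp1 hp2 hq1 hq2
    have e1 : -T - p = -(T + p) := by abel
    rw [e1] at e hq1 hq2 ⊢
    rw [dt_line hT hp (Ne.symm hp1) (fun h => hp2 (by rw [h, neg_neg]))] at e
    have n1 : dx p T ≠ 0 := dx_ne hp1 hp2
    have n2 : dx (-(T + p)) T ≠ 0 := dx_ne hq1 hq2
    exact (mul_eq_zero.mp e).resolve_right (mul_ne_zero n1 n2)

end vectors

end Pool.Agent.GK
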