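import Mathlib

/-!
# Averages of the symbols of pencils over a finite group of points

`L S p q r` is the class of the cross ratio of a variable point and of `p`, `q`, `r` in the quotient
of the curve by `z ↦ S - z`.
-/

set_option autoImplicit false
set_option linter.unusedSectionVars false

namespace Pool.Agent.GK

section Sums

variable {A : Type*} [AddCommGroup A] [Fintype A] {H : Type*} [AddCommMonoid H]

lemma sum_add (f : A → H) (c : A) : ∑ a, f (a + c) = ∑ a, f a :=
  Equiv.sum_comp (Equiv.addRight c) f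

lemma sum_sub (f : A → H) (c : A) : ∑ a, f (a - c) = ∑ a, f a :=
  Equiv.sum_comp (Equiv.subRight c) f

lemma sum_rsub (f : A → H) (c : A) : ∑ a, f (c - a) = ∑ a, f a :=
  Equiv.sum_comp (Equiv.subLeft c) f

lemma sum_neg (f : A → H) : ∑ a, f (-a) = ∑ a, f a :=
  Equiv.sum_comp (Equiv.neg A) f

end Sums

variable {A : Type*} [AddCommGroup A] [Fintype A] {B : Type*} [AddCommGroup B] [Module ℚ B]

/-- the symbols of the pencil of lines -/
def Mf (L : A → A → A → A → B) (s a b c d : A) : B :=
  L (a + b + c + d - (s + s)) (a + b - s) (a + c - s) (a + d - s)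

/-- the relations between the symbols -/
structure Pen (L : A → A → A → A → B) : Prop where
  sw : ∀ S p q r, L S q p r = - L S p q r
  sw' : ∀ S p q r, L S p r q = - L S p q r
  rf : ∀ S p q r, L S (S - p) q r = L S p q r
  coc : ∀ S p q r s, L S q r s - L S p r s + L S p q s - L S p q r = 0
  lin : ∀ s a b c d e, Mf L s b c d e - Mf L s a c d e + Mf L s a b d e - Mf L s a b c e +
    Mf L s a b c d = 0

/-- the average -/
noncomputable def ta (L : A → A → A → A → B) (p q : A) : B :=
  ((Fintype.card A : ℚ) ^ 2)⁻¹ • ∑ S, ∑ r, L S p q r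

/-- the sum over two orbits -/
def mu (T : A → A → B) (S p q : A) : B := T p q + T (S - p) q + T p (S - q) + T (S - p) (S - q)

namespace Pen

variable {L : A → A → A → A → B} (h : Pen L)

include h

lemma rf2 (S p q r : A) : L S p (S - q) r = L S p q r := by
  rw [h.sw, h.rf, ← h.sw]

lemma rf3 (S p q r : A) : L S p q (S - r) = L S p q r := by
  rw [h.sw', h.rf2, ← h.sw']

lemma ta_sw (p q : A) : ta L q p = - ta L p q := by
  unfold ta
  rw [← smul_neg]
  congr 1
  rw [← Finset.sum_neg_distrib]
  refine Finset.sum_congr rfl fun S _ => ?_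
  rw [← Finset.sum_neg_distrib]
  exact Finset.sum_congr rfl fun r _ => h.sw S p q r

omit h in
lemma eq_zero_of_neg {x : B} (hx : x = -x) : x = 0 := by
  have h1 : (2 : ℚ) • x = 0 := by
    rw [two_smul]; nth_rewrite 1 [hx]; exact neg_add_cancel x
  rcases smul_eq_zero.mp h1 with h2 | h2
  · norm_num at h2
  · exact h2

lemma ta_row (p : A) : ∑ q, ta L p q = 0 := by
  unfold ta
  rw [← Finset.smul_sum, Finset.sum_comm]
  have : ∀ S, ∑ q, ∑ r, L S p q r = 0 := by
    intro S
    apply eq_zero_of_neg
    conv_lhs => rw [Finset.sum_comm]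
    rw [← Finset.sum_neg_distrib]
    refine Finset.sum_congr rfl fun q _ => ?_
    rw [← Finset.sum_neg_distrib]
    exact Finset.sum_congr rfl fun r _ => h.sw' S p q r
  rw [Finset.sum_congr rfl fun S _ => this S, Finset.sum_const_zero, smul_zero]

lemma ta_diag (m : A) : ∑ a, ta L a (a + m) = 0 := by
  unfold ta
  rw [← Finset.smul_sum, Finset.sum_comm]
  have : ∀ S, ∑ a, ∑ r, L S a (a + m) r = 0 := by
    intro S
    rw [Finset.sum_comm]
    refine (Finset.sum_congr rfl fun r _ => ?_).trans Finset.sum_const_zero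
    apply eq_zero_of_neg
    conv_lhs => rw [← sum_rsub _ (S - m)]
    rw [← Finset.sum_neg_distrib]
    refine Finset.sum_congr rfl fun a _ => ?_
    have e1 : S - m - a = S - (a + m) := by abel
    have e2 : S - m - a + m = S - a := by abel
    rw [e2, e1, h.rf, h.rf2, h.sw]
  rw [Finset.sum_congr rfl fun S _ => this S, Finset.sum_const_zero, smul_zero]

variable [Nonempty A]

omit h in
lemma card_ne : (Fintype.card A : ℚ) ≠ 0 := by
  exact_mod_cast Fintype.card_ne_zero

/-- the average over the third point -/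
noncomputable def av (L : A → A → A → A → B) (S p q : A) : B :=
  (Fintype.card A : ℚ)⁻¹ • ∑ r, L S p q r

omit h in
lemma ta_eq (p q : A) : ta L p q = (Fintype.card A : ℚ)⁻¹ • ∑ S, av L S p q := by
  unfold ta av
  rw [← Finset.smul_sum, smul_smul]
  congr 1
  rw [pow_two, mul_inv]

omit h in
lemma card_smul (x : B) : ∑ _r : A, x = (Fintype.card A : ℚ) • x := by
  rw [Finset.sum_const, Finset.card_univ, Nat.cast_smul_eq_nsmul]

lemma av_sw (S p q : A) : av L S q p = - av L S p q := by
  unfold av
  rw [← smul_neg, ← Finset.sum_neg_distrib]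
  congr 1
  exact Finset.sum_congr rfl fun r _ => h.sw S p q r

lemma av_rf (S p q : A) : av L S (S - p) q = av L S p q := by
  unfold av
  congr 1
  exact Finset.sum_congr rfl fun r _ => h.rf S p q r

lemma av_rf2 (S p q : A) : av L S p (S - q) = av L S p q := by
  unfold av
  congr 1
  exact Finset.sum_congr rfl fun r _ => h.rf2 S p q r

/-- the symbols in terms of the averages -/
lemma L_av (S p q r : A) : L S p q r = av L S p q + av L S q r + av L S r p := by
  have h1 : (Fintype.card A : ℚ) • L S p q r = ∑ s, (L S q r s - L S p r s + L S p q s) := by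
    rw [← card_smul]
    refine Finset.sum_congr rfl fun s _ => ?_
    exact (sub_eq_zero.mp (h.coc S p q r s)).symm
  have h2 : L S p q r = (Fintype.card A : ℚ)⁻¹ • ((Fintype.card A : ℚ) • L S p q r) := by
    rw [smul_smul, inv_mul_cancel₀ card_ne, one_smul]
  rw [h2, h1, Finset.sum_add_distrib, Finset.sum_sub_distrib, h.av_sw S p r]
  unfold av
  module

/-- the average of the symbols of the pencil of lines -/
lemma nu_eq (s a b c : A) : (Fintype.card A : ℚ)⁻¹ • ∑ e, Mf L s a b c e =
    ta L (a + b - s) (a + c - s) + ta L (a + c - s) (b + c - s) + ta L (b + c - s) (a + b - s) := by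
  have h1 : ∀ e, Mf L s a b c e = av L (a + b + c - (s + s) + e) (a + b - s) (a + c - s) +
      av L (a + b + c - (s + s) + e) (a + c - s) (b + c - s) +
      av L (a + b + c - (s + s) + e) (b + c - s) (a + b - s) := by
    intro e
    unfold Mf
    have e1 : a + b + c + e - (s + s) = a + b + c - (s + s) + e := by abel
    rw [e1, h.L_av]
    have e2 : a + e - s = (a + b + c - (s + s) + e) - (b + c - s) := by abel
    rw [e2, h.av_rf2, h.av_rf]
  rw [Finset.sum_congr rfl fun e _ => h1 e, Finset.sum_add_distrib, Finset.sum_add_distrib]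
  have h2 : ∀ p q : A, ∑ e, av L (a + b + c - (s + s) + e) p q = ∑ S, av L S p q := by
    intro p q
    exact Equiv.sum_comp (Equiv.addLeft (a + b + c - (s + s))) (fun S => av L S p q)
  rw [h2, h2, h2, ta_eq, ta_eq, ta_eq, smul_add, smul_add]

/-- the symbols of the pencil of lines in terms of the averages -/
lemma M_nu (s a b c d : A) : Mf L s a b c d =
    (Fintype.card A : ℚ)⁻¹ • (∑ e, Mf L s a b c e) - (Fintype.card A : ℚ)⁻¹ • (∑ e, Mf L s a b d e)
      + (Fintype.card A : ℚ)⁻¹ • (∑ e, Mf L s a c d e) -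
      (Fintype.card A : ℚ)⁻¹ • (∑ e, Mf L s b c d e) := by
  have h1 : (Fintype.card A : ℚ) • Mf L s a b c d =
      ∑ e, (Mf L s a b c e - Mf L s a b d e + Mf L s a c d e - Mf L s b c d e) := by
    rw [← card_smul]
    refine Finset.sum_congr rfl fun e _ => ?_
    have := h.lin s a b c d e
    rw [← sub_eq_zero, ← this]
    abel
  have h2 : Mf L s a b c d = (Fintype.card A : ℚ)⁻¹ • ((Fintype.card A : ℚ) • Mf L s a b c d) := by
    rw [smul_smul, inv_mul_cancel₀ card_ne, one_smul]
  conv_lhs => rw [h2, h1]
  rw [Finset.sum_sub_distrib, Finset.sum_add_distrib, Finset.sum_sub_distrib]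
  module

/-- **the symbols are sums of the averages** -/
theorem L_eq (S p q r : A) : L S p q r = mu (ta L) S p q + mu (ta L) S q r + mu (ta L) S r p := by
  set s := S - p - q - r with hs
  have e0 : L S p q r = Mf L s 0 (p + s) (q + s) (r + s) := by
    unfold Mf
    have e1 : 0 + (p + s) + (q + s) + (r + s) - (s + s) = S := by rw [hs]; abel
    have e2 : ∀ x : A, 0 + (x + s) - s = x := fun x => by abel
    rw [e1, e2, e2, e2]
  rw [e0, h.M_nu, h.nu_eq, h.nu_eq, h.nu_eq, h.nu_eq]
  have e2 : ∀ x : A, 0 + (x + s) - s = x := fun x => by abel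
  have e3 : p + s + (q + s) - s = S - r := by rw [hs]; abel
  have e4 : p + s + (r + s) - s = S - q := by rw [hs]; abel
  have e5 : q + s + (r + s) - s = S - p := by rw [hs]; abel
  rw [e2, e2, e2, e3, e4, e5]
  unfold mu
  rw [h.ta_sw p r, h.ta_sw r (S - q), h.ta_sw (S - q) p, h.ta_sw (S - r) (S - q),
    h.ta_sw (S - q) (S - p), h.ta_sw (S - p) (S - r), h.ta_sw (S - p) r]
  abel

end Pen

end Pool.Agent.GK
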