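import Pool.Agent.Lib_helper40.GK.GE2
import Pool.Agent.Lib_helper24.TN.N4K
import Pool.Agent.Lib_helper40.GK.S1

/-!
# The classes of the brackets
-/

set_option autoImplicit false
set_option linter.unusedSectionVars false

namespace Pool.Agent.GK

open WeierstrassCurve.Affine
open K4M (dx dt ps pc)
open MK4 (FT lg)
open Pool.Agent.TN (lgmul lgdiv lgpow lgneg lg1 lgz)

section

variable {K : Type*} [Field K] [DecidableEq K] {W : WeierstrassCurve.Affine K}

lemma lg_dx_comm (a b : W.Point) : lg (dx b a) = lg (dx a b) := by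
  rw [K4M.dx_comm', lgneg]

lemma lg_dx_zero (a : W.Point) : lg (dx a 0) = 0 :=
  (lg_dx_comm 0 a).trans (K4M.lg_dx_zero_left a)

lemma lg_dl_comm' (a b : W.Point) : lg (dl b a) = lg (dl a b) := lg_dl_comm a b

lemma lg_dl_zero_left (c : W.Point) : lg (dl (0 : W.Point) c) = 0 := dl_zero_left c

lemma lg_dl_zero_right (c : W.Point) : lg (dl c (0 : W.Point)) = 0 := by
  rw [lg_dl_comm']; exact lg_dl_zero_left c

variable {A : Type*} [AddCommGroup A] [Fintype A] [DecidableEq A]

/-- a finite group of points and a group containing it; the points outside the latter are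
generic -/
structure Ctx (pt : A →+ W.Point) (AL : AddSubgroup W.Point) : Prop where
  inj : Function.Injective pt
  mem : ∀ a, pt a ∈ AL

/-- the potential of a point -/
noncomputable def gg (pt : A →+ W.Point) (u : W.Point) : FT K :=
  (-(2 * (Fintype.card A : ℚ))⁻¹) • ∑ c, lg (dx u (pt c))

/-- the constants -/
noncomputable def GG (pt : A →+ W.Point) (b : A) : FT K :=
  (-(2 * (Fintype.card A : ℚ))⁻¹) • ∑ c, lg (dl (pt b) (pt c))

namespace Ctx

variable {pt : A →+ W.Point} {AL : AddSubgroup W.Point} (h : Ctx pt AL)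

include h

lemma ne {u : W.Point} (hu : u ∉ AL) (b : A) : u ≠ pt b := fun e => hu (e ▸ h.mem b)

lemma ne' {u : W.Point} (hu : u ∉ AL) (b : A) : u ≠ - pt b := fun e =>
  hu (e ▸ AL.neg_mem (h.mem b))

lemma ne_zero {u : W.Point} (hu : u ∉ AL) : u ≠ 0 := fun e => hu (e ▸ AL.zero_mem)

lemma add_nmem {u : W.Point} (hu : u ∉ AL) (b : A) : u + pt b ∉ AL := fun e =>
  hu (by have := AL.sub_mem e (h.mem b); rwa [add_sub_cancel_right] at this)

lemma sub_nmem {u : W.Point} (hu : u ∉ AL) (b : A) : u - pt b ∉ AL := fun e =>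
  hu (by have := AL.add_mem e (h.mem b); rwa [sub_add_cancel] at this)

lemma neg_nmem {u : W.Point} (hu : u ∉ AL) : -u ∉ AL := fun e =>
  hu (by have := AL.neg_mem e; rwa [neg_neg] at this)

lemma dx_ne {u : W.Point} (hu : u ∉ AL) (b : A) : dx u (pt b) ≠ 0 :=
  K4M.dx_ne (h.ne hu b) (h.ne' hu b)

lemma pt_ne {b : A} (hb : b ≠ 0) : pt b ≠ 0 := fun e => hb (h.inj (e.trans (map_zero pt).symm))

lemma pt_ne_neg {a b : A} (hb : a ≠ -b) : pt a ≠ - pt b := fun e =>
  hb (h.inj (by rw [map_neg]; exact e))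

lemma pt_ne' {a b : A} (hb : a ≠ b) : pt a ≠ pt b := fun e => hb (h.inj e)

lemma dxc_ne {a b : A} (h1 : a ≠ b) (h2 : a ≠ -b) : dx (pt a) (pt b) ≠ 0 :=
  K4M.dx_ne (h.pt_ne' h1) (h.pt_ne_neg h2)

lemma dl_eq {a b : A} (h1 : a ≠ b) (h2 : a ≠ -b) : dl (pt a) (pt b) = dx (pt a) (pt b) := by
  unfold dl
  rw [if_neg]
  rintro (e | e)
  · exact h.pt_ne' h1 e
  · exact h.pt_ne_neg h2 e

/-- the parallelogram identity for the classes -/
lemma lg_par {u : W.Point} (hu : u ∉ AL) (b c : A) :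
    lg (dx (u + pt b) (pt c)) + lg (dx (u - pt b) (pt c)) + (2 : ℚ) • lg (dx u (pt b)) =
      lg (dx u (pt (b + c))) + lg (dx u (pt (b - c))) + (2 : ℚ) • lg (dl (pt b) (pt c)) := by
  by_cases hb : b = 0
  · subst hb
    rw [map_zero, add_zero, sub_zero, lg_dx_zero, zero_add, zero_sub, map_neg, K4M.dx_neg_right,
      lg_dl_zero_left]
  by_cases hc : c = 0
  · subst hc
    simp only [map_zero, lg_dx_zero, add_zero, sub_zero, lg_dl_zero_right]
    module
  have e := par (h.ne_zero hu) (h.pt_ne hb) (h.pt_ne hc) (h.ne hu b) (h.ne' hu b)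
  have e' := congrArg lg e
  have n1 := h.dx_ne (h.add_nmem hu b) c
  have n2 := h.dx_ne (h.sub_nmem hu b) c
  have n3 := h.dx_ne hu b
  have n4 := h.dx_ne hu (b + c)
  have n5 := h.dx_ne hu (b - c)
  have n6 := dl_ne (pt b) (pt c)
  rw [map_add] at n4
  rw [map_sub] at n5
  rw [lgmul (mul_ne_zero n1 n2) (pow_ne_zero 2 n3), lgmul n1 n2, lgpow n3,
    lgmul (mul_ne_zero n4 n5) (pow_ne_zero 2 n6), lgmul n4 n5, lgpow n6] at e'
  rw [map_add, map_sub]
  exact_mod_cast e'

variable [Nonempty A]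

omit h in
lemma two_card_ne : (2 * (Fintype.card A : ℚ)) ≠ 0 := mul_ne_zero two_ne_zero Pen.card_ne

omit h in
lemma sum_lg_eq (u : W.Point) : ∑ c, lg (dx u (pt c)) =
    (-(2 * (Fintype.card A : ℚ))) • gg pt u := by
  unfold gg
  rw [smul_smul, neg_mul_neg, mul_inv_cancel₀ two_card_ne, one_smul]

omit h in
lemma sum_dl_eq (b : A) : ∑ c, lg (dl (pt b) (pt c)) =
    (-(2 * (Fintype.card A : ℚ))) • GG pt b := by
  unfold GG
  rw [smul_smul, neg_mul_neg, mul_inv_cancel₀ two_card_ne, one_smul]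

/-- **the class of the bracket of a generic point and a point of the group** -/
theorem lg_dx {u : W.Point} (hu : u ∉ AL) (b : A) : lg (dx u (pt b)) =
    gg pt (u + pt b) + gg pt (u - pt b) - (2 : ℚ) • gg pt u - (2 : ℚ) • GG pt b := by
  have h1 : ∑ c, (lg (dx (u + pt b) (pt c)) + lg (dx (u - pt b) (pt c)) +
      (2 : ℚ) • lg (dx u (pt b))) =
      ∑ c, (lg (dx u (pt (b + c))) + lg (dx u (pt (b - c))) + (2 : ℚ) • lg (dl (pt b) (pt c))) :=
    Finset.sum_congr rfl fun c _ => h.lg_par hu b c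
  simp only [Finset.sum_add_distrib] at h1
  have e3 : ∑ c, (2 : ℚ) • lg (dl (pt b) (pt c)) =
      (2 : ℚ) • ((-(2 * (Fintype.card A : ℚ))) • GG pt b) := by
    rw [← Finset.smul_sum, sum_dl_eq]
  rw [e3, sum_lg_eq, sum_lg_eq, Pen.card_smul] at h1
  have e1 : ∑ c, lg (dx u (pt (b + c))) = (-(2 * (Fintype.card A : ℚ))) • gg pt u := by
    rw [← sum_lg_eq]
    exact Equiv.sum_comp (Equiv.addLeft b) (fun c => lg (dx u (pt c)))
  have e2 : ∑ c, lg (dx u (pt (b - c))) = (-(2 * (Fintype.card A : ℚ))) • gg pt u := by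
    rw [← sum_lg_eq]
    exact sum_rsub (fun c => lg (dx u (pt c))) b
  rw [e1, e2] at h1
  have h2 : (2 * (Fintype.card A : ℚ)) • lg (dx u (pt b)) = (2 * (Fintype.card A : ℚ)) •
      (gg pt (u + pt b) + gg pt (u - pt b) - (2 : ℚ) • gg pt u - (2 : ℚ) • GG pt b) := by
    linear_combination (norm := module) h1
  have h3 := congrArg (fun v => (2 * (Fintype.card A : ℚ))⁻¹ • v) h2
  simp only [smul_smul, inv_mul_cancel₀ (two_card_ne (A := A)), one_smul] at h3
  exact h3

lemma GG_zero : GG pt 0 = 0 := by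
  unfold GG
  rw [map_zero]
  simp only [lg_dl_zero_left, Finset.sum_const_zero, smul_zero]

lemma GG_neg (b : A) : GG pt (-b) = GG pt b := by
  unfold GG
  rw [map_neg]
  congr 1
  refine Finset.sum_congr rfl fun c _ => ?_
  exact lg_dl_neg_left (pt b) (pt c)

omit h in
lemma gg_neg (u : W.Point) : gg pt (-u) = gg pt u := by
  unfold gg
  congr 1
  refine Finset.sum_congr rfl fun c _ => ?_
  rw [K4M.dx_neg_left]

/-- **the class of the bracket of two points of the group** -/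
theorem lg_dl {u : W.Point} (hu : u ∉ AL) (b c : A) : lg (dl (pt b) (pt c)) =
    GG pt (b + c) + GG pt (b - c) - (2 : ℚ) • GG pt b - (2 : ℚ) • GG pt c := by
  have h1 := h.lg_par hu b c
  rw [h.lg_dx (h.add_nmem hu b) c, h.lg_dx (h.sub_nmem hu b) c, h.lg_dx hu b,
    h.lg_dx hu (b + c), h.lg_dx hu (b - c), map_add, map_sub] at h1
  have e1 : u + pt b + pt c = u + (pt b + pt c) := by abel
  have e2 : u + pt b - pt c = u + (pt b - pt c) := by abel
  have e3 : u - pt b + pt c = u - (pt b - pt c) := by abel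
  have e4 : u - pt b - pt c = u - (pt b + pt c) := by abel
  rw [e1, e2, e3, e4] at h1
  linear_combination (norm := module) (-(1 / 2 : ℚ)) • h1

end Ctx

end

end Pool.Agent.GK
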