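import Pool.Agent.Lib_helper40.GK.GE3

/-!
# The classes of the brackets of the pencils of lines
-/

set_option autoImplicit false
set_option linter.unusedSectionVars false

namespace Pool.Agent.GK

open WeierstrassCurve.Affine
open K4M (dx dt ps pc)
open MK4 (FT lg)
open Pool.Agent.TN (lgmul lgdiv lgpow lgneg lg1 lgz)

section

variable {K : Type*} [Field K] [DecidableEq K] {W : WeierstrassCurve.Affine K}

lemma lg_neg_one : lg (-1 : K) = 0 := by rw [lgneg, lg1]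

/-- the class of the determinant of three points -/
lemma lg_dt_gen {a b c : W.Point} (ha : a ≠ 0) (hb : b ≠ 0) (hc : c ≠ 0) (n1 : dx a b ≠ 0)
    (n2 : dx a c ≠ 0) (n3 : dx b c ≠ 0) (n4 : dx c (a - b) ≠ 0) (n5 : dx b (a + c) ≠ 0)
    (n6 : dx a (b + c) ≠ 0) : dt a b c ≠ 0 ∧ (2 : ℚ) • lg (dt a b c) =
      (2 : ℚ) • lg (dx a c) + (2 : ℚ) • lg (dx b c) + lg (dx b (a + c)) + lg (dx a (b + c)) -
        lg (dx c (a - b)) := by
  have g1 : ∀ {a b : W.Point}, dx a b ≠ 0 → a ≠ b ∧ a ≠ -b := by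
    intro a b h
    rw [Ne, K4M.dx_eq_zero_iff, not_or] at h
    exact h
  have e := dt_sq ha hb hc (g1 n1).1 (g1 n1).2 (g1 n2).1 (g1 n2).2 (g1 n3).1 (g1 n3).2
  have m1 : dx b a ≠ 0 := by rw [K4M.dx_comm']; exact neg_ne_zero.mpr n1
  have m2 : dx c a ≠ 0 := by rw [K4M.dx_comm']; exact neg_ne_zero.mpr n2
  have m3 : dx c b ≠ 0 := by rw [K4M.dx_comm']; exact neg_ne_zero.mpr n3
  have q1 : dx a c ^ 2 * (dx b a * dx b c * dx b (a + c)) ≠ 0 :=
    mul_ne_zero (pow_ne_zero 2 n2) (mul_ne_zero (mul_ne_zero m1 n3) n5)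
  have q2 : dx b c ^ 2 * (dx a b * dx a c * dx a (b + c)) ≠ 0 :=
    mul_ne_zero (pow_ne_zero 2 n3) (mul_ne_zero (mul_ne_zero n1 n2) n6)
  have q3 : dx a b ^ 2 * (dx c a * dx c b * dx c (a - b)) ≠ 0 :=
    mul_ne_zero (pow_ne_zero 2 n1) (mul_ne_zero (mul_ne_zero m2 m3) n4)
  have hdt : dt a b c ≠ 0 := by
    intro h0
    rw [h0, zero_pow two_ne_zero, zero_mul] at e
    exact mul_ne_zero q1 q2 e.symm
  refine ⟨hdt, ?_⟩
  have e' := congrArg lg e
  rw [lgmul (pow_ne_zero 2 hdt) q3, lgmul (pow_ne_zero 2 n1) (mul_ne_zero (mul_ne_zero m2 m3) n4),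
    lgmul (mul_ne_zero m2 m3) n4, lgmul m2 m3, lgmul q1 q2,
    lgmul (pow_ne_zero 2 n2) (mul_ne_zero (mul_ne_zero m1 n3) n5),
    lgmul (mul_ne_zero m1 n3) n5, lgmul m1 n3,
    lgmul (pow_ne_zero 2 n3) (mul_ne_zero (mul_ne_zero n1 n2) n6),
    lgmul (mul_ne_zero n1 n2) n6, lgmul n1 n2, lgpow hdt, lgpow n1, lgpow n2, lgpow n3,
    lg_dx_comm a b, lg_dx_comm a c, lg_dx_comm b c] at e'
  push_cast at e'
  linear_combination (norm := module) e'

variable {A : Type*} [AddCommGroup A] [Fintype A] [DecidableEq A] [Nonempty A]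

namespace Ctx

variable {pt : A →+ W.Point} {AL : AddSubgroup W.Point} (h : Ctx pt AL)

include h

lemma lg_dxc {u : W.Point} (hu : u ∉ AL) {a b : A} (h1 : a ≠ b) (h2 : a ≠ -b) :
    lg (dx (pt a) (pt b)) =
      GG pt (a + b) + GG pt (a - b) - (2 : ℚ) • GG pt a - (2 : ℚ) • GG pt b := by
  rw [← h.dl_eq h1 h2, h.lg_dl hu]

lemma lg_pc {u : W.Point} (hu : u ∉ AL) (a : A) : lg (pc (pt a)) =
    GG pt (a + a) - (4 : ℚ) • GG pt a := by
  have e := h.lg_dl hu a a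
  have : dl (pt a) (pt a) = pc (pt a) := by unfold dl; rw [if_pos (Or.inl rfl)]
  rw [this, sub_self, h.GG_zero] at e
  rw [e]
  module

lemma ps_ne' {a : A} (ha : a ≠ -a) : ps (pt a) ≠ 0 := ps_ne (h.pt_ne_neg ha)

lemma lg_ps {u : W.Point} (hu : u ∉ AL) {a : A} (ha : a ≠ -a) : lg (ps (pt a)) =
    GG pt (a + a) - (4 : ℚ) • GG pt a := by
  rw [← h.lg_pc hu a]
  congr 1
  unfold pc
  rw [if_neg]
  intro h0
  exact h.pt_ne_neg ha (eq_neg_of_add_eq_zero_left h0)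

/-- **a generic point and two points of the group** -/
theorem lg_dtw {w : W.Point} (hw : w ∉ AL) {b c : A} (hbc : b ≠ c) :
    dt w (pt b) (pt c) ≠ 0 ∧ lg (dt w (pt b) (pt c)) =
      gg pt (w + pt b + pt c) + gg pt (w - pt b) + gg pt (w - pt c) + GG pt (b - c) -
        (3 : ℚ) • gg pt w - (3 : ℚ) • GG pt b - (3 : ℚ) • GG pt c := by
  have hw0 := h.ne_zero hw
  have inf : ∀ b : A, b ≠ 0 → dt w (pt b) 0 ≠ 0 ∧ lg (dt w (pt b) 0) =
      gg pt (w + pt b) + gg pt (w - pt b) - (2 : ℚ) • gg pt w - (2 : ℚ) • GG pt b := by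
    intro b hb
    rw [dt_inf hw0 (h.pt_ne hb), lgneg, h.lg_dx hw b]
    exact ⟨neg_ne_zero.mpr (h.dx_ne hw b), rfl⟩
  by_cases hc : c = 0
  · subst hc
    obtain ⟨e1, e2⟩ := inf b hbc
    rw [map_zero]
    refine ⟨e1, ?_⟩
    rw [e2, add_zero, sub_zero, sub_zero, h.GG_zero]
    module
  by_cases hb : b = 0
  · subst hb
    obtain ⟨e1, e2⟩ := inf c hc
    rw [map_zero, dt_s23, lgneg]
    refine ⟨neg_ne_zero.mpr e1, ?_⟩
    rw [e2, add_zero, sub_zero, zero_sub, h.GG_neg, h.GG_zero]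
    module
  have hbc1 := h.dx_ne hw b
  have hbc2 := h.dx_ne hw c
  by_cases hv : c = -b
  · subst hv
    rw [map_neg, dt_vert hw0 (h.pt_ne hb), lgmul hbc1 (h.ps_ne' hbc), h.lg_dx hw b,
      h.lg_ps hw hbc, h.GG_neg]
    refine ⟨mul_ne_zero hbc1 (h.ps_ne' hbc), ?_⟩
    have e1 : w + pt b + -pt b = w := by abel
    have e2 : w - -pt b = w + pt b := by abel
    have e3 : b - -b = b + b := by abel
    rw [e1, e2, e3]
    module
  · have hv' : b ≠ -c := fun e => hv (by rw [e, neg_neg])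
    have n3 := h.dxc_ne hbc hv'
    have n4 : dx (pt c) (w - pt b) ≠ 0 := by
      rw [K4M.dx_comm']; exact neg_ne_zero.mpr (h.dx_ne (h.sub_nmem hw b) c)
    have n5 : dx (pt b) (w + pt c) ≠ 0 := by
      rw [K4M.dx_comm']; exact neg_ne_zero.mpr (h.dx_ne (h.add_nmem hw c) b)
    have n6 : dx w (pt b + pt c) ≠ 0 := by
      rw [← map_add]; exact h.dx_ne hw (b + c)
    obtain ⟨e1, e2⟩ := lg_dt_gen hw0 (h.pt_ne hb) (h.pt_ne hc) hbc1 hbc2 n3 n4 n5 n6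
    refine ⟨e1, ?_⟩
    rw [lg_dx_comm (w + pt c) (pt b), lg_dx_comm (w - pt b) (pt c), ← map_add,
      h.lg_dx (h.add_nmem hw c) b, h.lg_dx (h.sub_nmem hw b) c, h.lg_dx hw (b + c),
      h.lg_dx hw c, h.lg_dxc hw hbc hv', map_add] at e2
    have a1 : w + pt c + pt b = w + pt b + pt c := by abel
    have a2 : w + pt c - pt b = w - pt b + pt c := by abel
    have a3 : w + (pt b + pt c) = w + pt b + pt c := by abel
    have a4 : w - (pt b + pt c) = w - pt b - pt c := by abel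
    rw [a1, a2, a3, a4] at e2
    linear_combination (norm := module) (1 / 2 : ℚ) • e2

/-- three points of the group -/
theorem lg_dtc {u : W.Point} (hu : u ∉ AL) {a b c : A} (ha : a ≠ 0) (hb : b ≠ 0) (hc : c ≠ 0)
    (h1 : a ≠ b) (h2 : a ≠ -b) (h3 : a ≠ c) (h4 : a ≠ -c) (h5 : b ≠ c) (h6 : b ≠ -c)
    (h7 : c ≠ a - b) (h8 : c ≠ -(a - b)) (h9 : a + b + c ≠ 0) :
    dt (pt a) (pt b) (pt c) ≠ 0 ∧ lg (dt (pt a) (pt b) (pt c)) =
      GG pt (a + b + c) + GG pt (a - b) + GG pt (a - c) + GG pt (b - c) -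
        (3 : ℚ) • GG pt a - (3 : ℚ) • GG pt b - (3 : ℚ) • GG pt c := by
  have k1 : b ≠ a + c := fun e => h8 (by rw [e]; abel)
  have k2 : b ≠ -(a + c) := fun e => h9 (by rw [e]; abel)
  have k3 : a ≠ b + c := fun e => h7 (by rw [e]; abel)
  have k4 : a ≠ -(b + c) := fun e => h9 (by rw [e]; abel)
  have n4 := h.dxc_ne h7 h8
  have n5 := h.dxc_ne k1 k2
  have n6 := h.dxc_ne k3 k4
  rw [map_sub] at n4
  rw [map_add] at n5 n6
  obtain ⟨e1, e2⟩ := lg_dt_gen (h.pt_ne ha) (h.pt_ne hb) (h.pt_ne hc) (h.dxc_ne h1 h2)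
    (h.dxc_ne h3 h4) (h.dxc_ne h5 h6) n4 n5 n6
  refine ⟨e1, ?_⟩
  rw [← map_add, ← map_add, ← map_sub, h.lg_dxc hu h3 h4, h.lg_dxc hu h5 h6, h.lg_dxc hu k1 k2,
    h.lg_dxc hu k3 k4, h.lg_dxc hu h7 h8] at e2
  have a1 : b + (a + c) = a + b + c := by abel
  have a2 : a + (b + c) = a + b + c := by abel
  have a3 : b - (a + c) = -(c + (a - b)) := by abel
  have a4 : a - (b + c) = -(c - (a - b)) := by abel
  rw [a1, a2, a3, a4, h.GG_neg, h.GG_neg] at e2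
  linear_combination (norm := module) (1 / 2 : ℚ) • e2

end Ctx

end

end Pool.Agent.GK
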