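import Pool.Agent.Lib_helper40.GK.GE4

/-!
# The classes of the brackets of the pencils of lines
-/

set_option autoImplicit false
set_option linter.unusedSectionVars false

namespace Pool.Agent.GK

open WeierstrassCurve.Affine
open K4M (dx dt ps pc)
open MK4 (FT lg)
open Pool.Agent.TN (lgmul lgdiv lgpow lgneg lg1 lgz)

section

variable {K : Type*} [Field K] [DecidableEq K] {W : WeierstrassCurve.Affine K}

/-- reflection -/
lemma vv_refl {T p : W.Point} (hp : p ≠ 0) (hp2 : p ≠ -T) : vv T (-T - p) = vv T p := by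
  have hq : -T - p ≠ 0 := fun h => hp2 (sub_eq_zero.mp h).symm
  have hq2 : -T - p ≠ -T := fun h => hp (by rwa [sub_eq_self] at h)
  obtain ⟨l, e1⟩ := vv_gen hp hp2
  obtain ⟨l', e2⟩ := vv_gen hq hq2
  have e := bk_third (T := T) (p := p)
  unfold bk at e
  rw [e1, e2] at e
  rw [e1, e2]
  congr 1
  linear_combination e

variable {A : Type*} [AddCommGroup A] [Fintype A] [DecidableEq A] [Nonempty A]

/-- the class of a bracket of the pencil `S` -/
noncomputable def LB (pt : A →+ W.Point) (S p q : A) : FT K :=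
  GG pt (p + q - S) + GG pt (p - q) - GG pt p - GG pt (p - S) - GG pt q - GG pt (q - S) + GG pt S

namespace Ctx

variable {pt : A →+ W.Point} {AL : AddSubgroup W.Point} (h : Ctx pt AL)

include h

lemma LB_sw (S p q : A) : LB pt S q p = LB pt S p q := by
  unfold LB
  have e1 : q + p - S = p + q - S := by abel
  have e2 : q - p = -(p - q) := by abel
  rw [e1, e2, h.GG_neg]
  abel

lemma LB_refl (S p q : A) : LB pt S p (S - q) = LB pt S p q := by
  unfold LB
  have e1 : p + (S - q) - S = p - q := by abel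
  have e2 : p - (S - q) = p + q - S := by abel
  have e3 : S - q - S = -q := by abel
  have e4 : S - q = -(q - S) := by abel
  rw [e1, e2, e3, e4, h.GG_neg, h.GG_neg]
  abel

lemma LB_zero (S p : A) : LB pt S p 0 = 0 := by
  unfold LB
  have e1 : p + 0 - S = p - S := by abel
  have e2 : p - 0 = p := by abel
  have e3 : 0 - S = -S := by abel
  rw [e1, e2, e3, h.GG_neg, h.GG_zero]
  abel

lemma LB_S (S p : A) : LB pt S p S = 0 := by
  have := h.LB_refl S p 0
  rw [sub_zero] at this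
  rw [this, h.LB_zero]

/-- **the bracket of a generic point and a point of the group** -/
theorem lg_bkz {z : W.Point} (hz : z ∉ AL) (S p : A) :
    bk (-pt S) z (pt p) ≠ 0 ∧ lg (bk (-pt S) z (pt p)) =
      gg pt (z + pt p - pt S) + gg pt (z - pt p) - gg pt z - gg pt (z - pt S) -
        GG pt p - GG pt (p - S) + GG pt S := by
  have hz0 := h.ne_zero hz
  by_cases hS : S = 0
  · subst hS
    rw [map_zero, neg_zero, bk_zero, lgneg, h.lg_dx hz p, sub_zero, sub_zero, sub_zero, h.GG_zero]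
    refine ⟨neg_ne_zero.mpr (h.dx_ne hz p), ?_⟩
    module
  have hzT : z ≠ - -pt S := by rw [neg_neg]; exact h.ne hz S
  by_cases hp : p = 0
  · subst hp
    rw [map_zero, bk_inf hz0 hzT, lg1, add_zero, sub_zero, zero_sub, h.GG_neg, h.GG_zero]
    refine ⟨one_ne_zero, ?_⟩
    abel
  by_cases hpS : p = S
  · subst hpS
    have e : bk (-pt p) z (pt p) = 1 := by
      have := bk_neg hz0 hzT
      rwa [neg_neg] at this
    rw [e, lg1, sub_self, h.GG_zero]
    refine ⟨one_ne_zero, ?_⟩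
    have e1 : z + pt p - pt p = z := by abel
    rw [e1]
    abel
  have hT0 : -pt S ≠ 0 := neg_ne_zero.mpr (h.pt_ne hS)
  have zT : z ≠ -pt S := h.ne' hz S
  have dzT : dx z (-pt S) ≠ 0 := by rw [K4M.dx_neg_right]; exact h.dx_ne hz S
  by_cases hpT : p = -S
  · subst hpT
    have hTT : S ≠ -S := fun e => hpS e.symm
    have hTT' : -pt S ≠ - -pt S := by
      rw [neg_neg]
      intro e
      exact h.pt_ne_neg hTT e.symm
    have e := bk_tan hT0 hTT' hz0 zT hzT
    have hps : ps (-pt S) ≠ 0 := ps_ne hTT'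
    have d2 : dx (z + -pt S) (-pt S) ≠ 0 := by
      rw [K4M.dx_neg_right, ← sub_eq_add_neg]; exact h.dx_ne (h.sub_nmem hz S) S
    have hb : bk (-pt S) z (-pt S) ≠ 0 := by
      intro h0
      rw [h0, zero_mul] at e
      exact mul_ne_zero dzT d2 e.symm
    rw [map_neg]
    refine ⟨hb, ?_⟩
    have e' := congrArg lg e
    rw [lgmul hb hps, lgmul dzT d2, K4M.dx_neg_right, K4M.dx_neg_right, ← sub_eq_add_neg,
      h.lg_dx hz S, h.lg_dx (h.sub_nmem hz S) S] at e'
    have hps' : lg (ps (-pt S)) = GG pt (S + S) - (4 : ℚ) • GG pt S := by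
      rw [← map_neg]
      have e1 : -S ≠ - -S := by rw [neg_neg]; exact hTT.symm
      rw [h.lg_ps hz e1, h.GG_neg]
      have e2 : -S + -S = -(S + S) := by abel
      rw [e2, h.GG_neg]
    rw [hps'] at e'
    have a1 : z - pt S + pt S = z := by abel
    have a2 : z + -pt S - pt S = z - pt S - pt S := by abel
    have a3 : z - -pt S = z + pt S := by abel
    have a4 : -S - S = -(S + S) := by abel
    rw [a1] at e'
    rw [a2, a3, a4, h.GG_neg, h.GG_neg]
    linear_combination (norm := module) e'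
  · have hp0 := h.pt_ne hp
    have hp1 : pt p ≠ -pt S := h.pt_ne_neg hpT
    have hp2 : pt p ≠ - -pt S := by rw [neg_neg]; exact h.pt_ne' hpS
    have e := bk_chord hT0 hz0 hp0 zT hzT hp1 hp2
    obtain ⟨f1, f2⟩ := h.lg_dtw hz (b := p) (c := -S) hpT
    rw [map_neg] at f1 f2
    have f3 : dt (-pt S) z (pt p) = dt z (pt p) (-pt S) := (dt_cyc (-pt S) z (pt p)).symm
    rw [f3] at e
    have dpT : dx (pt p) (-pt S) ≠ 0 := K4M.dx_ne hp1 hp2
    have hb : bk (-pt S) z (pt p) ≠ 0 := by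
      intro h0
      rw [h0, zero_mul] at e
      exact f1 e.symm
    refine ⟨hb, ?_⟩
    have e' := congrArg lg e
    rw [lgmul hb (mul_ne_zero dzT dpT), lgmul dzT dpT, f2, K4M.dx_neg_right, K4M.dx_neg_right,
      h.lg_dx hz S, h.lg_dxc hz hpS hpT, h.GG_neg] at e'
    have a1 : z + pt p + -pt S = z + pt p - pt S := by abel
    have a2 : z - -pt S = z + pt S := by abel
    have a3 : p - -S = p + S := by abel
    rw [a1, a2, a3] at e'
    linear_combination (norm := module) e'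

lemma bk_sw_ne {T u v : W.Point} (hb : bk T v u ≠ 0) : bk T u v ≠ 0 := by
  rw [bk_anti]; exact neg_ne_zero.mpr hb

omit h in
lemma lg_bk_sw (T u v : W.Point) : lg (bk T u v) = lg (bk T v u) := by
  rw [bk_anti, lgneg]

/-- two opposite points -/
lemma lg_bk_opp {u : W.Point} (hu : u ∉ AL) {S p : A} (hS : S ≠ 0) (hp : p ≠ 0) (hpS : p ≠ S)
    (hpT : p ≠ -S) (hpp : p ≠ -p) : bk (-pt S) (pt p) (pt (-p)) ≠ 0 ∧
      lg (bk (-pt S) (pt p) (pt (-p))) = LB pt S p (-p) := by
  have hT0 : -pt S ≠ 0 := neg_ne_zero.mpr (h.pt_ne hS)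
  have hp0 := h.pt_ne hp
  have hp1 : pt p ≠ -pt S := h.pt_ne_neg hpT
  have hp2 : pt p ≠ - -pt S := by rw [neg_neg]; exact h.pt_ne' hpS
  have hq1 : -pt p ≠ -pt S := fun e => h.pt_ne' hpS (neg_inj.mp e)
  have hq2 : -pt p ≠ - -pt S := fun e => hp1 (by rw [← neg_neg (pt p), e, neg_neg])
  have e := bk_chord hT0 hp0 (neg_ne_zero.mpr hp0) hp1 hp2 hq1 hq2
  rw [dt_vert hT0 hp0, K4M.dx_neg_left (pt p), K4M.dx_neg_left (pt S)] at e
  have dpT : dx (pt p) (-pt S) ≠ 0 := K4M.dx_ne hp1 hp2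
  have dTp : dx (pt S) (pt p) ≠ 0 := by
    rw [K4M.dx_comm', ← K4M.dx_neg_right]; exact neg_ne_zero.mpr dpT
  have hps := h.ps_ne' hpp
  rw [map_neg]
  have hb : bk (-pt S) (pt p) (-pt p) ≠ 0 := by
    intro h0
    rw [h0, zero_mul] at e
    exact mul_ne_zero dTp hps e.symm
  refine ⟨hb, ?_⟩
  have e' := congrArg lg e
  rw [lgmul hb (mul_ne_zero dpT dpT), lgmul dpT dpT, lgmul dTp hps, K4M.dx_neg_right,
    lg_dx_comm (pt p) (pt S), h.lg_dxc hu hpS hpT, h.lg_ps hu hpp] at e'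
  unfold LB
  have a1 : p + -p - S = -S := by abel
  have a2 : p - -p = p + p := by abel
  have a3 : -p - S = -(p + S) := by abel
  rw [a1, a2, a3, h.GG_neg, h.GG_neg, h.GG_neg]
  linear_combination (norm := module) e'

/-- the bracket with the centre of the pencil -/
lemma lg_bk_T {u : W.Point} (hu : u ∉ AL) {S p : A} (hS : S ≠ -S) (hp : p ≠ 0) (hpS : p ≠ S)
    (hpT : p ≠ -S) (hp2 : p + -S ≠ S) : bk (-pt S) (pt p) (-pt S) ≠ 0 ∧
      lg (bk (-pt S) (pt p) (-pt S)) = LB pt S p (-S) := by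
  have hS0 : S ≠ 0 := fun e => hS (by rw [e, neg_zero])
  have hT0 : -pt S ≠ 0 := neg_ne_zero.mpr (h.pt_ne hS0)
  have hTT' : -pt S ≠ - -pt S := by
    rw [neg_neg]
    intro e
    exact h.pt_ne_neg hS e.symm
  have hp0 := h.pt_ne hp
  have hp1 : pt p ≠ -pt S := h.pt_ne_neg hpT
  have hp2' : pt p ≠ - -pt S := by rw [neg_neg]; exact h.pt_ne' hpS
  have e := bk_tan hT0 hTT' hp0 hp1 hp2'
  have hps : ps (-pt S) ≠ 0 := ps_ne hTT'
  have d1 : dx (pt p) (-pt S) ≠ 0 := K4M.dx_ne hp1 hp2'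
  have a0 : p + -S ≠ -S := fun e => hp (by rwa [add_eq_right] at e)
  have d2 : dx (pt p + -pt S) (-pt S) ≠ 0 := by
    rw [← map_neg, ← map_add]
    apply h.dxc_ne a0
    rw [neg_neg]; exact hp2
  have hb : bk (-pt S) (pt p) (-pt S) ≠ 0 := by
    intro h0
    rw [h0, zero_mul] at e
    exact mul_ne_zero d1 d2 e.symm
  refine ⟨hb, ?_⟩
  have e' := congrArg lg e
  have hps' : lg (ps (-pt S)) = GG pt (S + S) - (4 : ℚ) • GG pt S := by
    rw [← map_neg]
    have e1 : -S ≠ - -S := by rw [neg_neg]; exact hS.symm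
    rw [h.lg_ps hu e1, h.GG_neg]
    have e2 : -S + -S = -(S + S) := by abel
    rw [e2, h.GG_neg]
  have hd1 : lg (dx (pt p) (-pt S)) = GG pt (p + S) + GG pt (p - S) - (2 : ℚ) • GG pt p -
      (2 : ℚ) • GG pt S := by
    rw [K4M.dx_neg_right, h.lg_dxc hu hpS hpT]
  have hd2 : lg (dx (pt p + -pt S) (-pt S)) = GG pt (p - S - S) + GG pt p -
      (2 : ℚ) • GG pt (p - S) - (2 : ℚ) • GG pt S := by
    rw [← map_neg, ← map_add, h.lg_dxc hu a0 (by rw [neg_neg]; exact hp2), h.GG_neg]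
    have a1 : p + -S + -S = p - S - S := by abel
    have a2 : p + -S - -S = p := by abel
    have a3 : p + -S = p - S := by abel
    rw [a1, a2, a3]
  rw [lgmul hb hps, lgmul d1 d2, hps', hd1, hd2] at e'
  unfold LB
  have a1 : p + -S - S = p - S - S := by abel
  have a2 : p - -S = p + S := by abel
  have a3 : -S - S = -(S + S) := by abel
  rw [a1, a2, a3, h.GG_neg, h.GG_neg]
  linear_combination (norm := module) e'

/-- **the bracket of two points of the group** -/
theorem lg_bk {u : W.Point} (hu : u ∉ AL) {S p q : A} (h1 : p ≠ q) (h2 : p ≠ S - q) :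
    bk (-pt S) (pt p) (pt q) ≠ 0 ∧ lg (bk (-pt S) (pt p) (pt q)) = LB pt S p q := by
  have h2' : q ≠ S - p := fun e => h2 (by rw [e]; abel)
  by_cases hS : S = 0
  · subst hS
    have h2'' : p ≠ -q := by rwa [zero_sub] at h2
    rw [map_zero, neg_zero, bk_zero, lgneg, h.lg_dxc hu h1 h2'']
    refine ⟨neg_ne_zero.mpr (h.dxc_ne h1 h2''), ?_⟩
    unfold LB
    rw [sub_zero, sub_zero, sub_zero, h.GG_zero]
    module
  -- the points at infinity of the pencil
  have inf0 : ∀ p : A, p ≠ 0 → p ≠ S → bk (-pt S) (pt p) (pt 0) = 1 := by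
    intro p hp hpS
    rw [map_zero]
    exact bk_inf (h.pt_ne hp) (by rw [neg_neg]; exact h.pt_ne' hpS)
  have infS : ∀ p : A, p ≠ 0 → p ≠ S → bk (-pt S) (pt p) (pt S) = 1 := by
    intro p hp hpS
    have := bk_neg (T := -pt S) (h.pt_ne hp) (by rw [neg_neg]; exact h.pt_ne' hpS)
    rwa [neg_neg] at this
  by_cases hq0 : q = 0
  · subst hq0
    rw [inf0 p h1 (by rwa [sub_zero] at h2), lg1, h.LB_zero]
    exact ⟨one_ne_zero, rfl⟩
  by_cases hqS : q = S
  · subst hqS
    rw [infS p (by rwa [sub_self] at h2) h1, lg1, h.LB_S]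
    exact ⟨one_ne_zero, rfl⟩
  by_cases hp0 : p = 0
  · subst hp0
    rw [bk_anti, lgneg, inf0 q hq0 hqS, lg1, h.LB_sw, h.LB_zero]
    exact ⟨neg_ne_zero.mpr one_ne_zero, rfl⟩
  by_cases hpS : p = S
  · subst hpS
    rw [bk_anti, lgneg, infS q hq0 hqS, lg1, h.LB_sw, h.LB_S]
    exact ⟨neg_ne_zero.mpr one_ne_zero, rfl⟩
  -- the centre of the pencil
  by_cases hqT : q = -S
  · subst hqT
    have := h.lg_bk_T hu (S := S) (p := p) (fun e => hqS e.symm) hp0 hpS h1 (fun e => h2 (by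
      rw [eq_sub_iff_add_eq]; exact e))
    rwa [map_neg]
  by_cases hpT : p = -S
  · subst hpT
    have := h.lg_bk_T hu (S := S) (p := q) (fun e => hpS e.symm) hq0 hqS hqT (fun e => h2' (by
      rw [eq_sub_iff_add_eq]; exact e))
    rw [map_neg]
    refine ⟨h.bk_sw_ne this.1, ?_⟩
    rw [lg_bk_sw, this.2, h.LB_sw]
  -- opposite points
  by_cases hqp : q = -p
  · subst hqp
    exact h.lg_bk_opp hu hS hp0 hpS hpT h1
  have reflq : vv (-pt S) (pt (S - q)) = vv (-pt S) (pt q) := by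
    have := vv_refl (T := -pt S) (p := pt q) (h.pt_ne hq0) (by rw [neg_neg]; exact h.pt_ne' hqS)
    rwa [neg_neg, ← map_sub] at this
  have reflp : vv (-pt S) (pt (S - p)) = vv (-pt S) (pt p) := by
    have := vv_refl (T := -pt S) (p := pt p) (h.pt_ne hp0) (by rw [neg_neg]; exact h.pt_ne' hpS)
    rwa [neg_neg, ← map_sub] at this
  by_cases hd1 : q = p + S
  · -- `S - q = -p`
    have e0 : S - q = -p := by rw [hd1]; abel
    have e1 : bk (-pt S) (pt p) (pt q) = bk (-pt S) (pt p) (pt (-p)) := by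
      rw [← e0]; unfold bk; rw [reflq]
    have hpp : p ≠ -p := fun e => h2 (by rw [e0]; exact e)
    obtain ⟨f1, f2⟩ := h.lg_bk_opp hu hS hp0 hpS hpT hpp
    rw [e1, ← h.LB_refl, e0]
    exact ⟨f1, f2⟩
  by_cases hd2 : p = q + S
  · have e0 : S - p = -q := by rw [hd2]; abel
    have e1 : bk (-pt S) (pt p) (pt q) = - bk (-pt S) (pt q) (pt (-q)) := by
      rw [← e0, ← bk_anti]; unfold bk; rw [reflp]
    have hqq : q ≠ -q := fun e => h2' (by rw [e0]; exact e)
    obtain ⟨f1, f2⟩ := h.lg_bk_opp hu hS hq0 hqS hqT hqq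
    rw [e1, lgneg, ← h.LB_sw, ← h.LB_refl, e0]
    exact ⟨neg_ne_zero.mpr f1, f2⟩
  -- the general case
  have hT0 : -pt S ≠ 0 := neg_ne_zero.mpr (h.pt_ne hS)
  have hp1 : pt p ≠ -pt S := h.pt_ne_neg hpT
  have hp2 : pt p ≠ - -pt S := by rw [neg_neg]; exact h.pt_ne' hpS
  have hq1 : pt q ≠ -pt S := h.pt_ne_neg hqT
  have hq2 : pt q ≠ - -pt S := by rw [neg_neg]; exact h.pt_ne' hqS
  have e := bk_chord hT0 (h.pt_ne hp0) (h.pt_ne hq0) hp1 hp2 hq1 hq2
  have f3 : dt (-pt S) (pt p) (pt q) = dt (pt p) (pt q) (-pt S) :=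
    (dt_cyc (-pt S) (pt p) (pt q)).symm
  obtain ⟨f1, f2⟩ := h.lg_dtc hu (a := p) (b := q) (c := -S) hp0 hq0 (neg_ne_zero.mpr hS) h1
    (fun e => hqp (by rw [e, neg_neg])) hpT (by rwa [neg_neg]) hqT (by rwa [neg_neg])
    (fun e => hd1 (by
      have e0 : q = p - -S := by rw [e]; abel
      rw [e0]; abel))
    (fun e => hd2 (by
      have e0 : S = p - q := neg_inj.mp e
      rw [e0]; abel))
    (fun e => h2 (by
      have e0 : p = -(q + -S) := eq_neg_of_add_eq_zero_left (by rw [← e]; abel)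
      rw [e0]; abel))
  rw [map_neg] at f1 f2
  rw [f3] at e
  have d1 : dx (pt p) (-pt S) ≠ 0 := K4M.dx_ne hp1 hp2
  have d2 : dx (pt q) (-pt S) ≠ 0 := K4M.dx_ne hq1 hq2
  have hb : bk (-pt S) (pt p) (pt q) ≠ 0 := by
    intro h0
    rw [h0, zero_mul] at e
    exact f1 e.symm
  refine ⟨hb, ?_⟩
  have e' := congrArg lg e
  rw [lgmul hb (mul_ne_zero d1 d2), lgmul d1 d2, f2, K4M.dx_neg_right, K4M.dx_neg_right,
    h.lg_dxc hu hpS hpT, h.lg_dxc hu hqS hqT, h.GG_neg] at e'
  unfold LB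
  have a1 : p + q + -S = p + q - S := by abel
  have a2 : p - -S = p + S := by abel
  have a3 : q - -S = q + S := by abel
  rw [a1, a2, a3] at e'
  linear_combination (norm := module) e'

/-- the zeros -/
lemma bk_zero_iff {u : W.Point} (hu : u ∉ AL) (S p q : A) :
    bk (-pt S) (pt p) (pt q) = 0 ↔ p = q ∨ p = S - q := by
  constructor
  · intro e
    by_contra hh
    push Not at hh
    exact (h.lg_bk hu hh.1 hh.2).1 e
  · rintro (rfl | rfl)
    · exact bk_self _ _
    · have := bk_third (T := -pt S) (p := pt q)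
      rw [neg_neg, ← map_sub] at this
      rw [bk_anti, this, neg_zero]

end Ctx

end

end Pool.Agent.GK
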