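import Pool.Agent.Lib_helper40.GK.S6
import Pool.Agent.Lib_helper60.K4M.Crs

/-!
# Systems of brackets
-/

set_option autoImplicit false
set_option linter.unusedSectionVars false

open scoped TensorProduct

namespace Pool.Agent.GK

open MK4 Pool.Agent.TN
open K4M (Bracket NBracket)

section

variable {k : Type*} [Field k] {F : Type*} [Field F] [Algebra k F]
variable {A : Type*} [AddCommGroup A] [Fintype A] [DecidableEq A] [Nonempty A]

/-- two elements with the same classes, with the same classes of `1 - f` -/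
lemma eq_of_lg {f g : F} (f0 : f ≠ 0) (g0 : g ≠ 0) (f1 : 1 - f ≠ 0) (g1 : 1 - g ≠ 0)
    (h0 : lg f = lg g) (h1 : lg (1 - f) = lg (1 - g)) (htr : Transcendental k g) : f = g := by
  obtain ⟨n, hn, e0⟩ := pow_eq_one_of_lg (div_ne_zero f0 g0) (by rw [lgdiv f0 g0, h0, sub_self])
  obtain ⟨m, hm, e1⟩ := pow_eq_one_of_lg (div_ne_zero f1 g1) (by rw [lgdiv f1 g1, h1, sub_self])
  set ζ := f / g with hζ
  set η := (1 - f) / (1 - g) with hη
  have ef : f = ζ * g := by rw [hζ, div_mul_cancel₀ _ g0]
  have eg : 1 - f = η * (1 - g) := by rw [hη, div_mul_cancel₀ _ g1]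
  have aζ : IsAlgebraic k ζ := by
    apply IsIntegral.isAlgebraic
    refine IsIntegral.of_pow hn ?_
    rw [e0]; exact isIntegral_one
  have aη : IsAlgebraic k η := by
    apply IsIntegral.isAlgebraic
    refine IsIntegral.of_pow hm ?_
    rw [e1]; exact isIntegral_one
  by_cases hd : η = ζ
  · have : η = 1 := by
      rw [ef, ← hd] at eg
      linear_combination -eg
    rw [ef, ← hd, this, one_mul]
  · exfalso
    apply htr
    have hd' : η - ζ ≠ 0 := sub_ne_zero.mpr hd
    have : g = (η - 1) / (η - ζ) := by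
      rw [eq_div_iff hd']
      rw [ef] at eg
      linear_combination eg
    rw [this, div_eq_mul_inv]
    exact (aη.sub isAlgebraic_one).mul (aη.sub aζ).inv

variable (k) in
/-- the brackets of a generic point and of the points of the group -/
structure Sys (D : A → Option A → Option A → F) (E : A → A → A → F) (θ G : A → FT F)
    (h1 : A → A → FT F) (h2 : A → FT F) (h3 : A → A → FT F) : Prop where
  nD : ∀ S, NBracket (D S)
  nE : ∀ s, NBracket (E s)
  const : ∀ S p q, ∃ d : k, D S (some p) (some q) = algebraMap k F d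
  zero : ∀ S p q, D S (some p) (some q) = 0 ↔ p = q ∨ p = S - q
  zne : ∀ S p, D S none (some p) ≠ 0
  Ene : ∀ s a b, a ≠ b → E s a b ≠ 0
  Gev : ∀ a, G (-a) = G a
  GV : ∀ a, G a ∈ V0 k F
  ths : ∑ a, θ a = 0
  tr : ∀ S p q r, Nd S p q r → Transcendental k
    (D S none (some p) * D S (some q) (some r) / (D S none (some q) * D S (some p) (some r)))
  lgz : ∀ S p, lg (D S none (some p)) = θ p + θ (S - p) + h1 S p + h2 S
  lgD : ∀ S p q, p ≠ q → p ≠ S - q → lg (D S (some p) (some q)) =
    G (p - q) + G (S - p - q) + h1 S p + h1 S q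
  lgE : ∀ s a b, a ≠ b → lg (E s a b) = θ (a + b - s) + G (a - b) + h3 s a + h3 s b

/-- the cross ratios -/
def lamD (D : A → Option A → Option A → F) (S p q r : A) : F :=
  D S none (some p) * D S (some q) (some r) / (D S none (some q) * D S (some p) (some r))

namespace Sys

variable {D : A → Option A → Option A → F} {E : A → A → A → F} {θ G : A → FT F}
  {h1 : A → A → FT F} {h2 : A → FT F} {h3 : A → A → FT F} (h : Sys k D E θ G h1 h2 h3)

include h

lemma Dne {S p q : A} (h1 : p ≠ q) (h2 : p ≠ S - q) : D S (some p) (some q) ≠ 0 := by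
  intro h0
  rcases (h.zero S p q).mp h0 with e | e
  · exact h1 e
  · exact h2 e

lemma one_sub {S p q r : A} (hn : Nd S p q r) : 1 - lamD D S p q r =
    D S none (some r) * D S (some p) (some q) / (D S none (some q) * D S (some p) (some r)) := by
  obtain ⟨n1, n2, n3, n4, n5, n6⟩ := hn
  have a1 := h.zne S q
  have a2 := h.Dne n5 n6
  have pl := (h.nD S).pl none (some p) (some q) (some r)
  unfold lamD
  rw [one_sub_div (mul_ne_zero a1 a2)]
  congr 1
  linear_combination -pl

lemma lam_ne {S p q r : A} (hn : Nd S p q r) : lamD D S p q r ≠ 0 := by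
  obtain ⟨n1, n2, n3, n4, n5, n6⟩ := hn
  unfold lamD
  exact div_ne_zero (mul_ne_zero (h.zne S p) (h.Dne n3 n4)) (mul_ne_zero (h.zne S q) (h.Dne n5 n6))

lemma one_sub_ne {S p q r : A} (hn : Nd S p q r) : 1 - lamD D S p q r ≠ 0 := by
  rw [h.one_sub hn]
  obtain ⟨n1, n2, n3, n4, n5, n6⟩ := hn
  exact div_ne_zero (mul_ne_zero (h.zne S r) (h.Dne n1 n2)) (mul_ne_zero (h.zne S q) (h.Dne n5 n6))

lemma lg_lam {S p q r : A} (hn : Nd S p q r) : lg (lamD D S p q r) =
    θ p + θ (S - p) - θ q - θ (S - q) -
      (G (r - p) + G (r - (S - p)) - G (r - q) - G (r - (S - q))) := by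
  obtain ⟨n1, n2, n3, n4, n5, n6⟩ := hn
  unfold lamD
  rw [lgdiv (mul_ne_zero (h.zne S p) (h.Dne n3 n4)) (mul_ne_zero (h.zne S q) (h.Dne n5 n6)),
    lgmul (h.zne S p) (h.Dne n3 n4), lgmul (h.zne S q) (h.Dne n5 n6), h.lgz, h.lgz,
    h.lgD S q r n3 n4, h.lgD S p r n5 n6]
  have e1 : G (r - p) = G (p - r) := by rw [← h.Gev, neg_sub]
  have e2 : G (r - q) = G (q - r) := by rw [← h.Gev, neg_sub]
  have e3 : G (r - (S - p)) = G (S - p - r) := by rw [← h.Gev, neg_sub]
  have e4 : G (r - (S - q)) = G (S - q - r) := by rw [← h.Gev, neg_sub]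
  rw [e1, e2, e3, e4]
  abel

lemma lg_one_sub {S p q r : A} (hn : Nd S p q r) : lg (1 - lamD D S p q r) =
    θ r + θ (S - r) - θ q - θ (S - q) -
      (G (p - r) + G (p - (S - r)) - G (p - q) - G (p - (S - q))) := by
  rw [h.one_sub hn]
  obtain ⟨n1, n2, n3, n4, n5, n6⟩ := hn
  rw [lgdiv (mul_ne_zero (h.zne S r) (h.Dne n1 n2)) (mul_ne_zero (h.zne S q) (h.Dne n5 n6)),
    lgmul (h.zne S r) (h.Dne n1 n2), lgmul (h.zne S q) (h.Dne n5 n6), h.lgz, h.lgz,
    h.lgD S p q n1 n2, h.lgD S p r n5 n6]
  have e3 : G (p - (S - r)) = G (S - p - r) := by rw [← h.Gev]; congr 1; abel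
  have e4 : G (p - (S - q)) = G (S - p - q) := by rw [← h.Gev]; congr 1; abel
  rw [e3, e4]
  abel

lemma sy_deg [Infinite F] {S p q r : A} (hn : ¬ Nd S p q r) : sy (lamD D S p q r) = 0 := by
  have key : p = q ∨ p = S - q ∨ q = r ∨ q = S - r ∨ p = r ∨ p = S - r := by
    by_contra hh
    unfold Nd at hn
    push Not at hh
    exact hn hh
  have hD := (h.nD S).toBracket
  have z1 : p = q ∨ p = S - q → D S (some p) (some q) = 0 := (h.zero S p q).mpr
  have z2 : q = r ∨ q = S - r → D S (some q) (some r) = 0 := (h.zero S q r).mpr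
  have z3 : p = r ∨ p = S - r → D S (some p) (some r) = 0 := (h.zero S p r).mpr
  have c1 : D S (some p) (some q) = 0 → sy (lamD D S p q r) = 0 :=
    fun e => K4M.cr_zero_bc hD none (some p) (some q) (some r) e
  have c2 : D S (some q) (some r) = 0 → sy (lamD D S p q r) = 0 :=
    fun e => K4M.cr_zero_cd none (some p) (some q) (some r) e
  have c3 : D S (some p) (some r) = 0 → sy (lamD D S p q r) = 0 :=
    fun e => K4M.cr_zero_bd none (some p) (some q) (some r) e
  rcases key with e | e | e | e | e | e
  · exact c1 (z1 (Or.inl e))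
  · exact c1 (z1 (Or.inr e))
  · exact c2 (z2 (Or.inl e))
  · exact c2 (z2 (Or.inr e))
  · exact c3 (z3 (Or.inl e))
  · exact c3 (z3 (Or.inr e))

/-- the pencil of lines through a generic point -/
lemma cross [Infinite F] (s a b c d : A) : K4M.cr (E s) a b c d =
    sy (lamD D (a + b + c + d - (s + s)) (a + b - s) (a + c - s) (a + d - s)) := by
  set S := a + b + c + d - (s + s) with hS
  have hE := (h.nE s).toBracket
  have hE0 : ∀ a, E s a a = 0 := fun a => hE.self a
  have ab : a + b - s = a + c - s ↔ b = c := by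
    constructor
    · intro e
      have e0 : a + b - s + s - a = a + c - s + s - a := by rw [e]
      have e1 : a + b - s + s - a = b := by abel
      have e2 : a + c - s + s - a = c := by abel
      rwa [e1, e2] at e0
    · rintro rfl; rfl
  have ab' : ∀ b d, a + b - s = a + d - s ↔ b = d := by
    intro b d
    constructor
    · intro e
      have e0 : a + b - s + s - a = a + d - s + s - a := by rw [e]
      have e1 : a + b - s + s - a = b := by abel
      have e2 : a + d - s + s - a = d := by abel
      rwa [e1, e2] at e0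
    · rintro rfl; rfl
  have r1 : ∀ x y : A, x - s = y - s ↔ x = y := fun x y => sub_left_inj
  have s1 : S - (a + c - s) = b + d - s := by rw [hS]; abel
  have s2 : S - (a + d - s) = b + c - s := by rw [hS]; abel
  have s3 : S - (a + b - s) = c + d - s := by rw [hS]; abel
  have hNd : Nd S (a + b - s) (a + c - s) (a + d - s) ↔
      b ≠ c ∧ a ≠ d ∧ c ≠ d ∧ a ≠ b ∧ b ≠ d ∧ a ≠ c := by
    unfold Nd
    rw [s1, s2]
    have t1 : a + b - s = b + d - s ↔ a = d := by
      rw [r1, add_comm b d, add_left_inj]
    have t2 : a + c - s = b + c - s ↔ a = b := by rw [r1, add_left_inj]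
    have t3 : a + b - s = b + c - s ↔ a = c := by
      rw [r1, add_comm b c, add_left_inj]
    rw [Ne, Ne, Ne, Ne, Ne, Ne, ab' b c, t1, ab' c d, t2, ab' b d, t3]
  by_cases hn : Nd S (a + b - s) (a + c - s) (a + d - s)
  · obtain ⟨bc, ad, cd, ab0, bd, ac⟩ := hNd.mp hn
    have e1 := h.Ene s a b ab0
    have e2 := h.Ene s c d cd
    have e3 := h.Ene s a c ac
    have e4 := h.Ene s b d bd
    have e5 := h.Ene s a d ad
    have e6 := h.Ene s b c bc
    have pl := hE.pl a b c d
    show sy (E s a b * E s c d / (E s a c * E s b d)) = _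
    have hf1 : 1 - E s a b * E s c d / (E s a c * E s b d) =
        E s a d * E s b c / (E s a c * E s b d) := by
      rw [one_sub_div (mul_ne_zero e3 e4)]
      congr 1
      linear_combination -pl
    congr 1
    apply eq_of_lg (k := k)
    · exact div_ne_zero (mul_ne_zero e1 e2) (mul_ne_zero e3 e4)
    · exact h.lam_ne hn
    · rw [hf1]; exact div_ne_zero (mul_ne_zero e5 e6) (mul_ne_zero e3 e4)
    · exact h.one_sub_ne hn
    · rw [h.lg_lam hn, lgdiv (mul_ne_zero e1 e2) (mul_ne_zero e3 e4), lgmul e1 e2, lgmul e3 e4,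
        h.lgE s a b ab0, h.lgE s c d cd, h.lgE s a c ac, h.lgE s b d bd, s1, s3]
      have g1 : a + d - s - (a + b - s) = -(b - d) := by abel
      have g2 : a + d - s - (c + d - s) = a - c := by abel
      have g3 : a + d - s - (a + c - s) = -(c - d) := by abel
      have g4 : a + d - s - (b + d - s) = a - b := by abel
      rw [g1, g2, g3, g4, h.Gev, h.Gev]
      abel
    · rw [h.lg_one_sub hn, hf1, lgdiv (mul_ne_zero e5 e6) (mul_ne_zero e3 e4), lgmul e5 e6,
        lgmul e3 e4, h.lgE s a d ad, h.lgE s b c bc, h.lgE s a c ac, h.lgE s b d bd, s1, s2]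
      have g1 : a + b - s - (a + d - s) = b - d := by abel
      have g2 : a + b - s - (b + c - s) = a - c := by abel
      have g3 : a + b - s - (a + c - s) = b - c := by abel
      have g4 : a + b - s - (b + d - s) = a - d := by abel
      rw [g1, g2, g3, g4]
      abel
    · exact h.tr _ _ _ _ hn
  · rw [h.sy_deg hn]
    have key : b = c ∨ a = d ∨ c = d ∨ a = b ∨ b = d ∨ a = c := by
      by_contra hh
      apply hn
      rw [hNd]
      push Not at hh
      exact hh
    rcases key with rfl | rfl | rfl | rfl | rfl | rfl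
    · exact K4M.cr_zero_bc hE _ _ _ _ (hE0 _)
    · exact K4M.cr_zero_ad hE _ _ _ _ (hE0 _)
    · exact K4M.cr_zero_cd _ _ _ _ (hE0 _)
    · exact K4M.cr_zero_ab _ _ _ _ (hE0 _)
    · exact K4M.cr_zero_bd _ _ _ _ (hE0 _)
    · exact K4M.cr_zero_ac _ _ _ _ (hE0 _)

/-- the relations between the cross ratios -/
theorem fam [Infinite F] : Fam k (lamD D) θ G where
  pen := {
    sw := fun S p q r => by
      have := K4M.cr_swap_bc (D := D S) none (some p) (some q) (some r)
      have e : sy (lamD D S q p r) = - sy (lamD D S p q r) := this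
      rw [e, map_neg]
    sw' := fun S p q r => by
      have := K4M.cr_swap_cd (h.nD S).toBracket none (some p) (some q) (some r)
      have e : sy (lamD D S p r q) = - sy (lamD D S p q r) := this
      rw [e, map_neg]
    rf := fun S p q r => by
      have hD := (h.nD S).toBracket
      have z : D S (some (S - p)) (some p) = 0 := (h.zero S _ _).mpr (Or.inr rfl)
      have e1 := K4M.cr_congr_a (h.nD S) z none (some q) (some r)
      have e2 := K4M.cr_swap_ab hD none (some (S - p)) (some q) (some r)
      have e3 := K4M.cr_swap_ab hD none (some p) (some q) (some r)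
      rw [e2, e3] at e1
      have e4 : K4M.cr (D S) none (some (S - p)) (some q) (some r) =
          K4M.cr (D S) none (some p) (some q) (some r) := neg_injective e1
      have e : sy (lamD D S (S - p) q r) = sy (lamD D S p q r) := e4
      rw [e]
    coc := fun S p q r s => by
      have e := K4M.coc_eq_zero (h.nD S) none (some p) (some q) (some r) (some s)
      unfold K4M.coc at e
      set w : B2 F := K4M.cr (D S) (some p) (some q) (some r) (some s) with hw
      have hc : w ∈ C0 k F := by
        obtain ⟨d1, e1⟩ := h.const S p q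
        obtain ⟨d2, e2⟩ := h.const S r s
        obtain ⟨d3, e3⟩ := h.const S p r
        obtain ⟨d4, e4⟩ := h.const S q s
        refine Submodule.subset_span ⟨d1 * d2 / (d3 * d4), ?_⟩
        rw [hw]
        unfold K4M.cr
        rw [e1, e2, e3, e4, map_div₀, map_mul, map_mul]
        rfl
      have e' : sy (lamD D S q r s) - sy (lamD D S p r s) + sy (lamD D S p q s) -
          sy (lamD D S p q r) = w := by
        have e5 : w - sy (lamD D S q r s) + sy (lamD D S p r s) - sy (lamD D S p q s) + sy (lamD D S p q r) = 0 := e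
        rw [← sub_eq_zero, ← neg_eq_zero, ← e5]
        abel
      rw [← map_sub, ← map_add, ← map_sub, e']
      exact (Submodule.Quotient.mk_eq_zero _).mpr hc
    lin := fun s a b c d e => by
      have e0 := K4M.coc_eq_zero (h.nE s) a b c d e
      unfold K4M.coc at e0
      rw [h.cross, h.cross, h.cross, h.cross, h.cross] at e0
      unfold Mf
      rw [← map_sub, ← map_add, ← map_sub, ← map_add]
      exact (congrArg (C0 k F).mkQ e0).trans (map_zero _) }
  Gev := h.Gev
  GV := h.GV
  ths := h.ths
  ne0 S p q r hn := h.lam_ne hn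
  ne1 S p q r hn := fun e => h.one_sub_ne hn (by rw [e, sub_self])
  lg0 S p q r hn := h.lg_lam hn
  lg1 S p q r hn := h.lg_one_sub hn

end Sys

end

end Pool.Agent.GK
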