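import Pool.Agent.Lib_helper40.GK.GE5
import Pool.Agent.Lib_helper40.GK.S7
import Pool.Agent.Lib_helper54.FAM.AL

/-!
# The system of brackets of a generic point and a finite group of points
-/

set_option autoImplicit false
set_option linter.unusedSectionVars false

namespace Pool.Agent.GK

open WeierstrassCurve.Affine
open K4M (dx dt ps pc)
open MK4 (FT lg)
open Pool.Agent.TN (lgmul lgdiv lgpow lgneg lg1 lgz V0 KC lg_mem_V0)
open Pool.Agent.UEG (WF bc Gen)

section BaseChange

variable {k : Type*} [Field k] [DecidableEq k] {F : Type*} [Field F] [DecidableEq F] [Algebra k F]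
  {W : WeierstrassCurve.Affine k}

lemma algebraMap_inj : Function.Injective (algebraMap k F) := (algebraMap k F).injective

lemma vv_bc (T u : W.Point) : vv (bc F W T) (bc F W u) =
    (algebraMap k F (vv T u).1, algebraMap k F (vv T u).2) := by
  rcases T with _ | ⟨x₀, y₀, h₀⟩ <;> rcases u with _ | ⟨x, y, h⟩
  · show ((0 : F), (1 : F)) = (algebraMap k F 0, algebraMap k F 1)
    rw [map_zero, map_one]
  · show ((1 : F), algebraMap k F x) = (algebraMap k F 1, algebraMap k F x)
    rw [map_one]
  · show ((0 : F), (1 : F)) = (algebraMap k F 0, algebraMap k F 1)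
    rw [map_zero, map_one]
  · rw [UEG.bc_some, UEG.bc_some]
    unfold vv
    simp only
    have e : (algebraMap k F x = algebraMap k F x₀ ∧ algebraMap k F y =
        (WF F W).negY (algebraMap k F x₀) (algebraMap k F y₀)) ↔ (x = x₀ ∧ y = W.negY x₀ y₀) := by
      rw [WeierstrassCurve.Affine.map_negY]
      exact ⟨fun h => ⟨algebraMap_inj h.1, algebraMap_inj h.2⟩, fun h => ⟨by rw [h.1], by rw [h.2]⟩⟩
    by_cases hh : x = x₀ ∧ y = W.negY x₀ y₀
    · rw [if_pos (e.mpr hh), if_pos hh, map_zero, map_one]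
    · rw [if_neg (fun h' => hh (e.mp h')), if_neg hh, map_one, WeierstrassCurve.Affine.map_slope]

lemma bk_bc (T u v : W.Point) : bk (bc F W T) (bc F W u) (bc F W v) =
    algebraMap k F (bk T u v) := by
  unfold bk
  rw [vv_bc, vv_bc, map_sub, map_mul, map_mul]

lemma dx_bc (u v : W.Point) : dx (bc F W u) (bc F W v) = algebraMap k F (dx u v) := by
  rcases u with _ | ⟨x, y, h⟩ <;> rcases v with _ | ⟨x', y', h'⟩
  · show (1 : F) * 0 - 0 * 1 = algebraMap k F (1 * 0 - 0 * 1)
    simp
  · show (1 : F) * 1 - 0 * algebraMap k F x' = algebraMap k F (1 * 1 - 0 * x')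
    simp
  · show algebraMap k F x * 0 - 1 * 1 = algebraMap k F (x * 0 - 1 * 1)
    simp
  · show algebraMap k F x * 1 - 1 * algebraMap k F x' = algebraMap k F (x * 1 - 1 * x')
    simp

lemma pc_bc (u : W.Point) : pc (bc F W u) = algebraMap k F (pc u) := by
  have e : bc F W u + bc F W u = 0 ↔ u + u = 0 := by
    rw [← map_add]
    constructor
    · intro h
      exact UEG.bc_inj (h.trans (map_zero (bc F W)).symm)
    · intro h
      rw [h, map_zero]
  unfold pc
  by_cases h : u + u = 0
  · rw [if_pos (e.mpr h), if_pos h]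
    rcases u with _ | ⟨x, y, hh⟩
    · show (1 : F) = algebraMap k F 1
      rw [map_one]
    · show 3 * algebraMap k F x ^ 2 + 2 * algebraMap k F W.a₂ * algebraMap k F x +
        algebraMap k F W.a₄ - algebraMap k F W.a₁ * algebraMap k F y =
        algebraMap k F (3 * x ^ 2 + 2 * W.a₂ * x + W.a₄ - W.a₁ * y)
      simp only [map_add, map_sub, map_mul, map_pow, map_ofNat]
  · rw [if_neg (fun h' => h (e.mp h')), if_neg h]
    rcases u with _ | ⟨x, y, hh⟩
    · show (1 : F) = algebraMap k F 1
      rw [map_one]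
    · show 2 * algebraMap k F y + algebraMap k F W.a₁ * algebraMap k F x + algebraMap k F W.a₃ =
        algebraMap k F (2 * y + W.a₁ * x + W.a₃)
      simp only [map_add, map_mul, map_ofNat]

lemma dl_bc (u v : W.Point) : dl (bc F W u) (bc F W v) = algebraMap k F (dl u v) := by
  unfold dl
  have e : (bc F W u = bc F W v ∨ bc F W u = - bc F W v) ↔ (u = v ∨ u = -v) := by
    rw [← map_neg, UEG.bc_inj.eq_iff, UEG.bc_inj.eq_iff]
  by_cases h : u = v ∨ u = -v
  · rw [if_pos (e.mpr h), if_pos h, pc_bc]
  · rw [if_neg (fun h' => h (e.mp h')), if_neg h, dx_bc]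

end BaseChange

section Inst

variable {k : Type*} [Field k] {F : Type*} [Field F] [Algebra k F] [DecidableEq F]
  {W : WeierstrassCurve.Affine F}
variable {A : Type*} [AddCommGroup A] [Fintype A] [DecidableEq A] [Nonempty A]

/-- the points -/
def ptz (pt : A →+ W.Point) (z : W.Point) : Option A → W.Point
  | none => z
  | some p => pt p

/-- the pencils of lines through the points of the group -/
noncomputable def DD (pt : A →+ W.Point) (z : W.Point) (S : A) (u v : Option A) : F :=
  bk (-pt S) (ptz pt z u) (ptz pt z v)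

/-- the pencil of lines through a generic point -/
def EE (pt : A →+ W.Point) (z : W.Point) (s a b : A) : F := dt (-(z + pt s)) (pt a) (pt b)

/-- the mean value -/
noncomputable def mg (pt : A →+ W.Point) : FT F := (Fintype.card A : ℚ)⁻¹ • ∑ b, GG pt b

/-- the potentials -/
noncomputable def th (pt : A →+ W.Point) (z : W.Point) (a : A) : FT F :=
  gg pt (z - pt a) - mg pt

noncomputable def hh1 (pt : A →+ W.Point) (S p : A) : FT F :=
  (1 / 2 : ℚ) • GG pt S - GG pt p - GG pt (p - S)

noncomputable def hh2 (pt : A →+ W.Point) (z : W.Point) (S : A) : FT F :=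
  (1 / 2 : ℚ) • GG pt S - gg pt z - gg pt (z - pt S) + (2 : ℚ) • mg pt

noncomputable def hh3 (pt : A →+ W.Point) (z : W.Point) (s a : A) : FT F :=
  gg pt (-(z + pt s) - pt a) - (3 : ℚ) • GG pt a - (3 / 2 : ℚ) • gg pt (-(z + pt s)) +
    (1 / 2 : ℚ) • mg pt

variable {pt : A →+ W.Point} {AL : AddSubgroup W.Point}

namespace Ctx

variable (h : Ctx pt AL)

include h

lemma sum_gg {z : W.Point} (hz : z ∉ AL) : ∑ a, gg pt (z - pt a) = ∑ b, GG pt b := by
  have h1 : ∀ b : A, ∑ a, lg (dx (z - pt a) (pt b)) =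
      (-(2 * (Fintype.card A : ℚ))) • GG pt b := by
    intro b
    have e1 : ∀ a, lg (dx (z - pt a) (pt b)) = gg pt (z - pt (a - b)) + gg pt (z - pt (a + b)) -
        (2 : ℚ) • gg pt (z - pt a) - (2 : ℚ) • GG pt b := by
      intro a
      rw [h.lg_dx (h.sub_nmem hz a) b]
      have a1 : z - pt a + pt b = z - pt (a - b) := by rw [map_sub]; abel
      have a2 : z - pt a - pt b = z - pt (a + b) := by rw [map_add]; abel
      rw [a1, a2]
    rw [Finset.sum_congr rfl fun a _ => e1 a, Finset.sum_sub_distrib, Finset.sum_sub_distrib,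
      Finset.sum_add_distrib, sum_sub (fun a => gg pt (z - pt a)) b,
      sum_add (fun a => gg pt (z - pt a)) b, ← Finset.smul_sum, Pen.card_smul]
    module
  have h2 : ∑ a, ∑ b, lg (dx (z - pt a) (pt b)) =
      (-(2 * (Fintype.card A : ℚ))) • ∑ a, gg pt (z - pt a) := by
    rw [Finset.smul_sum]
    exact Finset.sum_congr rfl fun a _ => sum_lg_eq (z - pt a)
  rw [Finset.sum_comm, Finset.sum_congr rfl fun b _ => h1 b, ← Finset.smul_sum] at h2
  have h3 := congrArg (fun v => (-(2 * (Fintype.card A : ℚ)))⁻¹ • v) h2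
  simp only [smul_smul, inv_mul_cancel₀ (neg_ne_zero.mpr (two_card_ne (A := A))), one_smul] at h3
  exact h3.symm

/-- the cross ratios are transcendental -/
lemma tr_lam {z : W.Point} (hz : z ∉ AL)
    (hc : ∀ S p q, ∃ d : k, bk (-pt S) (pt p) (pt q) = algebraMap k F d)
    (hv : ∀ S p, ∃ c d : k, vv (-pt S) (pt p) = (algebraMap k F c, algebraMap k F d))
    (hl : ∀ S, ∃ l, vv (-pt S) z = (1, l) ∧ Transcendental k l) {S p q r : A}
    (hn : Nd S p q r) : Transcendental k (DD pt z S none (some p) * DD pt z S (some q) (some r) /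
      (DD pt z S none (some q) * DD pt z S (some p) (some r))) := by
  obtain ⟨n1, n2, n3, n4, n5, n6⟩ := hn
  obtain ⟨l, el, tl⟩ := hl S
  obtain ⟨c1, d1, ep⟩ := hv S p
  obtain ⟨c2, d2, eq⟩ := hv S q
  obtain ⟨m1, em1⟩ := hc S q r
  obtain ⟨m2, em2⟩ := hc S p r
  have hm1 := (h.lg_bk hz n3 n4).1
  have hm2 := (h.lg_bk hz n5 n6).1
  have hzq := (h.lg_bkz hz S q).1
  have hpq := (h.lg_bk hz n1 n2).1
  intro hf
  apply tl
  set f := DD pt z S none (some p) * DD pt z S (some q) (some r) /
      (DD pt z S none (some q) * DD pt z S (some p) (some r)) with hfd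
  have e1 : DD pt z S none (some p) = algebraMap k F d1 - l * algebraMap k F c1 := by
    show (vv (-pt S) z).1 * (vv (-pt S) (pt p)).2 - (vv (-pt S) z).2 * (vv (-pt S) (pt p)).1 = _
    rw [el, ep]; ring
  have e2 : DD pt z S none (some q) = algebraMap k F d2 - l * algebraMap k F c2 := by
    show (vv (-pt S) z).1 * (vv (-pt S) (pt q)).2 - (vv (-pt S) z).2 * (vv (-pt S) (pt q)).1 = _
    rw [el, eq]; ring
  have e3 : DD pt z S (some q) (some r) = algebraMap k F m1 := em1
  have e4 : DD pt z S (some p) (some r) = algebraMap k F m2 := em2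
  have n7 : DD pt z S none (some q) ≠ 0 := hzq
  have n8 : algebraMap k F m2 ≠ 0 := by rw [← em2]; exact hm2
  have n9 : algebraMap k F m1 ≠ 0 := by rw [← em1]; exact hm1
  have ef : f * (DD pt z S none (some q) * algebraMap k F m2) =
      DD pt z S none (some p) * algebraMap k F m1 := by
    rw [hfd, e3, e4, div_mul_cancel₀ _ (mul_ne_zero n7 n8)]
  rw [e1, e2] at ef
  -- `l (c1 m1 - f c2 m2) = d1 m1 - f d2 m2`
  have ef' : l * (algebraMap k F c1 * algebraMap k F m1 -
      f * (algebraMap k F c2 * algebraMap k F m2)) =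
      algebraMap k F d1 * algebraMap k F m1 - f * (algebraMap k F d2 * algebraMap k F m2) := by
    linear_combination ef
  have al : ∀ c : k, IsAlgebraic k (algebraMap k F c) := fun c => isAlgebraic_algebraMap c
  by_cases h0 : algebraMap k F c1 * algebraMap k F m1 -
      f * (algebraMap k F c2 * algebraMap k F m2) = 0
  · exfalso
    rw [h0, mul_zero] at ef'
    apply hpq
    unfold bk
    rw [ep, eq]
    simp only
    have g1 : algebraMap k F m1 * (algebraMap k F c1 * algebraMap k F d2 -
        algebraMap k F d1 * algebraMap k F c2) = 0 := by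
      linear_combination algebraMap k F d2 * h0 + algebraMap k F c2 * ef'
    rcases mul_eq_zero.mp g1 with g2 | g2
    · exact absurd g2 n9
    · exact g2
  · have : l = (algebraMap k F d1 * algebraMap k F m1 -
        f * (algebraMap k F d2 * algebraMap k F m2)) / (algebraMap k F c1 * algebraMap k F m1 -
        f * (algebraMap k F c2 * algebraMap k F m2)) := by
      rw [eq_div_iff h0]; exact ef'
    rw [this, div_eq_mul_inv]
    exact (((al _).mul (al _)).sub (hf.mul ((al _).mul (al _)))).mul
      (((al _).mul (al _)).sub (hf.mul ((al _).mul (al _)))).inv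

/-- **the system of brackets** -/
theorem sys {z : W.Point} (hz : z ∉ AL)
    (hc : ∀ S p q, ∃ d : k, bk (-pt S) (pt p) (pt q) = algebraMap k F d)
    (hv : ∀ S p, ∃ c d : k, vv (-pt S) (pt p) = (algebraMap k F c, algebraMap k F d))
    (hd : ∀ p q, ∃ d : k, dl (pt p) (pt q) = algebraMap k F d)
    (hl : ∀ S, ∃ l, vv (-pt S) z = (1, l) ∧ Transcendental k l) :
    Sys k (DD pt z) (EE pt z) (th pt z) (GG pt) (hh1 pt) (hh2 pt z) (hh3 pt z) where
  nD S := {
    anti := fun u v => bk_anti _ _ _
    pl := fun a b c d => (bk_bracket (-pt S)).pl _ _ _ _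
    trans := fun a b c => (bk_nbracket (-pt S)).trans _ _ _ }
  nE s := {
    anti := fun a b => K4M.dt_bracket.s23 _ _ _
    pl := fun a b c d => K4M.dt_bracket.pl _ _ _ _ _
    trans := fun a b c h1 h2 => by
      have hw := h.neg_nmem (h.add_nmem hz s)
      have e1 : a = b := by
        by_contra hne
        exact (h.lg_dtw hw hne).1 h1
      rw [e1]; exact h2 }
  const := hc
  zero S p q := h.bk_zero_iff hz S p q
  zne S p := (h.lg_bkz hz S p).1
  Ene s a b hab := (h.lg_dtw (h.neg_nmem (h.add_nmem hz s)) hab).1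
  Gev := h.GG_neg
  GV a := by
    unfold GG
    refine Submodule.smul_mem _ _ (Submodule.sum_mem _ fun c _ => ?_)
    obtain ⟨d, e⟩ := hd a c
    rw [e]
    exact lg_mem_V0 d
  ths := by
    unfold th
    rw [Finset.sum_sub_distrib, h.sum_gg hz, Pen.card_smul]
    unfold mg
    rw [smul_smul, mul_inv_cancel₀ Pen.card_ne, one_smul, sub_self]
  tr S p q r hn := h.tr_lam hz hc hv hl hn
  lgz S p := by
    show lg (bk (-pt S) z (pt p)) = _
    rw [(h.lg_bkz hz S p).2]
    unfold th hh1 hh2
    have a1 : z + pt p - pt S = z - pt (S - p) := by rw [map_sub]; abel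
    rw [a1]
    module
  lgD S p q h1 h2 := by
    show lg (bk (-pt S) (pt p) (pt q)) = _
    rw [(h.lg_bk hz h1 h2).2]
    unfold LB hh1
    have a1 : S - p - q = -(p + q - S) := by abel
    rw [a1, h.GG_neg]
    module
  lgE s a b hab := by
    show lg (dt (-(z + pt s)) (pt a) (pt b)) = _
    rw [(h.lg_dtw (h.neg_nmem (h.add_nmem hz s)) hab).2]
    unfold th hh3
    have a1 : -(z + pt s) + pt a + pt b = -(z - pt (a + b - s)) := by
      rw [map_sub, map_add]; abel
    rw [a1, gg_neg]
    module

end Ctx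

end Inst

end Pool.Agent.GK
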