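import Pool.Agent.Lib_helper40.GK.GE6

/-!
# Closed elements in the span of the cross ratios of the pencils of lines
-/

set_option autoImplicit false
set_option linter.unusedSectionVars false

open scoped TensorProduct

namespace Pool.Agent.GK

open WeierstrassCurve.Affine
open K4M (dx dt ps pc)
open MK4 (FT lg HK hk sy Closed)
open Pool.Agent.TN (lgmul lgdiv lgpow lgneg lg1 lgz V0 KC lg_mem_V0 lgzpow span_const
  pow_eq_one_of_lg hk_zero_right hk_add_right hk_smul_right hk_zero_left)
open Pool.Agent.UEG (WF bc Gen)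

section Indep

variable {k : Type*} [Field k] {F : Type*} [Field F] [Algebra k F]

lemma lgprod {ι : Type*} (s : Finset ι) (X : ι → F) (hX : ∀ i, X i ≠ 0) (e : ι → ℤ) :
    lg (∏ i ∈ s, X i ^ e i) = ∑ i ∈ s, (e i : ℚ) • lg (X i) := by
  classical
  induction s using Finset.induction_on with
  | empty => rw [Finset.prod_empty, Finset.sum_empty, lg1]
  | insert a s ha ih =>
    rw [Finset.prod_insert ha, Finset.sum_insert ha, lgmul (zpow_ne_zero _ (hX _))
      (Finset.prod_ne_zero_iff.mpr fun i _ => zpow_ne_zero _ (hX i)), lgzpow (hX _), ih]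

lemma exists_denom {ι : Type*} [Fintype ι] [DecidableEq ι] (q : ι → ℚ) :
    ∃ D : ℕ, 0 < D ∧ ∃ m : ι → ℤ, ∀ i, (D : ℚ) * q i = m i := by
  refine ⟨∏ i, (q i).den, Finset.prod_pos fun i _ => (q i).den_pos,
    fun i => (q i).num * ∏ j ∈ Finset.univ.erase i, ((q j).den : ℤ), fun i => ?_⟩
  have h1 : (∏ j, ((q j).den : ℚ)) =
      (q i).den * ∏ j ∈ Finset.univ.erase i, ((q j).den : ℚ) :=
    (Finset.mul_prod_erase _ _ (Finset.mem_univ i)).symm
  push_cast
  rw [h1]
  have := Rat.mul_den_eq_num (q i)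
  rw [← this]
  ring

/-- units which are independent modulo constants, for exponents of sum zero -/
theorem indep_lg' {ι : Type*} [Fintype ι] [DecidableEq ι] (X : ι → F) (hX : ∀ i, X i ≠ 0)
    (hc : ∀ (e : ι → ℤ) (c : k), c ≠ 0 → ∑ i, e i = 0 → ∏ i, X i ^ e i = algebraMap k F c → e = 0)
    (q : ι → ℚ) (hq : ∑ i, q i = 0) (h : ∑ i, q i • lg (X i) ∈ V0 k F) : q = 0 := by
  have ne : ∀ {c : k}, c ≠ 0 → algebraMap k F c ≠ 0 := fun hc => (_root_.map_ne_zero _).mpr hc
  obtain ⟨N, c, hN, hc0, h1⟩ := span_const h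
  obtain ⟨D, hD, m, hm⟩ := exists_denom q
  have hm0 : ∑ i, m i = 0 := by
    have : ((∑ i, m i : ℤ) : ℚ) = 0 := by
      push_cast
      rw [← Finset.sum_congr rfl fun i _ => hm i, ← Finset.mul_sum, hq, mul_zero]
    exact_mod_cast this
  set g : F := ∏ i, X i ^ (N * m i) with hg
  have hg0 : g ≠ 0 := Finset.prod_ne_zero_iff.mpr fun i _ => zpow_ne_zero _ (hX i)
  have h2 : lg g = lg (algebraMap k F (c ^ D)) := by
    rw [hg, lgprod _ _ hX, map_pow, lgpow (ne hc0), ← h1, Finset.smul_sum, Finset.smul_sum]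
    refine Finset.sum_congr rfl fun i _ => ?_
    push_cast
    rw [← hm, smul_smul, smul_smul]
    congr 1
    ring
  have h3 : lg (g / algebraMap k F (c ^ D)) = 0 := by
    rw [lgdiv hg0 (ne (pow_ne_zero _ hc0)), h2, sub_self]
  obtain ⟨M, hM, h4⟩ := pow_eq_one_of_lg (div_ne_zero hg0 (ne (pow_ne_zero _ hc0))) h3
  rw [div_pow, div_eq_one_iff_eq (pow_ne_zero _ (ne (pow_ne_zero _ hc0))), ← map_pow] at h4
  have h5 : ∏ i, X i ^ (N * m i * M) = algebraMap k F ((c ^ D) ^ M) := by
    rw [← h4, hg, ← Finset.prod_pow]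
    refine Finset.prod_congr rfl fun i _ => ?_
    rw [zpow_mul, zpow_natCast]
  have h6 := hc _ _ (pow_ne_zero _ (pow_ne_zero _ hc0)) (by
    rw [← Finset.sum_mul, ← Finset.mul_sum, hm0, mul_zero, zero_mul]) h5
  funext i
  have hi := congrFun h6 i
  simp only [Pi.zero_apply] at hi
  have hmi : m i = 0 := by
    rcases mul_eq_zero.mp hi with h | h
    · rcases mul_eq_zero.mp h with h | h
      · exact absurd h (by exact_mod_cast hN.ne')
      · exact h
    · exact absurd h (by exact_mod_cast hM.ne')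
  have := hm i
  rw [hmi, Int.cast_zero] at this
  rcases mul_eq_zero.mp this with h | h
  · exact absurd h (by exact_mod_cast hD.ne')
  · exact h

end Indep

section Main

variable {k : Type*} [Field k] [DecidableEq k] {W : WeierstrassCurve.Affine k} {F : Type*}
  [Field F] [DecidableEq F] [Algebra k F] {X Y : F}

/-- the generic point -/
noncomputable def gp [CharZero k] (hg : Gen W X Y) : (WF F W).Point := Point.some X Y hg.ns

/-- the points of the group over `F` -/
noncomputable def pp (F : Type*) [Field F] [DecidableEq F] [Algebra k F]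
    (H : AddSubgroup W.Point) : H →+ (WF F W).Point := (bc F W).comp H.subtype

variable (H : AddSubgroup W.Point)

lemma pp_apply (a : H) : pp F H a = bc F W (a : W.Point) := rfl

lemma ctx : Ctx (pp F H) (AL F W) where
  inj a b e := Subtype.ext (UEG.bc_inj e)
  mem a := bc_mem _

lemma gp_nmem [CharZero k] (hg : Gen W X Y) : gp hg ∉ AL F W := gen_not_mem hg hg.ns

/-- the generic point in the pencils of lines -/
lemma vv_gp [CharZero k] (hg : Gen W X Y) (T : W.Point) :
    ∃ l, vv (bc F W T) (gp hg) = (1, l) ∧ Transcendental k l := by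
  rcases T with _ | ⟨x₀, y₀, h₀⟩
  · exact ⟨X, rfl, hg.tr⟩
  · have hx : X ≠ algebraMap k F x₀ := fun e => hg.tr (e ▸ isAlgebraic_algebraMap x₀)
    have hn : ¬ (X = algebraMap k F x₀ ∧ Y = (WF F W).negY (algebraMap k F x₀)
        (algebraMap k F y₀)) := fun h => hx h.1
    refine ⟨(WF F W).slope X (algebraMap k F x₀) Y (algebraMap k F y₀), ?_,
      gen_slope_tr hg hg.ns x₀ y₀⟩
    rw [UEG.bc_some]
    unfold vv gp
    simp only [hn, if_false]

variable [Fintype H] [DecidableEq H]

/-- the system of the group `H` -/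
theorem sysH [CharZero k] (hg : Gen W X Y) :
    Sys k (DD (pp F H) (gp hg)) (EE (pp F H) (gp hg)) (th (pp F H) (gp hg)) (GG (pp F H))
      (hh1 (pp F H)) (hh2 (pp F H) (gp hg)) (hh3 (pp F H) (gp hg)) := by
  apply (ctx (F := F) H).sys (gp_nmem hg)
  · intro S p q
    refine ⟨bk (-(S : W.Point)) p q, ?_⟩
    rw [← bk_bc]
    rw [map_neg]
    rfl
  · intro S p
    refine ⟨(vv (-(S : W.Point)) p).1, (vv (-(S : W.Point)) p).2, ?_⟩
    rw [← vv_bc, map_neg]
    rfl
  · intro p q
    exact ⟨dl (p : W.Point) q, dl_bc _ _⟩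
  · intro S
    obtain ⟨l, e, ht⟩ := vv_gp hg (-(S : W.Point))
    refine ⟨l, ?_, ht⟩
    rw [← e, map_neg]
    rfl

/-- the cross ratios of the generic point and three points of `H` in the pencils of lines -/
noncomputable def lamH [CharZero k] (hg : Gen W X Y) (S p q r : H) : F :=
  lamD (DD (pp F H) (gp hg)) S p q r

/-- independence of the potentials -/
def IndTh [CharZero k] (hg : Gen W X Y) : Prop :=
  ∀ (e : H → ℤ) (c : k), c ≠ 0 → ∑ a, e a = 0 →
    ∏ a : H, (∏ c ∈ Finset.univ.erase (0 : H), dx (gp hg - pp F H a) (pp F H c)) ^ e a =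
      algebraMap k F c → e = 0

/-- independence of the constants -/
def IndG (F : Type*) [Field F] [DecidableEq F] [Algebra k F] : Prop :=
  ∀ e : H → ℚ, e 0 = 0 → (∀ a, e (-a) = e a) → ∑ a, e a = 0 →
    ∑ a, e a • GG (pp F H) a = 0 → e = 0

/-- the span of the cross ratios and of the constants -/
noncomputable def SpH [CharZero k] (hg : Gen W X Y) : Submodule ℚ (HK F) :=
  Submodule.span ℚ {z | ∃ (S p q r : H) (u : FT F), z = hk (sy (lamH H hg S p q r)) u} ⊔ KC k F

lemma th_indep [CharZero k] (hg : Gen W X Y) (hI : IndTh H hg) (e : H → ℚ)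
    (h1 : ∑ a, e a • th (pp F H) (gp hg) a ∈ V0 k F) (h2 : ∑ a, e a = 0) : e = 0 := by
  have hC := ctx (F := F) H
  have hz := gp_nmem hg
  have hne : ∀ a : H, ∏ c ∈ Finset.univ.erase (0 : H), dx (gp hg - pp F H a) (pp F H c) ≠ 0 :=
    fun a => Finset.prod_ne_zero_iff.mpr fun c _ => hC.dx_ne (hC.sub_nmem hz a) c
  apply indep_lg' (k := k) (fun a : H => ∏ c ∈ Finset.univ.erase (0 : H),
    dx (gp hg - pp F H a) (pp F H c)) hne hI e h2
  have e1 : ∀ a : H, lg (∏ c ∈ Finset.univ.erase (0 : H), dx (gp hg - pp F H a) (pp F H c)) =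
      (-(2 * (Fintype.card H : ℚ))) • gg (pp F H) (gp hg - pp F H a) := by
    intro a
    rw [← Ctx.sum_lg_eq]
    have := lgprod (Finset.univ.erase (0 : H)) (fun c => dx (gp hg - pp F H a) (pp F H c))
      (fun c => hC.dx_ne (hC.sub_nmem hz a) c) (fun _ => 1)
    simp only [zpow_one, Int.cast_one, one_smul] at this
    rw [this, Finset.sum_erase]
    rw [map_zero]
    exact lg_dx_zero _
  have e2 : ∀ a : H, e a • lg (∏ c ∈ Finset.univ.erase (0 : H),
      dx (gp hg - pp F H a) (pp F H c)) =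
      (-(2 * (Fintype.card H : ℚ))) • (e a • th (pp F H) (gp hg) a) +
      e a • ((-(2 * (Fintype.card H : ℚ))) • mg (pp F H)) := by
    intro a
    rw [e1]
    unfold th
    module
  rw [Finset.sum_congr rfl fun a _ => e2 a, Finset.sum_add_distrib, ← Finset.smul_sum,
    ← Finset.sum_smul, h2, zero_smul, add_zero]
  exact Submodule.smul_mem _ _ h1

/-- **closed elements in the span of the cross ratios of the pencils are constant** -/
theorem closed_SpH [CharZero k] (hg : Gen W X Y) (hI : IndTh H hg) (hG : IndG H F) {z : HK F}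
    (hz : z ∈ SpH H hg) (hc : Closed z) : z ∈ KC k F := by
  have : CharZero F := charZero_of_injective_algebraMap (algebraMap k F).injective
  have hS := sysH H hg
  have hF := hS.fam
  obtain ⟨o, oV, oth⟩ := exists_fun (V0 k F) hS.ths (fun e h1 h2 => th_indep H hg hI e h1 h2)
  obtain ⟨s, hs, κ, hκ, rfl⟩ := Submodule.mem_sup.mp hz
  have key : ∃ u : H × H × H × H → FT F,
      s = ∑ j, hk (Ls (lamD (DD (pp F H) (gp hg))) j) (u j) := by
    clear hc hz
    induction hs using Submodule.span_induction with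
    | mem z hz =>
      obtain ⟨S, p, q, r, w, rfl⟩ := hz
      refine ⟨fun j => if j = (S, p, q, r) then w else 0, ?_⟩
      have : ∀ j : H × H × H × H, hk (Ls (lamD (DD (pp F H) (gp hg))) j)
          (if j = (S, p, q, r) then w else 0) =
          if j = (S, p, q, r) then hk (Ls (lamD (DD (pp F H) (gp hg))) j) w else 0 := by
        intro j
        split_ifs
        · rfl
        · rw [hk_zero_right]
      rw [Finset.sum_congr rfl fun j _ => this j, Finset.sum_ite_eq', if_pos (Finset.mem_univ _)]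
      rfl
    | zero => exact ⟨fun _ => 0, by simp only [hk_zero_right, Finset.sum_const_zero]⟩
    | add a b _ _ ha hb =>
      obtain ⟨u, rfl⟩ := ha
      obtain ⟨v, rfl⟩ := hb
      refine ⟨fun j => u j + v j, ?_⟩
      rw [← Finset.sum_add_distrib]
      exact Finset.sum_congr rfl fun j _ => (hk_add_right _ _ _).symm
    | smul q a _ ha =>
      obtain ⟨u, rfl⟩ := ha
      refine ⟨fun j => q • u j, ?_⟩
      rw [Finset.smul_sum]
      exact Finset.sum_congr rfl fun j _ => (hk_smul_right _ _ _).symm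
  obtain ⟨u, rfl⟩ := key
  exact Submodule.add_mem _ (hF.closed_const oV oth hG u hκ hc) hκ

end Main

end Pool.Agent.GK
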