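import Pool.Agent.Lib_helper40.GK.GE7

/-!
# The independence of the constants
-/

set_option autoImplicit false
set_option linter.unusedSectionVars false

open scoped TensorProduct

namespace Pool.Agent.GK

open WeierstrassCurve.Affine
open K4M (dx dt ps pc)
open MK4 (FT lg HK hk sy Closed)
open Pool.Agent.TN (lgmul lgdiv lgpow lgneg lg1 lgz V0 KC lg_mem_V0 lgzpow span_const
  pow_eq_one_of_lg hk_zero_right hk_add_right hk_smul_right hk_zero_left)
open Pool.Agent.UEG (WF bc Gen)

section

variable {k : Type*} [Field k] [DecidableEq k] {W : WeierstrassCurve.Affine k}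
  (H : AddSubgroup W.Point) [Fintype H]

/-- the product of the differences of the abscissa of `a` and the abscissae of the other points
of the group (`ψ₂(a)` or the half second derivative for the points with the same abscissa) -/
def gam (a : H) : k := ∏ c : H, dl (a : W.Point) c

/-- the Siegel numbers of the group are independent: there are as many as one can hope for -/
def SiegelIndep : Prop :=
  ∀ e : H → ℤ, e 0 = 0 → (∀ a, e (-a) = e a) → ∑ a, e a = 0 → ∏ a, gam H a ^ e a = 1 → e = 0

lemma gam_ne (a : H) : gam H a ≠ 0 := Finset.prod_ne_zero_iff.mpr fun c _ => dl_ne _ _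

variable (F : Type*) [Field F] [DecidableEq F] [Algebra k F] [DecidableEq H]

lemma GG_eq (a : H) : GG (pp F H) a = (-(2 * (Fintype.card H : ℚ))⁻¹) •
    lg (algebraMap k F (gam H a)) := by
  unfold GG gam
  congr 1
  rw [map_prod]
  have := lgprod (Finset.univ : Finset H) (fun c : H => algebraMap k F (dl (a : W.Point) c))
    (fun c => (_root_.map_ne_zero _).mpr (dl_ne _ _)) (fun _ => 1)
  simp only [zpow_one, Int.cast_one, one_smul] at this
  rw [this]
  refine Finset.sum_congr rfl fun c _ => ?_
  rw [← dl_bc]
  rfl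

variable {H F}

theorem indG_of (h : SiegelIndep H) : IndG H F := by
  intro q q0 qe qs hq
  have h1 : ∑ a, q a • lg (algebraMap k F (gam H a)) = 0 := by
    have e1 : ∀ a, q a • GG (pp F H) a = (-(2 * (Fintype.card H : ℚ))⁻¹) •
        (q a • lg (algebraMap k F (gam H a))) := by
      intro a; rw [GG_eq, smul_comm]
    rw [Finset.sum_congr rfl fun a _ => e1 a, ← Finset.smul_sum] at hq
    rcases smul_eq_zero.mp hq with h2 | h2
    · exact absurd h2 (neg_ne_zero.mpr (inv_ne_zero Ctx.two_card_ne))
    · exact h2
  obtain ⟨D, hD, m, hm⟩ := exists_denom q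
  have hD0 : (D : ℚ) ≠ 0 := by exact_mod_cast hD.ne'
  have hne : ∀ a : H, algebraMap k F (gam H a) ≠ 0 := fun a =>
    (_root_.map_ne_zero _).mpr (gam_ne H a)
  have h2 : lg (∏ a, algebraMap k F (gam H a) ^ m a) = 0 := by
    rw [lgprod _ _ hne]
    have e1 : ∀ a, (m a : ℚ) • lg (algebraMap k F (gam H a)) =
        (D : ℚ) • (q a • lg (algebraMap k F (gam H a))) := by
      intro a; rw [← hm, smul_smul]
    rw [Finset.sum_congr rfl fun a _ => e1 a, ← Finset.smul_sum, h1, smul_zero]
  obtain ⟨M, hM, h3⟩ := pow_eq_one_of_lg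
    (Finset.prod_ne_zero_iff.mpr fun a _ => zpow_ne_zero _ (hne a)) h2
  have h4 : ∏ a, gam H a ^ (m a * M) = 1 := by
    apply (algebraMap k F).injective
    rw [map_prod, map_one, ← h3, ← Finset.prod_pow]
    refine Finset.prod_congr rfl fun a _ => ?_
    rw [map_zpow₀, zpow_mul, zpow_natCast]
  have mz : ∀ {x : ℚ} {n : ℤ}, (D : ℚ) * x = n → x = 0 → n = 0 := by
    intro x n h1 h2
    rw [h2, mul_zero] at h1
    exact_mod_cast h1.symm
  have h5 := h (fun a => m a * M) (by
      show m 0 * M = 0
      rw [mz (hm 0) q0, zero_mul]) (by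
      intro a
      show m (-a) * M = m a * M
      have : m (-a) = m a := by
        have h1 := hm (-a)
        rw [qe, hm a] at h1
        exact_mod_cast h1.symm
      rw [this]) (by
      rw [← Finset.sum_mul]
      have : ((∑ i, m i : ℤ) : ℚ) = 0 := by
        push_cast
        rw [← Finset.sum_congr rfl fun i _ => hm i, ← Finset.mul_sum, qs, mul_zero]
      have h0 : ∑ i, m i = 0 := by exact_mod_cast this
      rw [h0, zero_mul]) h4
  funext a
  have h6 := congrFun h5 a
  simp only [Pi.zero_apply] at h6
  have h7 : m a = 0 := by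
    rcases mul_eq_zero.mp h6 with h | h
    · exact h
    · exact absurd h (by exact_mod_cast hM.ne')
  have h8 := hm a
  rw [h7, Int.cast_zero] at h8
  rcases mul_eq_zero.mp h8 with h | h
  · exact absurd h hD0
  · exact h

end

end Pool.Agent.GK
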