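import Pool.Agent.Lib_helper87.FAM.Indep
import Pool.Agent.Lib_helper40.GK.GE8

/-!
# The parallelogram identity at the generic points, and independence
-/

set_option autoImplicit false
set_option linter.unusedSectionVars false

namespace Pool.Agent.GK

open WeierstrassCurve.Affine UEG

variable {k : Type*} [Field k] [DecidableEq k] [CharZero k] {W : WeierstrassCurve.Affine k}
  {F : Type*} [Field F] [Algebra k F] [DecidableEq F]

/-- **the parallelogram identity at the generic points** -/
theorem par_gen : Par F W := by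
  intro X Y h a c hc
  have hu : zz h ≠ 0 := Point.some_ne_zero _
  rcases eq_or_ne a 0 with rfl | ha
  · refine ⟨1, one_ne_zero, ?_⟩
    rw [map_one, one_mul, zero_add, zero_sub, map_zero, add_zero, sub_zero, map_neg, dx_neg_right]
    have := dx_zero (F := F) h
    rw [map_zero] at this
    rw [this]; ring
  · have n1 : zz h ≠ bc F W a := by
      intro h0
      exact D_ne h a (by rw [h0]; exact (K4M.dx_eq_zero_iff).mpr (Or.inl rfl))
    have n2 : zz h ≠ -bc F W a := by
      intro h0
      exact D_ne h a (by rw [h0]; exact (K4M.dx_eq_zero_iff).mpr (Or.inr rfl))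
    have hb : bc F W a ≠ 0 := fun h0 => ha (bc_inj (h0.trans (map_zero _).symm))
    have hc' : bc F W c ≠ 0 := fun h0 => hc (bc_inj (h0.trans (map_zero _).symm))
    obtain ⟨δ, h0, hδ⟩ : ∃ δ : k, δ ≠ 0 ∧ dl (bc F W a) (bc F W c) = algebraMap k F δ :=
      ⟨dl a c, dl_ne _ _, dl_bc _ _⟩
    refine ⟨δ ^ 2, pow_ne_zero 2 h0, ?_⟩
    rw [par hu hb hc' n1 n2, hδ, map_add, map_sub, map_pow]
    ring

variable {X Y : F} {H : AddSubgroup W.Point} [Fintype H]

/-- **the Siegel functions of a finite group of points are independent** -/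
theorem independent (h : Gen W X Y) {e : H → ℤ} (he : ∑ a, e a = 0) {κ : k} (hκ : κ ≠ 0)
    (hp : ∏ a : H, ∏ c ∈ Finset.univ.erase (0 : H),
      K4M.dx (zz h - bc F W a) (bc F W c) ^ e a = algebraMap k F κ) : e = 0 :=
  indep' par_gen h he hκ hp

end Pool.Agent.GK
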