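import Pool.Agent.Lib_helper40.GK.S1

/-!
# The trivial relations
-/

set_option autoImplicit false
set_option linter.unusedSectionVars false

namespace Pool.Agent.GK

variable {A : Type*} [AddCommGroup A] [Fintype A] {H : Type*} [AddCommGroup H] [Module ℚ H]

/-- the eight term sum -/
def C8 (t : A → A → A → H) (S p q r : A) : H :=
  (t p q r + t (S - p) q r + t p (S - q) r + t (S - p) (S - q) r) +
  (t p q (S - r) + t (S - p) q (S - r) + t p (S - q) (S - r) + t (S - p) (S - q) (S - r))

/-- symmetries and the trivial relations -/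
structure Tri (t : A → A → A → H) : Prop where
  sw : ∀ a b c, t b a c = - t a b c
  row : ∀ a c, ∑ b, t a b c = 0
  dia : ∀ m c, ∑ a, t a (a + m) c = 0
  vec : ∀ a b, ∑ c, t a b c = 0
  rel : ∀ S p q r, (C8 t S p q p + C8 t S q r p + C8 t S r p p) -
    (C8 t S p q q + C8 t S q r q + C8 t S r p q) = 0

/-- the coefficients -/
structure Cof (X : A → A → A → ℚ) : Prop where
  sw : ∀ a b c, X b a c = - X a b c
  dia : ∀ m c, ∑ a, X a (a + m) c = 0
  cyc : ∀ a b c, X a b c + X b c a + X c a b = 0

/-- the invariants -/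
def xi (X : A → A → A → ℚ) (m n : A) : ℚ := ∑ a, X a (a + m) (a + n)

/-- the sums of the symbols -/
def sg (t : A → A → A → H) (m n : A) : H := ∑ a, t a (a + m) (a + n)

/-- partial sums -/
def Fs (t : A → A → A → H) (p m : A) : H := ∑ a, t p a (a + m)

namespace Tri

variable {t : A → A → A → H} (h : Tri t)

include h

lemma col (b c : A) : ∑ a, t a b c = 0 := by
  rw [Finset.sum_congr rfl fun a _ => h.sw b a c, Finset.sum_neg_distrib, h.row, neg_zero]

lemma C8_sw (S p q r : A) : C8 t S q p r = - C8 t S p q r := by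
  unfold C8
  rw [h.sw p q, h.sw p (S - q), h.sw (S - p) q, h.sw (S - p) (S - q), h.sw p q, h.sw p (S - q),
    h.sw (S - p) q, h.sw (S - p) (S - q)]
  abel

lemma sub_row (a c S : A) : ∑ b, t a (S - b) c = 0 := by
  rw [sum_rsub (fun b => t a b c) S, h.row]

lemma sub_col (b c S : A) : ∑ a, t (S - a) b c = 0 := by
  rw [sum_rsub (fun a => t a b c) S, h.col]

lemma sub_vec (a b S : A) : ∑ c, t a b (S - c) = 0 := by
  rw [sum_rsub (fun c => t a b c) S, h.vec]

lemma C8_row (S p r : A) : ∑ q, C8 t S p q r = 0 := by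
  unfold C8
  simp only [Finset.sum_add_distrib, h.row, h.sub_row, add_zero]

lemma C8_col (S q r : A) : ∑ p, C8 t S p q r = 0 := by
  unfold C8
  simp only [Finset.sum_add_distrib, h.col, h.sub_col, add_zero]

lemma C8_vec (S p q : A) : ∑ r, C8 t S p q r = 0 := by
  unfold C8
  simp only [Finset.sum_add_distrib, h.vec, h.sub_vec, add_zero]

variable [Nonempty A]

omit h in
lemma smul_eq_zero' {x : H} (hx : (Fintype.card A : ℚ) • x = 0) : x = 0 := by
  rcases smul_eq_zero.mp hx with h | h
  · exact absurd h Pen.card_ne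
  · exact h

lemma C8_pq (S p q : A) : C8 t S p q p = C8 t S p q q := by
  have h1 : ∑ r, ((C8 t S p q p + C8 t S q r p + C8 t S r p p) -
    (C8 t S p q q + C8 t S q r q + C8 t S r p q)) = 0 :=
    (Finset.sum_congr rfl fun r _ => h.rel S p q r).trans Finset.sum_const_zero
  rw [Finset.sum_sub_distrib, Finset.sum_add_distrib, Finset.sum_add_distrib,
    Finset.sum_add_distrib, Finset.sum_add_distrib, h.C8_row, h.C8_row, h.C8_col, h.C8_col,
    Pen.card_smul, Pen.card_smul, add_zero, add_zero, add_zero, add_zero, ← smul_sub] at h1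
  exact sub_eq_zero.mp (smul_eq_zero' (A := A) h1)

lemma C8_pp (S r p : A) : C8 t S r p p = 0 := by
  have h2 : ∀ q, C8 t S r p p - C8 t S r p q = C8 t S q r q - C8 t S q r p := by
    intro q
    have h1 := h.rel S p q r
    rw [h.C8_pq S p q] at h1
    rw [← sub_eq_zero, ← h1]
    abel
  have h1 : ∑ q, (C8 t S r p p - C8 t S r p q) = ∑ q, (C8 t S q r q - C8 t S q r p) :=
    Finset.sum_congr rfl fun q _ => h2 q
  rw [Finset.sum_sub_distrib, Finset.sum_sub_distrib, h.C8_vec, h.C8_col, Pen.card_smul,
    sub_zero, sub_zero, Finset.sum_congr rfl fun q _ => h.C8_pq S q r, h.C8_col] at h1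
  exact smul_eq_zero' (A := A) h1

/-- the cyclic symmetry -/
lemma C8_cyc (S p q r : A) : C8 t S p q r = C8 t S q r p := by
  have h1 := h.rel S r p q
  rw [h.C8_pq S r p, h.C8_pp S r p, h.C8_pp S q r, h.C8_pq S p q, h.C8_pp S p q] at h1
  rw [← sub_eq_zero, ← h1]
  abel

/-- the eight term relation for `D p q r = t p q r - t q r p` -/
lemma D8 (S p q r : A) :
    (t p q r - t q r p) + (t (S - p) q r - t q r (S - p)) + (t p (S - q) r - t (S - q) r p) +
    (t p q (S - r) - t q (S - r) p) + (t p (S - q) (S - r) - t (S - q) (S - r) p) +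
    (t (S - p) q (S - r) - t q (S - r) (S - p)) + (t (S - p) (S - q) r - t (S - q) r (S - p)) +
    (t (S - p) (S - q) (S - r) - t (S - q) (S - r) (S - p)) = 0 := by
  have h1 := sub_eq_zero.mpr (h.C8_cyc S p q r)
  unfold C8 at h1
  rw [← h1]
  abel

/-- diagonal sums -/
lemma C8_dia (S m r : A) : ∑ p, C8 t S p (p + m) r = 0 := by
  have e1 : ∀ c, ∑ p, t p (p + m) c = 0 := fun c => h.dia m c
  have e2 : ∀ c, ∑ p, t (S - p) (p + m) c = 0 := by
    intro c
    apply Pen.eq_zero_of_neg
    conv_lhs => rw [← sum_rsub _ (S - m)]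
    rw [← Finset.sum_neg_distrib]
    refine Finset.sum_congr rfl fun p _ => ?_
    have a1 : S - (S - m - p) = p + m := by abel
    have a2 : S - m - p + m = S - p := by abel
    rw [a1, a2, h.sw]
  have e3 : ∀ c, ∑ p, t p (S - (p + m)) c = 0 := by
    intro c
    apply Pen.eq_zero_of_neg
    conv_lhs => rw [← sum_rsub _ (S - m)]
    rw [← Finset.sum_neg_distrib]
    refine Finset.sum_congr rfl fun p _ => ?_
    have a1 : S - (S - m - p + m) = p := by abel
    have a2 : S - m - p = S - (p + m) := by abel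
    rw [a1, a2, h.sw]
  have e4 : ∀ c, ∑ p, t (S - p) (S - (p + m)) c = 0 := by
    intro c
    have := h.dia (-m) c
    rw [← sum_rsub _ S] at this
    rw [← this]
    refine Finset.sum_congr rfl fun p _ => ?_
    have a1 : S - (p + m) = S - p + -m := by abel
    rw [a1]
  unfold C8
  simp only [Finset.sum_add_distrib, e1, e2, e3, e4, add_zero]

/-- `F` is odd -/
lemma Fs_neg (p m : A) : Fs t p (-m) = - Fs t p m := by
  have h1 : ∑ q, ∑ S, C8 t S (q + m) p q = 0 := by
    rw [Finset.sum_comm]
    refine (Finset.sum_congr rfl fun S _ => ?_).trans Finset.sum_const_zero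
    rw [← h.C8_dia S m p]
    refine Finset.sum_congr rfl fun q _ => ?_
    rw [h.C8_cyc S q (q + m) p]
  -- the eight terms
  have k1 : ∑ q, ∑ _S : A, t (q + m) p q = -((Fintype.card A : ℚ) • Fs t p (-m)) := by
    rw [Finset.sum_congr rfl fun q _ => Pen.card_smul (A := A) (t (q + m) p q), ← Finset.smul_sum,
      ← smul_neg]
    congr 1
    unfold Fs
    rw [← Finset.sum_neg_distrib, ← sum_add (fun a => -t p a (a + -m)) m]
    refine Finset.sum_congr rfl fun q _ => ?_
    show _ = -t p (q + m) (q + m + -m)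
    have a1 : q + m + -m = q := by abel
    rw [a1, h.sw]
  have k2 : ∑ q, ∑ S : A, t (S - (q + m)) p q = 0 := by
    refine (Finset.sum_congr rfl fun q _ => ?_).trans Finset.sum_const_zero
    rw [sum_sub (fun a => t a p q)]
    exact h.col p q
  have k3 : ∑ q, ∑ S : A, t (q + m) (S - p) q = 0 := by
    refine (Finset.sum_congr rfl fun q _ => ?_).trans Finset.sum_const_zero
    rw [sum_sub (fun a => t (q + m) a q)]
    exact h.row _ _
  have k4 : ∑ q, ∑ S : A, t (q + m) p (S - q) = 0 := by
    refine (Finset.sum_congr rfl fun q _ => ?_).trans Finset.sum_const_zero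
    rw [sum_sub (fun a => t (q + m) p a)]
    exact h.vec _ _
  have k5 : ∑ q, ∑ S : A, t (S - (q + m)) (S - p) q = 0 := by
    refine (Finset.sum_congr rfl fun q _ => ?_).trans Finset.sum_const_zero
    rw [← h.dia (q + m - p) q, ← sum_sub (fun a => t a (a + (q + m - p)) q) (q + m)]
    refine Finset.sum_congr rfl fun S _ => ?_
    congr 1
    abel
  have k6 : ∑ q, ∑ S : A, t (S - (q + m)) p (S - q) =
      -((Fintype.card A : ℚ) • Fs t p m) := by
    rw [← smul_neg, ← Pen.card_smul (A := A)]
    refine Finset.sum_congr rfl fun q _ => ?_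
    unfold Fs
    rw [← Finset.sum_neg_distrib, ← sum_sub (fun a => -t p a (a + m)) (q + m)]
    refine Finset.sum_congr rfl fun S _ => ?_
    show _ = -t p (S - (q + m)) (S - (q + m) + m)
    rw [h.sw]
    congr 2
    abel
  have k7 : ∑ q, ∑ S : A, t (q + m) (S - p) (S - q) = 0 := by
    have a1 : ∀ q, ∑ S : A, t (q + m) (S - p) (S - q) = ∑ n, t (q + m) (q + m + n) (m + n + p) := by
      intro q
      rw [← Equiv.sum_comp (Equiv.addRight (q + m + p)) (fun S => t (q + m) (S - p) (S - q))]
      refine Finset.sum_congr rfl fun n _ => ?_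
      show t (q + m) (n + (q + m + p) - p) (n + (q + m + p) - q) = _
      congr 1 <;> abel
    rw [Finset.sum_congr rfl fun q _ => a1 q, Finset.sum_comm]
    refine (Finset.sum_congr rfl fun n _ => ?_).trans Finset.sum_const_zero
    rw [sum_add (fun q => t q (q + n) (m + n + p)) m]
    exact h.dia _ _
  have k8 : ∑ q, ∑ S : A, t (S - (q + m)) (S - p) (S - q) = 0 := by
    have a1 : ∀ q, ∑ S : A, t (S - (q + m)) (S - p) (S - q) = ∑ a, t a (a + m + q - p) (a + m) := by
      intro q
      rw [← sum_sub (fun a => t a (a + m + q - p) (a + m)) (q + m)]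
      refine Finset.sum_congr rfl fun S _ => ?_
      congr 1 <;> abel
    rw [Finset.sum_congr rfl fun q _ => a1 q, Finset.sum_comm]
    refine (Finset.sum_congr rfl fun a _ => ?_).trans Finset.sum_const_zero
    have a2 : ∀ q, a + m + q - p = q + (a + m - p) := fun q => by abel
    rw [Finset.sum_congr rfl fun q _ => congrArg (fun b => t a b (a + m)) (a2 q),
      sum_add (fun b => t a b (a + m))]
    exact h.row _ _
  unfold C8 at h1
  simp only [Finset.sum_add_distrib] at h1
  rw [k1, k2, k3, k4, k5, k6, k7, k8] at h1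
  have h2 : (Fintype.card A : ℚ) • (Fs t p (-m) + Fs t p m) = 0 := by
    rw [smul_add, ← neg_eq_zero, ← h1]
    abel
  exact eq_neg_of_add_eq_zero_left (smul_eq_zero' (A := A) h2)

/-- the commutation relation -/
lemma key (p q r : A) : (Fintype.card A : ℚ) • (t p q r - t q r p) =
    - Fs t p (q - r) - Fs t r (q - p) - sg t (p - q) (p - r) + sg t (q - r) (q - p) := by
  have h1 : ∑ S, ((t p q r - t q r p) + (t (S - p) q r - t q r (S - p)) +
    (t p (S - q) r - t (S - q) r p) +
    (t p q (S - r) - t q (S - r) p) + (t p (S - q) (S - r) - t (S - q) (S - r) p) +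
    (t (S - p) q (S - r) - t q (S - r) (S - p)) + (t (S - p) (S - q) r - t (S - q) r (S - p)) +
    (t (S - p) (S - q) (S - r) - t (S - q) (S - r) (S - p))) = 0 :=
    (Finset.sum_congr rfl fun S _ => h.D8 S p q r).trans Finset.sum_const_zero
  simp only [Finset.sum_add_distrib, Finset.sum_sub_distrib] at h1
  rw [Pen.card_smul, Pen.card_smul] at h1
  rw [sum_sub (fun a => t a q r), sum_sub (fun a => t q r a), sum_sub (fun a => t p a r),
    sum_sub (fun a => t a r p), sum_sub (fun a => t p q a), sum_sub (fun a => t q a p),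
    h.col, h.vec, h.row, h.col, h.vec, h.row] at h1
  have k5 : ∑ S, t p (S - q) (S - r) = Fs t p (q - r) := by
    unfold Fs
    rw [← sum_sub (fun a => t p a (a + (q - r))) q]
    refine Finset.sum_congr rfl fun S _ => ?_
    have : S - r = S - q + (q - r) := by abel
    rw [this]
  have k5' : ∑ S, t (S - q) (S - r) p = 0 := by
    rw [← h.dia (q - r) p, ← sum_sub (fun a => t a (a + (q - r)) p) q]
    refine Finset.sum_congr rfl fun S _ => ?_
    have : S - r = S - q + (q - r) := by abel
    rw [this]
  have k6 : ∑ S, t (S - p) q (S - r) = - Fs t q (p - r) := by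
    unfold Fs
    rw [← Finset.sum_neg_distrib, ← sum_sub (fun a => -t q a (a + (p - r))) p]
    refine Finset.sum_congr rfl fun S _ => ?_
    have : S - r = S - p + (p - r) := by abel
    rw [this, h.sw]
  have k6' : ∑ S, t q (S - r) (S - p) = Fs t q (r - p) := by
    unfold Fs
    rw [← sum_sub (fun a => t q a (a + (r - p))) r]
    refine Finset.sum_congr rfl fun S _ => ?_
    have : S - p = S - r + (r - p) := by abel
    rw [this]
  have k7 : ∑ S, t (S - p) (S - q) r = 0 := by
    rw [← h.dia (p - q) r, ← sum_sub (fun a => t a (a + (p - q)) r) p]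
    refine Finset.sum_congr rfl fun S _ => ?_
    have : S - q = S - p + (p - q) := by abel
    rw [this]
  have k7' : ∑ S, t (S - q) r (S - p) = - Fs t r (q - p) := by
    unfold Fs
    rw [← Finset.sum_neg_distrib, ← sum_sub (fun a => -t r a (a + (q - p))) q]
    refine Finset.sum_congr rfl fun S _ => ?_
    have : S - p = S - q + (q - p) := by abel
    rw [this, h.sw]
  have k8 : ∑ S, t (S - p) (S - q) (S - r) = sg t (p - q) (p - r) := by
    unfold sg
    rw [← sum_sub (fun a => t a (a + (p - q)) (a + (p - r))) p]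
    refine Finset.sum_congr rfl fun S _ => ?_
    have a1 : S - q = S - p + (p - q) := by abel
    have a2 : S - r = S - p + (p - r) := by abel
    rw [a1, a2]
  have k8' : ∑ S, t (S - q) (S - r) (S - p) = sg t (q - r) (q - p) := by
    unfold sg
    rw [← sum_sub (fun a => t a (a + (q - r)) (a + (q - p))) q]
    refine Finset.sum_congr rfl fun S _ => ?_
    have a1 : S - r = S - q + (q - r) := by abel
    have a2 : S - p = S - q + (q - p) := by abel
    rw [a1, a2]
  rw [k5, k5', k6, k6', k7, k7', k8, k8'] at h1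
  have k9 : Fs t q (r - p) = - Fs t q (p - r) := by
    rw [← h.Fs_neg, neg_sub]
  rw [k9] at h1
  rw [← sub_eq_zero, ← h1, smul_sub]
  abel

end Tri

end Pool.Agent.GK
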