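import Pool.Agent.Lib_helper40.GK.S2

/-!
# The contraction of the symbols with the coefficients of a closed element
-/

set_option autoImplicit false
set_option linter.unusedSectionVars false

namespace Pool.Agent.GK

variable {A : Type*} [AddCommGroup A] [Fintype A] {H : Type*} [AddCommGroup H] [Module ℚ H]

lemma sum3_cyc (f : A → A → A → H) : ∑ a, ∑ b, ∑ c, f b c a = ∑ a, ∑ b, ∑ c, f a b c := by
  rw [Finset.sum_comm]
  refine Finset.sum_congr rfl fun b _ => ?_
  rw [Finset.sum_comm]

/-- triple sums of functions of differences -/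
lemma sum3_diff (X : A → A → A → ℚ) (g : A → A → H) :
    ∑ a, ∑ b, ∑ c, X a b c • g (b - a) (c - a) = ∑ m, ∑ n, xi X m n • g m n := by
  have h1 : ∀ a, ∑ b, ∑ c, X a b c • g (b - a) (c - a) =
      ∑ m, ∑ n, X a (a + m) (a + n) • g m n := by
    intro a
    rw [← Equiv.sum_comp (Equiv.addLeft a)]
    refine Finset.sum_congr rfl fun m _ => ?_
    rw [← Equiv.sum_comp (Equiv.addLeft a)]
    refine Finset.sum_congr rfl fun n _ => ?_
    show X a (a + m) (a + n) • g (a + m - a) (a + n - a) = _
    rw [add_sub_cancel_left, add_sub_cancel_left]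
  rw [Finset.sum_congr rfl fun a _ => h1 a, Finset.sum_comm]
  refine Finset.sum_congr rfl fun m _ => ?_
  rw [Finset.sum_comm]
  refine Finset.sum_congr rfl fun n _ => ?_
  unfold xi
  rw [Finset.sum_smul]

namespace Cof

variable {X : A → A → A → ℚ} (hX : Cof X)

include hX

lemma xi_neg (m n : A) : xi X (-m) (-n) = - xi X m (m - n) := by
  unfold xi
  rw [← sum_add _ m, ← Finset.sum_neg_distrib]
  refine Finset.sum_congr rfl fun a _ => ?_
  have e1 : a + m + -m = a := by abel
  have e2 : a + m + -n = a + (m - n) := by abel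
  rw [e1, e2, hX.sw]

lemma xi_cyc (m n : A) : xi X m n + xi X (n - m) (-m) + xi X (-n) (m - n) = 0 := by
  have h1 : xi X (n - m) (-m) = ∑ a, X (a + m) (a + n) a := by
    unfold xi
    rw [← sum_add _ m]
    refine Finset.sum_congr rfl fun a _ => ?_
    congr 1 <;> abel
  have h2 : xi X (-n) (m - n) = ∑ a, X (a + n) a (a + m) := by
    unfold xi
    rw [← sum_add _ n]
    refine Finset.sum_congr rfl fun a _ => ?_
    congr 1 <;> abel
  rw [h1, h2]
  unfold xi
  rw [← Finset.sum_add_distrib, ← Finset.sum_add_distrib]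
  exact (Finset.sum_congr rfl fun a _ => hX.cyc a (a + m) (a + n)).trans Finset.sum_const_zero

/-- diagonal sums over the second and the third variable are even -/
lemma ev (a m : A) : ∑ b, X a b (b + -m) = ∑ b, X a b (b + m) := by
  have h1 : ∑ b, (X a b (b + m) + X b (b + m) a + X (b + m) a b) = 0 :=
    (Finset.sum_congr rfl fun b _ => hX.cyc a b (b + m)).trans Finset.sum_const_zero
  rw [Finset.sum_add_distrib, Finset.sum_add_distrib, hX.dia, add_zero] at h1
  have h2 : ∑ b, X (b + m) a b = - ∑ b, X a b (b + -m) := by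
    rw [← Finset.sum_neg_distrib, ← sum_add (fun b => -X a b (b + -m)) m]
    refine Finset.sum_congr rfl fun b _ => ?_
    have e1 : b + m + -m = b := by abel
    show _ = - X a (b + m) (b + m + -m)
    rw [e1, ← hX.sw]
  rw [h2] at h1
  linarith

/-- the terms which depend on the third variable and the difference of the first two -/
lemma sum_c (g : A → A → H) : ∑ a, ∑ b, ∑ c, X a b c • g c (b - a) = 0 := by
  rw [← sum3_cyc (fun a b c => X a b c • g c (b - a))]
  refine (Finset.sum_congr rfl fun c _ => ?_).trans Finset.sum_const_zero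
  have h1 : ∀ a, ∑ b, X a b c • g c (b - a) = ∑ m, X a (a + m) c • g c m := by
    intro a
    rw [← Equiv.sum_comp (Equiv.addLeft a)]
    refine Finset.sum_congr rfl fun m _ => ?_
    show X a (a + m) c • g c (a + m - a) = _
    rw [add_sub_cancel_left]
  rw [Finset.sum_congr rfl fun a _ => h1 a, Finset.sum_comm]
  refine (Finset.sum_congr rfl fun m _ => ?_).trans Finset.sum_const_zero
  rw [← Finset.sum_smul, hX.dia, zero_smul]

/-- the terms with an odd function of the difference of the last two variables -/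
lemma sum_a (g : A → A → H) (hg : ∀ a m, g a (-m) = - g a m) :
    ∑ a, ∑ b, ∑ c, X a b c • g a (b - c) = 0 := by
  refine (Finset.sum_congr rfl fun a _ => ?_).trans Finset.sum_const_zero
  have h1 : ∀ b, ∑ c, X a b c • g a (b - c) = ∑ m, X a b (b + m) • g a (-m) := by
    intro b
    rw [← Equiv.sum_comp (Equiv.addLeft b)]
    refine Finset.sum_congr rfl fun m _ => ?_
    show X a b (b + m) • g a (b - (b + m)) = _
    congr 2
    abel
  rw [Finset.sum_congr rfl fun b _ => h1 b, Finset.sum_comm]
  have h2 : ∀ m, ∑ b, X a b (b + m) • g a (-m) = (∑ b, X a b (b + m)) • g a (-m) := by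
    intro m; rw [Finset.sum_smul]
  rw [Finset.sum_congr rfl fun m _ => h2 m]
  apply Pen.eq_zero_of_neg
  conv_lhs => rw [← sum_neg]
  rw [← Finset.sum_neg_distrib]
  refine Finset.sum_congr rfl fun m _ => ?_
  rw [hX.ev, neg_neg, hg, smul_neg, neg_neg]

lemma sum_b (g : A → A → H) (hg : ∀ a m, g a (-m) = - g a m) :
    ∑ a, ∑ b, ∑ c, X a b c • g b (a - c) = 0 := by
  rw [Finset.sum_comm, ← neg_eq_zero, ← hX.sum_a g hg, ← Finset.sum_neg_distrib]
  refine Finset.sum_congr rfl fun a _ => ?_
  rw [← Finset.sum_neg_distrib]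
  refine Finset.sum_congr rfl fun b _ => ?_
  rw [← Finset.sum_neg_distrib]
  refine Finset.sum_congr rfl fun c _ => ?_
  rw [hX.sw a b c, neg_smul, neg_neg]

end Cof

namespace Tri

variable {t : A → A → A → H} (h : Tri t)

include h

lemma sg_neg (m n : A) : sg t (-m) (-n) = - sg t m (m - n) := by
  unfold sg
  rw [← sum_add _ m, ← Finset.sum_neg_distrib]
  refine Finset.sum_congr rfl fun a _ => ?_
  have e1 : a + m + -m = a := by abel
  have e2 : a + m + -n = a + (m - n) := by abel
  rw [e1, e2, h.sw]

variable [Nonempty A]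

omit h in
lemma smul_cancel {x y : H} (hx : (Fintype.card A : ℚ) • x = (Fintype.card A : ℚ) • y) :
    x = y := by
  apply sub_eq_zero.mp
  apply smul_eq_zero' (A := A)
  rw [smul_sub, hx, sub_self]

/-- the relation between the diagonal sums -/
lemma sg_rel (m n : A) : sg t m n = sg t m (m - n) + sg t (n - m) (-m) - sg t (n - m) n := by
  have h1 : ∑ a, (Fintype.card A : ℚ) • (t a (a + m) (a + n) - t (a + m) (a + n) a) =
      ∑ a, (- Fs t a (m - n) - Fs t (a + n) m - sg t (-m) (-n) + sg t (m - n) m) := by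
    refine Finset.sum_congr rfl fun a _ => ?_
    rw [h.key a (a + m) (a + n)]
    have e1 : a + m - (a + n) = m - n := by abel
    have e2 : a + m - a = m := by abel
    have e3 : a - (a + m) = -m := by abel
    have e4 : a - (a + n) = -n := by abel
    rw [e1, e2, e3, e4]
  have h2 : ∀ j, ∑ a, Fs t a j = 0 := by
    intro j
    unfold Fs
    rw [Finset.sum_comm]
    exact (Finset.sum_congr rfl fun b _ => h.col b (b + j)).trans Finset.sum_const_zero
  rw [← Finset.smul_sum, Finset.sum_sub_distrib, Finset.sum_add_distrib, Finset.sum_sub_distrib,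
    Finset.sum_sub_distrib, Finset.sum_neg_distrib, h2, sum_add (fun a => Fs t a m), h2,
    Pen.card_smul, Pen.card_smul, neg_zero, sub_zero, zero_sub, ← smul_neg, ← smul_add] at h1
  have h3 := smul_cancel (A := A) h1
  have h4 : ∑ a, t (a + m) (a + n) a = sg t (n - m) (-m) := by
    unfold sg
    rw [← sum_add (fun a => t a (a + (n - m)) (a + -m)) m]
    refine Finset.sum_congr rfl fun a _ => ?_
    congr 1 <;> abel
  have h5 : sg t (m - n) m = - sg t (n - m) n := by
    have := h.sg_neg (n - m) (-m)
    have e1 : -(n - m) = m - n := by abel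
    have e2 : n - m - -m = n := by abel
    rw [e1, e2, neg_neg] at this
    exact this
  have h6 : ∑ a, t a (a + m) (a + n) = sg t m n := rfl
  rw [h4, h6, h.sg_neg m n, h5, neg_neg] at h3
  rw [← sub_eq_zero] at h3 ⊢
  rw [← h3]
  abel

/-- **the contraction vanishes** -/
theorem contract {X : A → A → A → ℚ} (hX : Cof X) (hr : ∀ m n, xi X m (m - n) = - xi X m n) :
    ∑ a, ∑ b, ∑ c, X a b c • t a b c = 0 := by
  have hneg : ∀ m n, xi X (-m) (-n) = xi X m n := by
    intro m n; rw [hX.xi_neg, hr, neg_neg]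
  -- the two cyclic identities
  have hc1 : ∀ m n, xi X (m - n) m = xi X n m - xi X m n := by
    intro m n
    have h1 := hX.xi_cyc m n
    have h2 : xi X (n - m) (-m) = xi X (m - n) m := by
      have := hneg (m - n) m
      rwa [neg_sub] at this
    have h3 : xi X (-n) (m - n) = - xi X n m := by
      have := hneg n (n - m)
      rw [neg_sub] at this
      rw [this, hr]
    rw [h2, h3] at h1
    linarith
  set Q : H := ∑ m, ∑ n, xi X m n • sg t m n with hQ
  set R : H := ∑ m, ∑ n, xi X m n • sg t n m with hR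
  have hR' : R = ∑ m, ∑ n, xi X n m • sg t m n := by rw [hR, Finset.sum_comm]
  -- `3 Q = 0`
  have q1 : ∑ m, ∑ n, xi X m n • sg t m (m - n) = -Q := by
    rw [hQ, ← Finset.sum_neg_distrib]
    refine Finset.sum_congr rfl fun m _ => ?_
    rw [← sum_rsub _ m, ← Finset.sum_neg_distrib]
    refine Finset.sum_congr rfl fun n _ => ?_
    rw [hr, sub_sub_cancel, neg_smul]
  have q2 : ∑ m, ∑ n, xi X m n • sg t (n - m) (-m) = -R := by
    rw [hR', Finset.sum_comm (f := fun m n => xi X n m • sg t m n), ← Finset.sum_neg_distrib,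
      ← sum_neg (fun m => ∑ n, xi X m n • sg t (n - m) (-m))]
    refine Finset.sum_congr rfl fun m _ => ?_
    rw [← Finset.sum_neg_distrib, ← sum_sub (fun n => xi X (-m) n • sg t (n - -m) (- -m)) m]
    refine Finset.sum_congr rfl fun n _ => ?_
    have e1 : n - m - -m = n := by abel
    have e2 : xi X (-m) (n - m) = - xi X m n := by
      have := hneg m (m - n)
      rw [neg_sub] at this
      rw [this, hr]
    rw [e1, e2, neg_neg, neg_smul]
  have q3 : ∑ m, ∑ n, xi X m n • sg t (n - m) n = Q - R := by
    rw [hR', hQ, ← Finset.sum_sub_distrib, Finset.sum_comm]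
    rw [Finset.sum_comm (f := fun m n => xi X m n • sg t m n)] at *
    have : ∑ x, (∑ n, xi X x n • sg t x n - ∑ n, xi X n x • sg t x n) =
        ∑ c, ∑ m, (xi X m c • sg t m c - xi X c m • sg t m c) := by
      rw [Finset.sum_comm (f := fun c m => (xi X m c • sg t m c - xi X c m • sg t m c))]
      refine Finset.sum_congr rfl fun m _ => ?_
      rw [Finset.sum_sub_distrib]
    rw [this]
    refine Finset.sum_congr rfl fun c _ => ?_
    rw [← sum_rsub _ c]
    refine Finset.sum_congr rfl fun m _ => ?_
    rw [sub_sub_cancel, hc1 c m, sub_smul]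
  have hQ0 : Q = 0 := by
    have h1 : Q = -Q + -R - (Q - R) := by
      rw [← q1, ← q2, ← q3, hQ, ← Finset.sum_add_distrib, ← Finset.sum_sub_distrib]
      refine Finset.sum_congr rfl fun m _ => ?_
      rw [← Finset.sum_add_distrib, ← Finset.sum_sub_distrib]
      refine Finset.sum_congr rfl fun n _ => ?_
      conv_lhs => rw [h.sg_rel m n]
      rw [smul_sub, smul_add]
    have h2 : (3 : ℚ) • Q = 0 := by
      have : (3 : ℚ) • Q = Q - (-Q + -R - (Q - R)) := by module
      rw [this, ← h1, sub_self]
    rcases smul_eq_zero.mp h2 with h3 | h3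
    · norm_num at h3
    · exact h3
  -- the sums
  set E0 : H := ∑ a, ∑ b, ∑ c, X a b c • t a b c with hE0
  set E1 : H := ∑ a, ∑ b, ∑ c, X a b c • t b c a with hE1
  set E2 : H := ∑ a, ∑ b, ∑ c, X a b c • t c a b with hE2
  have e0 : E0 = -E2 - E1 := by
    have h1 : E0 = ∑ a, ∑ b, ∑ c, ((-(X b c a)) • t a b c - X c a b • t a b c) := by
      rw [hE0]
      refine Finset.sum_congr rfl fun a _ => Finset.sum_congr rfl fun b _ =>
        Finset.sum_congr rfl fun c _ => ?_
      have : X a b c = -(X b c a) - X c a b := by linarith [hX.cyc a b c]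
      rw [this, sub_smul]
    have h2 : ∑ a, ∑ b, ∑ c, X b c a • t a b c = E2 :=
      sum3_cyc (fun a b c => X a b c • t c a b)
    have h3 : ∑ a, ∑ b, ∑ c, X c a b • t a b c = E1 := by
      rw [← sum3_cyc (fun a b c => X c a b • t a b c)]
    rw [h1]
    simp only [Finset.sum_sub_distrib, neg_smul, Finset.sum_neg_distrib, h2, h3]
  have hFn : ∀ a m, Fs t a (-m) = - Fs t a m := h.Fs_neg
  have s1 : ∑ a, ∑ b, ∑ c, X a b c • sg t (a - b) (a - c) = Q := by
    have := sum3_diff X (fun m n => sg t (-m) (-n))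
    simp only [neg_sub] at this
    rw [this, hQ, ← sum_neg]
    refine Finset.sum_congr rfl fun m _ => ?_
    rw [← sum_neg]
    refine Finset.sum_congr rfl fun n _ => ?_
    rw [neg_neg, neg_neg, hneg]
  have s2 : ∑ a, ∑ b, ∑ c, X a b c • sg t (b - c) (b - a) = -R := by
    have := sum3_diff X (fun m n => sg t (m - n) m)
    simp only [sub_sub_sub_cancel_right] at this
    rw [this, hR, ← Finset.sum_neg_distrib]
    refine Finset.sum_congr rfl fun m _ => ?_
    rw [← Finset.sum_neg_distrib, ← sum_rsub _ m]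
    refine Finset.sum_congr rfl fun n _ => ?_
    rw [sub_sub_cancel, hr, neg_smul]
  have s3 : ∑ a, ∑ b, ∑ c, X a b c • sg t (c - a) (c - b) = R - Q := by
    have := sum3_diff X (fun m n => sg t n (n - m))
    simp only [sub_sub_sub_cancel_right] at this
    rw [this, hR', hQ, ← Finset.sum_sub_distrib, Finset.sum_comm]
    refine Finset.sum_congr rfl fun n _ => ?_
    rw [← sum_rsub _ n, ← Finset.sum_sub_distrib]
    refine Finset.sum_congr rfl fun m _ => ?_
    rw [sub_sub_cancel, hc1 n m, sub_smul]
  have k1 : (Fintype.card A : ℚ) • (E0 - E1) = -Q + -R := by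
    have : (Fintype.card A : ℚ) • (E0 - E1) = ∑ a, ∑ b, ∑ c,
        (- (X a b c • Fs t a (b - c)) - X a b c • Fs t c (b - a) -
          X a b c • sg t (a - b) (a - c) + X a b c • sg t (b - c) (b - a)) := by
      rw [hE0, hE1, ← Finset.sum_sub_distrib, Finset.smul_sum]
      refine Finset.sum_congr rfl fun a _ => ?_
      rw [← Finset.sum_sub_distrib, Finset.smul_sum]
      refine Finset.sum_congr rfl fun b _ => ?_
      rw [← Finset.sum_sub_distrib, Finset.smul_sum]
      refine Finset.sum_congr rfl fun c _ => ?_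
      rw [← smul_sub, smul_comm, h.key a b c]
      module
    rw [this]
    simp only [Finset.sum_add_distrib, Finset.sum_sub_distrib, Finset.sum_neg_distrib]
    rw [hX.sum_a (Fs t) hFn, hX.sum_c (Fs t), s1, s2, neg_zero, sub_zero, zero_sub]
  have k2 : (Fintype.card A : ℚ) • (E2 - E0) = -(R - Q) + Q := by
    have : (Fintype.card A : ℚ) • (E2 - E0) = ∑ a, ∑ b, ∑ c,
        (- (X a b c • (fun x y => Fs t x (-y)) c (b - a)) - X a b c • Fs t b (a - c) -
          X a b c • sg t (c - a) (c - b) + X a b c • sg t (a - b) (a - c)) := by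
      rw [hE2, hE0, ← Finset.sum_sub_distrib, Finset.smul_sum]
      refine Finset.sum_congr rfl fun a _ => ?_
      rw [← Finset.sum_sub_distrib, Finset.smul_sum]
      refine Finset.sum_congr rfl fun b _ => ?_
      rw [← Finset.sum_sub_distrib, Finset.smul_sum]
      refine Finset.sum_congr rfl fun c _ => ?_
      rw [← smul_sub, smul_comm, h.key c a b]
      simp only [neg_sub]
      module
    rw [this]
    simp only [Finset.sum_add_distrib, Finset.sum_sub_distrib, Finset.sum_neg_distrib]
    rw [hX.sum_c (fun x y => Fs t x (-y)), hX.sum_b (Fs t) hFn, s1, s3, neg_zero, sub_zero,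
      zero_sub]
  have k3 : (Fintype.card A : ℚ) • ((3 : ℚ) • E0) = 0 := by
    have h1 : (3 : ℚ) • E0 = (E0 - E1) - (E2 - E0) := by
      have : E0 = (1/3 : ℚ) • ((3 : ℚ) • E0) := by module
      have h2 : E1 = -E2 - E0 := by rw [e0]; abel
      rw [h2]
      module
    rw [h1, smul_sub, k1, k2, hQ0]
    abel
  have k4 := smul_eq_zero' (A := A) k3
  rcases smul_eq_zero.mp k4 with h3 | h3
  · norm_num at h3
  · exact h3

end Tri

end Pool.Agent.GK
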