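import Pool.Agent.Lib_helper40.GK.S3

/-!
# The linear algebra of closed elements
-/

set_option autoImplicit false
set_option linter.unusedSectionVars false

namespace Pool.Agent.GK

section Mult

variable {A : Type*} [AddCommGroup A] [Fintype A] [DecidableEq A]

/-- the multiplicity of a point in the orbit of `x` -/
def mm (S x c : A) : ℚ := (if c = x then 1 else 0) + (if c = S - x then 1 else 0)

/-- the divisor of the cross ratio `λ(S; p, q, r)` -/
def PP (j : A × A × A × A) (c : A) : ℚ := mm j.1 j.2.1 c - mm j.1 j.2.2.1 c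

/-- the divisor of `1 - λ(S; p, q, r)` -/
def RR (j : A × A × A × A) (c : A) : ℚ := mm j.1 j.2.2.2 c - mm j.1 j.2.2.1 c

/-- the exterior product of the two divisors -/
def ww (j : A × A × A × A) (c d : A) : ℚ := RR j c * PP j d - PP j c * RR j d

lemma mm_symm (S x c : A) : mm S x (S - c) = mm S x c := by
  unfold mm
  have e1 : (S - c = x) ↔ (c = S - x) := by
    constructor
    · intro h; rw [← h]; abel
    · intro h; rw [h]; abel
  have e2 : (S - c = S - x) ↔ (c = x) := sub_right_inj
  simp only [e1, e2]
  ring

variable {V : Type*} [AddCommGroup V] [Module ℚ V]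

lemma sum_mm (S x : A) (f : A → V) : ∑ c, mm S x c • f c = f x + f (S - x) := by
  unfold mm
  simp only [add_smul, Finset.sum_add_distrib, ite_smul, one_smul, zero_smul,
    Finset.sum_ite_eq', Finset.mem_univ, if_true]

lemma sum_mm_one (S x : A) : ∑ c, mm S x c = 2 := by
  have := sum_mm S x (fun _ : A => (1 : ℚ))
  simp only [smul_eq_mul, mul_one] at this
  rw [this]
  norm_num

lemma sum_PP (j : A × A × A × A) : ∑ c, PP j c = 0 := by
  unfold PP
  rw [Finset.sum_sub_distrib, sum_mm_one, sum_mm_one, sub_self]

lemma sum_RR (j : A × A × A × A) : ∑ c, RR j c = 0 := by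
  unfold RR
  rw [Finset.sum_sub_distrib, sum_mm_one, sum_mm_one, sub_self]

lemma ww_sw (j : A × A × A × A) (c d : A) : ww j d c = - ww j c d := by
  unfold ww; ring

lemma ww_row (j : A × A × A × A) (c : A) : ∑ a, ww j a c = 0 := by
  unfold ww
  rw [Finset.sum_sub_distrib, ← Finset.sum_mul, ← Finset.sum_mul, sum_PP, sum_RR]
  ring

lemma ww_dia (j : A × A × A × A) (m : A) : ∑ c, ww j c (c + m) = 0 := by
  have h1 : ∑ c, RR j c * PP j (c + m) = ∑ c, PP j c * RR j (c + m) := by
    rw [← sum_rsub _ (j.1 - m)]
    refine Finset.sum_congr rfl fun c _ => ?_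
    have e1 : j.1 - m - c = j.1 - (c + m) := by abel
    have e2 : j.1 - (c + m) + m = j.1 - c := by abel
    rw [e1, e2]
    unfold RR PP
    rw [mm_symm, mm_symm, mm_symm, mm_symm]
    ring
  unfold ww
  rw [Finset.sum_sub_distrib, h1, sub_self]

lemma sum_PP_smul (j : A × A × A × A) (f : A → V) :
    ∑ c, PP j c • f c = f j.2.1 + f (j.1 - j.2.1) - f j.2.2.1 - f (j.1 - j.2.2.1) := by
  unfold PP
  simp only [sub_smul, Finset.sum_sub_distrib, sum_mm]
  abel

lemma sum_RR_smul (j : A × A × A × A) (f : A → V) :
    ∑ c, RR j c • f c = f j.2.2.2 + f (j.1 - j.2.2.2) - f j.2.2.1 - f (j.1 - j.2.2.1) := by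
  unfold RR
  simp only [sub_smul, Finset.sum_sub_distrib, sum_mm]
  abel

/-- the symmetric function of two orbits -/
lemma mm_G {G : A → V} (hG : ∀ a, G (-a) = G a) (S x y c : A) :
    mm S x c • (G (c - y) + G (c - (S - y))) = mm S x c • (G (x - y) + G (x - (S - y))) := by
  by_cases h1 : c = x
  · rw [h1]
  · by_cases h2 : c = S - x
    · rw [h2]
      congr 1
      have e1 : G (S - x - y) = G (x - (S - y)) := by
        rw [← hG]; congr 1; abel
      have e2 : G (S - x - (S - y)) = G (x - y) := by
        rw [← hG]; congr 1; abel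
      rw [e1, e2, add_comm]
    · have : mm S x c = 0 := by
        unfold mm
        rw [if_neg h1, if_neg h2, add_zero]
      rw [this, zero_smul, zero_smul]

/-- the terms with `G` -/
lemma G_term {G : A → V} (hG : ∀ a, G (-a) = G a) (j : A × A × A × A) (c : A) :
    RR j c • (∑ b, PP j b • G (j.2.2.2 - b)) - PP j c • (∑ b, RR j b • G (j.2.1 - b)) =
      ∑ b, ww j c b • G (c - b) := by
  have h1 : ∑ b, ww j c b • G (c - b) = RR j c • (∑ b, PP j b • G (c - b)) -
      PP j c • (∑ b, RR j b • G (c - b)) := by
    rw [Finset.smul_sum, Finset.smul_sum, ← Finset.sum_sub_distrib]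
    refine Finset.sum_congr rfl fun b _ => ?_
    unfold ww
    module
  rw [h1, sum_PP_smul, sum_PP_smul, sum_RR_smul, sum_RR_smul]
  have a1 : ∀ x y, G (y - x) = G (x - y) := fun x y => by rw [← hG]; congr 1; abel
  have a2 : ∀ x y, G (y - (j.1 - x)) = G (x - (j.1 - y)) := fun x y => by
    congr 1; abel
  obtain ⟨S, p, q, r⟩ := j
  simp only at a1 a2 ⊢
  unfold RR PP
  simp only
  have k := fun x y => mm_G hG S x y c
  have k1 := k r p
  have k2 := k r q
  have k3 := k q p
  have k4 := k q q
  have k5 := k p r
  have k6 := k p q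
  have k7 := k q r
  have b1 : G (r - q) + G (r - (S - q)) = G (q - r) + G (q - (S - r)) := by rw [a1 r q, a2 r q]
  have b2 : G (p - q) + G (p - (S - q)) = G (q - p) + G (q - (S - p)) := by rw [a1 p q, a2 p q]
  have b3 : G (p - r) + G (p - (S - r)) = G (r - p) + G (r - (S - p)) := by rw [a1 p r, a2 p r]
  have b1' := congrArg (fun v => mm S q c • v) b1
  have b2' := congrArg (fun v => mm S q c • v) b2
  have b3' := congrArg (fun v => mm S q c • v) b3
  linear_combination (norm := module) -k1 + k2 + k3 + k5 - k6 - k7 + b1' - b2' + b3'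

end Mult

/-! ### the relation satisfied by the contractions -/

section Star

variable {A : Type*} [AddCommGroup A] [Fintype A] [DecidableEq A] [Nonempty A]
variable {V : Type*} [AddCommGroup V] [Module ℚ V]

/-- the data of contractions -/
structure Star (θ G : A → V) (o : A → V →ₗ[ℚ] ℚ) (Y : A → A → V) : Prop where
  sw : ∀ c d, Y d c = - Y c d
  row : ∀ c, ∑ a, Y a c = 0
  dia : ∀ m, ∑ c, Y c (c + m) = 0
  Gev : ∀ a, G (-a) = G a
  oth : ∀ a b, o a (θ b) = (if a = b then 1 else 0) - (Fintype.card A : ℚ)⁻¹
  oG : ∀ a b, o a (G b) = 0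
  star : ∀ c d, Y c d + ∑ a, (o d (Y a c) + o c (Y d a)) • θ a +
    ∑ b, (o d (Y c b) • G (c - b) - o c (Y d b) • G (d - b)) = 0

namespace Star

variable {θ G : A → V} {o : A → V →ₗ[ℚ] ℚ} {Y : A → A → V} (h : Star θ G o Y)

include h

/-- the coefficients -/
lemma cof : Cof (fun a b c => o c (Y a b)) where
  sw a b c := by rw [h.sw, map_neg]
  dia m c := by rw [← map_sum, h.dia, map_zero]
  cyc c d e := by
    have h1 := congrArg (o e) (h.star c d)
    rw [map_add, map_add, map_sum, map_sum, map_zero] at h1
    have h2 : ∑ b, o e (o d (Y c b) • G (c - b) - o c (Y d b) • G (d - b)) = 0 := by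
      refine Finset.sum_eq_zero fun b _ => ?_
      rw [map_sub, map_smul, map_smul, h.oG, h.oG, smul_zero, smul_zero, sub_zero]
    have h3 : ∑ a, o e ((o d (Y a c) + o c (Y d a)) • θ a) = o d (Y e c) + o c (Y d e) := by
      have : ∀ a, o e ((o d (Y a c) + o c (Y d a)) • θ a) =
          (if e = a then (o d (Y a c) + o c (Y d a)) else 0) -
            (Fintype.card A : ℚ)⁻¹ * (o d (Y a c) + o c (Y d a)) := by
        intro a
        rw [map_smul, h.oth, smul_eq_mul]
        split_ifs <;> ring
      rw [Finset.sum_congr rfl fun a _ => this a, Finset.sum_sub_distrib, Finset.sum_ite_eq,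
        if_pos (Finset.mem_univ _), ← Finset.mul_sum, Finset.sum_add_distrib, ← map_sum, h.row,
        map_zero, zero_add]
      have : ∑ a, o c (Y d a) = 0 := by
        have : ∀ a, o c (Y d a) = - o c (Y a d) := fun a => by rw [h.sw a d, map_neg]
        rw [Finset.sum_congr rfl fun a _ => this a, Finset.sum_neg_distrib, ← map_sum, h.row,
          map_zero, neg_zero]
      rw [this, mul_zero, sub_zero]
    rw [h2, h3, add_zero] at h1
    show o e (Y c d) + o c (Y d e) + o d (Y e c) = 0
    linarith

/-- the contracted element in terms of its coefficients -/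
lemma Y_eq (c d : A) : Y c d = ∑ a, o a (Y c d) • θ a -
    ∑ b, (o d (Y c b) • G (c - b) - o c (Y d b) • G (d - b)) := by
  have h1 := h.star c d
  have h2 : ∑ a, (o d (Y a c) + o c (Y d a)) • θ a = - ∑ a, o a (Y c d) • θ a := by
    rw [← Finset.sum_neg_distrib]
    refine Finset.sum_congr rfl fun a _ => ?_
    have := h.cof.cyc c d a
    rw [← neg_smul]
    congr 1
    linarith
  rw [h2] at h1
  rw [← sub_eq_zero, ← h1]
  abel

/-- the relation between the `G` -/
lemma G_rel (m : A) : ∑ j, (xi (fun a b c => o c (Y a b)) j m +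
    xi (fun a b c => o c (Y a b)) j (j - m)) • G j = 0 := by
  set X : A → A → A → ℚ := fun a b c => o c (Y a b) with hX
  have h1 : ∑ c, ∑ b, (X c b (c + m) • G (c - b) - X (c + m) b c • G (c + m - b)) = 0 := by
    have h2 : ∑ c, (Y c (c + m) + ∑ a, (o (c + m) (Y a c) + o c (Y (c + m) a)) • θ a +
      ∑ b, (o (c + m) (Y c b) • G (c - b) - o c (Y (c + m) b) • G (c + m - b))) = 0 :=
      Finset.sum_eq_zero fun c _ => h.star c (c + m)
    rw [Finset.sum_add_distrib, Finset.sum_add_distrib, h.dia, zero_add, Finset.sum_comm] at h2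
    have h3 : ∑ a, ∑ c, (o (c + m) (Y a c) + o c (Y (c + m) a)) • θ a = 0 := by
      have e1 : ∀ a, ∑ c, (o (c + m) (Y a c) + o c (Y (c + m) a)) • θ a = 0 := by
        intro a
        rw [← Finset.sum_smul]
        have : ∑ c, (o (c + m) (Y a c) + o c (Y (c + m) a)) = 0 := by
          have h4 : ∀ c, o (c + m) (Y a c) + o c (Y (c + m) a) = - o a (Y c (c + m)) := by
            intro c
            have := h.cof.cyc c (c + m) a
            linarith
          rw [Finset.sum_congr rfl fun c _ => h4 c, Finset.sum_neg_distrib, ← map_sum, h.dia,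
            map_zero, neg_zero]
        rw [this, zero_smul]
      exact Finset.sum_eq_zero fun a _ => e1 a
    rw [h3, zero_add] at h2
    exact h2
  simp only [Finset.sum_sub_distrib] at h1
  have h4 : ∑ c, ∑ b, X c b (c + m) • G (c - b) = ∑ j, xi X j m • G j := by
    have e1 : ∀ c, ∑ b, X c b (c + m) • G (c - b) = ∑ j, X c (c + j) (c + m) • G j := by
      intro c
      rw [← Equiv.sum_comp (Equiv.addLeft c)]
      refine Finset.sum_congr rfl fun j _ => ?_
      show X c (c + j) (c + m) • G (c - (c + j)) = _
      rw [sub_add_cancel_left, h.Gev]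
    rw [Finset.sum_congr rfl fun c _ => e1 c, Finset.sum_comm]
    refine Finset.sum_congr rfl fun j _ => ?_
    unfold xi
    rw [Finset.sum_smul]
  have h5 : ∑ c, ∑ b, X (c + m) b c • G (c + m - b) = ∑ j, -xi X j (j - m) • G j := by
    have e1 : ∀ c, ∑ b, X (c + m) b c • G (c + m - b) =
        ∑ j, X (c + m) (c + m + j) c • G j := by
      intro c
      rw [← Equiv.sum_comp (Equiv.addLeft (c + m))]
      refine Finset.sum_congr rfl fun j _ => ?_
      show X (c + m) (c + m + j) c • G (c + m - (c + m + j)) = _
      rw [sub_add_cancel_left, h.Gev]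
    rw [Finset.sum_congr rfl fun c _ => e1 c, Finset.sum_comm, ← sum_neg]
    refine Finset.sum_congr rfl fun j _ => ?_
    rw [h.Gev, ← Finset.sum_smul]
    congr 1
    rw [← h.cof.xi_neg j m]
    unfold xi
    rw [← sum_add (fun a => X a (a + -j) (a + -m)) m]
    refine Finset.sum_congr rfl fun a _ => ?_
    congr 1
    abel
  rw [h4, h5, ← Finset.sum_sub_distrib] at h1
  rw [← h1]
  refine Finset.sum_congr rfl fun j _ => ?_
  module

/-- independence of the `G` -/
theorem xi_anti (hind : ∀ e : A → ℚ, e 0 = 0 → (∀ a, e (-a) = e a) → ∑ a, e a = 0 →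
      ∑ a, e a • G a = 0 → e = 0) (m n : A) :
    xi (fun a b c => o c (Y a b)) m (m - n) = - xi (fun a b c => o c (Y a b)) m n := by
  set X : A → A → A → ℚ := fun a b c => o c (Y a b) with hX
  have hC : Cof X := h.cof
  set s : A → A → ℚ := fun m n => xi X m n + xi X m (m - n) with hs
  have s_rsub : ∀ m n, s m (m - n) = s m n := by
    intro m n; simp only [hs, sub_sub_cancel]; ring
  have s_neg : ∀ m n, s (-m) (-n) = - s m n := by
    intro m n
    simp only [hs]
    have e1 : -m - -n = -(m - n) := by abel
    rw [e1, hC.xi_neg, hC.xi_neg, sub_sub_cancel]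
    ring
  have s_cyc : ∀ m n, s m n + s (n - m) (-m) + s (-n) (m - n) = 0 := by
    intro m n
    simp only [hs]
    have h1 := hC.xi_cyc m n
    have h2 := hC.xi_cyc m (m - n)
    have e1 : m - n - m = -n := by abel
    have e2 : -(m - n) = n - m := by abel
    have e3 : m - (m - n) = n := by abel
    have e4 : n - m - -m = n := by abel
    have e5 : -n - (m - n) = -m := by abel
    rw [e1, e2, e3] at h2
    rw [e4, e5]
    linarith
  have s_zero : ∀ n, s 0 n = 0 := by
    intro n
    have : ∀ n, xi X 0 n = 0 := by
      intro n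
      unfold xi
      refine Finset.sum_eq_zero fun a _ => ?_
      have := hC.sw a a (a + n)
      rw [add_zero]
      linarith
    simp only [hs, this, add_zero]
  have s_sum : ∀ n, ∑ m, s m n = 0 := by
    intro n
    simp only [hs, Finset.sum_add_distrib]
    have h1 : ∑ m, xi X m n = 0 := by
      unfold xi
      rw [Finset.sum_comm]
      refine Finset.sum_eq_zero fun a _ => ?_
      rw [← Equiv.sum_comp (Equiv.subRight a)]
      show ∑ b, X a (a + (b - a)) (a + n) = 0
      have : ∀ b, X a (a + (b - a)) (a + n) = - o (a + n) (Y b a) := by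
        intro b
        rw [add_sub_cancel]
        show o (a + n) (Y a b) = _
        rw [h.sw b a, map_neg]
      rw [Finset.sum_congr rfl fun b _ => this b, Finset.sum_neg_distrib, ← map_sum, h.row,
        map_zero, neg_zero]
    have h2 : ∑ m, xi X m (m - n) = 0 := by
      unfold xi
      rw [Finset.sum_comm]
      have e1 : ∀ a, ∑ m, X a (a + m) (a + (m - n)) = ∑ b, X a b (b - n) := by
        intro a
        rw [← Equiv.sum_comp (Equiv.addLeft a) (fun b => X a b (b - n))]
        refine Finset.sum_congr rfl fun m _ => ?_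
        show X a (a + m) (a + (m - n)) = X a (a + m) (a + m - n)
        congr 1
        abel
      rw [Finset.sum_congr rfl fun a _ => e1 a, Finset.sum_comm]
      refine Finset.sum_eq_zero fun b _ => ?_
      show ∑ a, o (b - n) (Y a b) = 0
      rw [← map_sum, h.row, map_zero]
    rw [h1, h2, add_zero]
  -- the even part vanishes
  have s_ev : ∀ m n, s (-m) n = - s m n := by
    intro m n
    have h1 := hind (fun j => s j n + s (-j) n) (by
        show s 0 n + s (-0) n = 0
        rw [neg_zero, s_zero, add_zero]) (by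
        intro a
        show s (-a) n + s (- -a) n = s a n + s (-a) n
        rw [neg_neg, add_comm]) (by
        rw [Finset.sum_add_distrib, sum_neg (fun j => s j n), s_sum, add_zero]) (by
        have h2 : ∑ j, s j n • G j = 0 := h.G_rel n
        simp only [add_smul, Finset.sum_add_distrib]
        rw [h2, zero_add, ← h2, ← sum_neg]
        refine Finset.sum_congr rfl fun j _ => ?_
        rw [neg_neg, h.Gev])
    have := congrFun h1 m
    simp only [Pi.zero_apply] at this
    linarith
  have s_n : ∀ m n, s m (-n) = s m n := by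
    intro m n
    have h1 := s_neg m n
    rw [s_ev] at h1
    linarith
  have s_per : ∀ m n, s m (n + m) = s m n := by
    intro m n
    have h1 := s_rsub m (-n)
    rw [s_n] at h1
    rw [← h1]
    congr 1
    abel
  have s_key : ∀ m n, s m n = s n m - s (n - m) m := by
    intro m n
    have h1 := s_cyc m n
    have h2 : s (n - m) (-m) = s (n - m) m := s_n _ _
    have h3 : s (-n) (m - n) = - s n m := by
      rw [s_ev]
      have := s_per n (m - n)
      rw [sub_add_cancel] at this
      rw [this]
    rw [h2, h3] at h1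
    linarith
  have s_tel : ∀ (i : ℕ) (m n : A), (i : ℚ) * s m n = s n m - s (n - i • m) m := by
    intro i m n
    induction i with
    | zero => simp
    | succ i ih =>
      have h1 := s_key m (n - i • m)
      have h2 : s m (n - i • m) = s m n := by
        clear ih h1
        induction i with
        | zero => simp
        | succ i ih =>
          rw [← ih, ← s_per m (n - (i + 1) • m)]
          congr 1
          rw [add_smul, one_smul]
          abel
      rw [h2] at h1
      have e1 : n - (i + 1) • m = n - i • m - m := by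
        rw [add_smul, one_smul]; abel
      push_cast
      rw [add_mul, ih, one_mul, h1, e1]
      ring
  have s0 : s m n = 0 := by
    have h1 := s_tel (Fintype.card A) m n
    rw [card_nsmul_eq_zero, sub_zero, sub_self] at h1
    rcases mul_eq_zero.mp h1 with h2 | h2
    · exact absurd h2 Pen.card_ne
    · exact h2
  simp only [hs] at s0
  linarith

end Star

end Star

end Pool.Agent.GK
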