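import Pool.Agent.Lib_helper40.GK.S4
import Pool.Agent.Lib_helper24.TN.N4K

/-!
# Closed elements in the span of the symbols of pencils
-/

set_option autoImplicit false
set_option linter.unusedSectionVars false

open scoped TensorProduct

namespace Pool.Agent.GK

open MK4 Pool.Agent.TN

section

variable {k : Type*} [Field k] {F : Type*} [Field F] [Algebra k F]
variable {A : Type*} [AddCommGroup A] [Fintype A] [DecidableEq A] [Nonempty A]

/-- three points in different orbits -/
def Nd (S p q r : A) : Prop :=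
  p ≠ q ∧ p ≠ S - q ∧ q ≠ r ∧ q ≠ S - r ∧ p ≠ r ∧ p ≠ S - r

variable (k F) in
/-- the span of the symbols of the constants -/
noncomputable def C0 : Submodule ℚ (B2 F) :=
  Submodule.span ℚ {z | ∃ c : k, z = sy (algebraMap k F c)}

lemma hk_C0 {x : B2 F} (hx : x ∈ C0 k F) (u : FT F) : hk x u ∈ KC k F := by
  unfold C0 at hx
  induction hx using Submodule.span_induction with
  | mem z hz =>
    obtain ⟨c, rfl⟩ := hz
    exact Submodule.subset_span ⟨c, u, rfl⟩
  | zero => rw [hk_zero_left]; exact Submodule.zero_mem _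
  | add a b _ _ ha hb => rw [hk_add_left]; exact Submodule.add_mem _ ha hb
  | smul q a _ ha => rw [hk_smul_left]; exact Submodule.smul_mem _ _ ha

variable (k) in
/-- the system of cross ratios of the pencils of lines -/
structure Fam (lam : A → A → A → A → F) (θ G : A → FT F) : Prop where
  pen : Pen (fun S p q r => (C0 k F).mkQ (sy (lam S p q r)))
  Gev : ∀ a, G (-a) = G a
  GV : ∀ a, G a ∈ V0 k F
  ths : ∑ a, θ a = 0
  ne0 : ∀ S p q r, Nd S p q r → lam S p q r ≠ 0
  ne1 : ∀ S p q r, Nd S p q r → lam S p q r ≠ 1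
  lg0 : ∀ S p q r, Nd S p q r → lg (lam S p q r) =
    θ p + θ (S - p) - θ q - θ (S - q) -
      (G (r - p) + G (r - (S - p)) - G (r - q) - G (r - (S - q)))
  lg1 : ∀ S p q r, Nd S p q r → lg (1 - lam S p q r) =
    θ r + θ (S - r) - θ q - θ (S - q) -
      (G (p - r) + G (p - (S - r)) - G (p - q) - G (p - (S - q)))

/-- the symbol of a quadruple -/
noncomputable def Ls (lam : A → A → A → A → F) (j : A × A × A × A) : B2 F :=
  sy (lam j.1 j.2.1 j.2.2.1 j.2.2.2)

variable {lam : A → A → A → A → F} {θ G : A → FT F}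

lemma ww_deg {j : A × A × A × A} (h : ¬ Nd j.1 j.2.1 j.2.2.1 j.2.2.2) (c d : A) :
    ww j c d = 0 := by
  obtain ⟨S, p, q, r⟩ := j
  simp only [Nd] at h
  have hs : ∀ x c : A, mm S (S - x) c = mm S x c := by
    intro x c; unfold mm; rw [sub_sub_cancel, add_comm]
  unfold ww PP RR
  simp only
  have key : p = q ∨ p = S - q ∨ q = r ∨ q = S - r ∨ p = r ∨ p = S - r := by
    by_contra hh
    push Not at hh
    exact h hh
  rcases key with h | h | h | h | h | h
  · rw [h]; ring
  · rw [h, hs, hs]; ring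
  · rw [h]; ring
  · rw [h, hs, hs]; ring
  · rw [h]; ring
  · rw [h, hs, hs]; ring

namespace Fam

variable (h : Fam k lam θ G)

include h

lemma L_deg {j : A × A × A × A} (hj : ¬ Nd j.1 j.2.1 j.2.2.1 j.2.2.2) :
    (C0 k F).mkQ (Ls lam j) = 0 := by
  obtain ⟨S, p, q, r⟩ := j
  simp only [Nd] at hj
  unfold Ls
  simp only
  have z1 : ∀ p r, (C0 k F).mkQ (sy (lam S p p r)) = 0 := fun p r =>
    Pen.eq_zero_of_neg (h.pen.sw S p p r)
  have z2 : ∀ p q, (C0 k F).mkQ (sy (lam S p q q)) = 0 := fun p q =>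
    Pen.eq_zero_of_neg (h.pen.sw' S p q q)
  have z3 : ∀ p q, (C0 k F).mkQ (sy (lam S p q p)) = 0 := by
    intro p q
    exact (h.pen.sw' S p p q).trans (by rw [z1, neg_zero])
  have key : p = q ∨ p = S - q ∨ q = r ∨ q = S - r ∨ p = r ∨ p = S - r := by
    by_contra hh
    push Not at hh
    exact hj hh
  rcases key with e | e | e | e | e | e
  · rw [e]; exact z1 _ _
  · rw [e]; exact (h.pen.rf S q q r).trans (z1 _ _)
  · rw [e]; exact z2 _ _
  · rw [e]; exact (h.pen.rf2 S p r r).trans (z2 _ _)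
  · rw [e]; exact z3 _ _
  · rw [e]; exact (h.pen.rf S r q r).trans (z3 _ _)

lemma L_deg' {j : A × A × A × A} (hj : ¬ Nd j.1 j.2.1 j.2.2.1 j.2.2.2) (u : FT F) :
    hk (Ls lam j) u ∈ KC k F :=
  hk_C0 ((Submodule.Quotient.mk_eq_zero _).mp (h.L_deg hj)) u

/-- the symbol in terms of the averages -/
lemma Ls_eq (j : A × A × A × A) : (C0 k F).mkQ (Ls lam j) = (1 / 2 : ℚ) • ∑ c, ∑ d, ww j c d •
    ta (fun S p q r => (C0 k F).mkQ (sy (lam S p q r))) c d := by
  set T := ta (fun S p q r => (C0 k F).mkQ (sy (lam S p q r))) with hT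
  have h1 : (C0 k F).mkQ (Ls lam j) = mu T j.1 j.2.1 j.2.2.1 + mu T j.1 j.2.2.1 j.2.2.2 +
      mu T j.1 j.2.2.2 j.2.1 := h.pen.L_eq j.1 j.2.1 j.2.2.1 j.2.2.2
  have hsw : ∀ p q, T q p = - T p q := h.pen.ta_sw
  have h2 : ∑ c, ∑ d, ww j c d • T c d = (2 : ℚ) • ∑ c, RR j c • ∑ d, PP j d • T c d := by
    have e1 : ∑ c, ∑ d, ww j c d • T c d = ∑ c, ∑ d, (RR j c * PP j d) • T c d -
        ∑ c, ∑ d, (PP j c * RR j d) • T c d := by
      rw [← Finset.sum_sub_distrib]
      refine Finset.sum_congr rfl fun c _ => ?_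
      rw [← Finset.sum_sub_distrib]
      refine Finset.sum_congr rfl fun d _ => ?_
      rw [← sub_smul]; rfl
    have e2 : ∑ c, ∑ d, (PP j c * RR j d) • T c d = - ∑ c, ∑ d, (RR j c * PP j d) • T c d := by
      rw [Finset.sum_comm, ← Finset.sum_neg_distrib]
      refine Finset.sum_congr rfl fun c _ => ?_
      rw [← Finset.sum_neg_distrib]
      refine Finset.sum_congr rfl fun d _ => ?_
      rw [hsw c d, smul_neg, mul_comm]
    rw [e1, e2, sub_neg_eq_add, ← two_smul ℚ]
    congr 1
    refine Finset.sum_congr rfl fun c _ => ?_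
    rw [Finset.smul_sum]
    refine Finset.sum_congr rfl fun d _ => ?_
    rw [smul_smul]
  rw [h1, h2, smul_smul]
  simp only [sum_PP_smul]
  rw [sum_RR_smul]
  unfold mu
  have z : ∀ p, T p p = 0 := fun p => Pen.eq_zero_of_neg (hsw p p)
  obtain ⟨S, p, q, r⟩ := j
  simp only
  rw [z q, z (S - q), hsw q p, hsw (S - q) p, hsw q (S - p), hsw (S - q) (S - p), hsw q (S - q),
    hsw q r, hsw (S - q) r, hsw q (S - r), hsw (S - q) (S - r)]
  have z1 : T (S - p) (S - q) = - T (S - q) (S - p) := hsw _ _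
  module

/-- the double contraction of the differential -/
lemma ct_L {o : A → FT F →ₗ[ℚ] ℚ} (oV : ∀ a, ∀ w ∈ V0 k F, o a w = 0)
    (oth : ∀ a b, o a (θ b) = (if a = b then 1 else 0) - (Fintype.card A : ℚ)⁻¹)
    (j : A × A × A × A) (u : FT F) (c d : A) :
    ct (o c) (o d) (dE F (hk (Ls lam j) u)) = ExteriorAlgebra.ι ℚ (ww j c d • u +
      ∑ a, (ww j a c * o d u + ww j d a * o c u) • θ a +
      ∑ b, ((ww j c b * o d u) • G (c - b) - (ww j d b * o c u) • G (d - b))) := by
  by_cases hj : Nd j.1 j.2.1 j.2.2.1 j.2.2.2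
  · have l0 : lg (lam j.1 j.2.1 j.2.2.1 j.2.2.2) = ∑ a, PP j a • (θ a - G (j.2.2.2 - a)) := by
      rw [h.lg0 _ _ _ _ hj, sum_PP_smul]
      abel
    have l1 : lg (1 - lam j.1 j.2.1 j.2.2.1 j.2.2.2) = ∑ a, RR j a • (θ a - G (j.2.1 - a)) := by
      rw [h.lg1 _ _ _ _ hj, sum_RR_smul]
      abel
    have oG : ∀ a b, o a (G b) = 0 := fun a b => oV a _ (h.GV b)
    have o0 : ∀ c, o c (lg (lam j.1 j.2.1 j.2.2.1 j.2.2.2)) = PP j c := by
      intro c
      rw [l0, map_sum]
      have e1 : ∀ a, o c (PP j a • (θ a - G (j.2.2.2 - a))) = (if c = a then PP j a else 0) -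
          (Fintype.card A : ℚ)⁻¹ * PP j a := by
        intro a
        rw [map_smul, map_sub, oG, oth, sub_zero, smul_eq_mul]
        split_ifs <;> ring
      rw [Finset.sum_congr rfl fun a _ => e1 a, Finset.sum_sub_distrib, Finset.sum_ite_eq,
        if_pos (Finset.mem_univ _), ← Finset.mul_sum, sum_PP, mul_zero, sub_zero]
    have o1 : ∀ c, o c (lg (1 - lam j.1 j.2.1 j.2.2.1 j.2.2.2)) = RR j c := by
      intro c
      rw [l1, map_sum]
      have e1 : ∀ a, o c (RR j a • (θ a - G (j.2.1 - a))) = (if c = a then RR j a else 0) -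
          (Fintype.card A : ℚ)⁻¹ * RR j a := by
        intro a
        rw [map_smul, map_sub, oG, oth, sub_zero, smul_eq_mul]
        split_ifs <;> ring
      rw [Finset.sum_congr rfl fun a _ => e1 a, Finset.sum_sub_distrib, Finset.sum_ite_eq,
        if_pos (Finset.mem_univ _), ← Finset.mul_sum, sum_RR, mul_zero, sub_zero]
    unfold Ls
    rw [dE_sy, ct_mul3, o0, o0, o1, o1]
    congr 1
    have g1 := G_term h.Gev j c
    have g2 := G_term h.Gev j d
    have s0 : ∑ a, PP j a • (θ a - G (j.2.2.2 - a)) = ∑ a, PP j a • θ a -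
        ∑ a, PP j a • G (j.2.2.2 - a) := by
      rw [← Finset.sum_sub_distrib]
      exact Finset.sum_congr rfl fun a _ => smul_sub _ _ _
    have s1 : ∑ a, RR j a • (θ a - G (j.2.1 - a)) = ∑ a, RR j a • θ a -
        ∑ a, RR j a • G (j.2.1 - a) := by
      rw [← Finset.sum_sub_distrib]
      exact Finset.sum_congr rfl fun a _ => smul_sub _ _ _
    rw [l0, l1, s0, s1]
    have t1 : ∑ a, (ww j a c * o d u + ww j d a * o c u) • θ a =
        (o d u * (- RR j c) + o c u * RR j d) • ∑ a, PP j a • θ a +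
        (o d u * PP j c - o c u * PP j d) • ∑ a, RR j a • θ a := by
      rw [Finset.smul_sum, Finset.smul_sum, ← Finset.sum_add_distrib]
      refine Finset.sum_congr rfl fun a _ => ?_
      unfold ww
      module
    have t2 : ∑ b, ((ww j c b * o d u) • G (c - b) - (ww j d b * o c u) • G (d - b)) =
        (o d u) • (∑ b, ww j c b • G (c - b)) - (o c u) • (∑ b, ww j d b • G (d - b)) := by
      rw [Finset.smul_sum, Finset.smul_sum, ← Finset.sum_sub_distrib]
      refine Finset.sum_congr rfl fun a _ => ?_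
      module
    rw [t1, t2, ← g1, ← g2]
    unfold ww
    module
  · rw [ct_KC (oV c) (oV d) (h.L_deg' hj u)]
    have e1 : ∀ c d, ww j c d = 0 := ww_deg hj
    simp only [e1, zero_smul, zero_mul, add_zero, sub_zero, Finset.sum_const_zero, map_zero]

/-- the coefficients of an element -/
noncomputable def Yu (u : A × A × A × A → FT F) (c d : A) : FT F := ∑ j, ww j c d • u j

/-- closedness gives the relation of the contractions -/
lemma star_of_closed {o : A → FT F →ₗ[ℚ] ℚ} (oV : ∀ a, ∀ w ∈ V0 k F, o a w = 0)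
    (oth : ∀ a b, o a (θ b) = (if a = b then 1 else 0) - (Fintype.card A : ℚ)⁻¹)
    (u : A × A × A × A → FT F) {κ : HK F} (hκ : κ ∈ KC k F)
    (hc : Closed (∑ j, hk (Ls lam j) (u j) + κ)) : Star θ G o (Yu u) where
  sw c d := by
    unfold Yu
    rw [← Finset.sum_neg_distrib]
    refine Finset.sum_congr rfl fun j _ => ?_
    rw [ww_sw, neg_smul]
  row c := by
    unfold Yu
    rw [Finset.sum_comm]
    refine Finset.sum_eq_zero fun j _ => ?_
    rw [← Finset.sum_smul, ww_row, zero_smul]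
  dia m := by
    unfold Yu
    rw [Finset.sum_comm]
    refine Finset.sum_eq_zero fun j _ => ?_
    rw [← Finset.sum_smul, ww_dia, zero_smul]
  Gev := h.Gev
  oth := oth
  oG a b := oV a _ (h.GV b)
  star c d := by
    rw [closed_dE, map_add, map_sum] at hc
    have h1 := congrArg (ct (o c) (o d)) hc
    rw [map_add, map_sum, map_zero, ct_KC (oV c) (oV d) hκ, add_zero] at h1
    rw [Finset.sum_congr rfl fun j _ => h.ct_L oV oth j (u j) c d, ← map_sum] at h1
    have h2 := (ExteriorAlgebra.ι_eq_zero_iff _).mp h1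
    rw [Finset.sum_add_distrib, Finset.sum_add_distrib] at h2
    rw [← h2]
    congr 1
    · congr 1
      rw [Finset.sum_comm]
      refine Finset.sum_congr rfl fun a _ => ?_
      rw [← Finset.sum_smul]
      congr 1
      unfold Yu
      rw [map_sum, map_sum, ← Finset.sum_add_distrib]
      refine Finset.sum_congr rfl fun j _ => ?_
      rw [map_smul, map_smul]
      rfl
    · rw [Finset.sum_comm]
      refine Finset.sum_congr rfl fun b _ => ?_
      rw [Finset.sum_sub_distrib, ← Finset.sum_smul, ← Finset.sum_smul]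
      unfold Yu
      rw [map_sum, map_sum]
      congr 2
      all_goals
        refine Finset.sum_congr rfl fun j _ => ?_
        rw [map_smul]
        rfl

end Fam

end

end Pool.Agent.GK
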