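import Pool.Agent.Lib_helper40.GK.S5

/-!
# Closed elements in the span of the symbols of pencils are trivial
-/

set_option autoImplicit false
set_option linter.unusedSectionVars false

open scoped TensorProduct

namespace Pool.Agent.GK

open MK4 Pool.Agent.TN

section

variable {k : Type*} [Field k] {F : Type*} [Field F] [Algebra k F]
variable {A : Type*} [AddCommGroup A] [Fintype A] [DecidableEq A] [Nonempty A]

/-- `hk` as a bilinear map -/
noncomputable def hkL (F : Type*) [Field F] : B2 F →ₗ[ℚ] FT F →ₗ[ℚ] HK F :=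
  LinearMap.mk₂ ℚ hk hk_add_left hk_smul_left hk_add_right hk_smul_right

lemma hkL_apply {F : Type*} [Field F] (a : B2 F) (u : FT F) : hkL F a u = hk a u := rfl

/-- `hk` modulo constants -/
noncomputable def hkq (K : Submodule ℚ (HK F)) (hK : KC k F ≤ K) :
    (B2 F ⧸ C0 k F) →ₗ[ℚ] FT F →ₗ[ℚ] (HK F ⧸ K) :=
  (C0 k F).liftQ ((LinearMap.compRight ℚ K.mkQ).comp (hkL F)) (by
    intro x hx
    rw [LinearMap.mem_ker]
    ext u
    show K.mkQ (hk x u) = 0
    exact (Submodule.Quotient.mk_eq_zero _).mpr (hK (hk_C0 hx u)))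

lemma hkq_mk (K : Submodule ℚ (HK F)) (hK : KC k F ≤ K) (x : B2 F) (u : FT F) :
    hkq K hK ((C0 k F).mkQ x) u = K.mkQ (hk x u) := rfl

/-- functionals -/
theorem exists_fun {V : Type*} [AddCommGroup V] [Module ℚ V] (W : Submodule ℚ V) {θ : A → V}
    (hs : ∑ a, θ a = 0) (h : ∀ e : A → ℚ, ∑ a, e a • θ a ∈ W → ∑ a, e a = 0 → e = 0) :
    ∃ o : A → V →ₗ[ℚ] ℚ, (∀ a, ∀ w ∈ W, o a w = 0) ∧
      ∀ a b, o a (θ b) = (if a = b then 1 else 0) - (Fintype.card A : ℚ)⁻¹ := by
  let f1 : (A → ℚ) →ₗ[ℚ] V ⧸ W := (Submodule.mkQ W).comp (Fintype.linearCombination ℚ θ)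
  let f2 : (A → ℚ) →ₗ[ℚ] ℚ := Fintype.linearCombination ℚ (fun _ => (1 : ℚ))
  have f1a : ∀ e, f1 e = Submodule.Quotient.mk (∑ a, e a • θ a) := by
    intro e
    show Submodule.Quotient.mk (Fintype.linearCombination ℚ θ e) = _
    rw [Fintype.linearCombination_apply]
  have f2a : ∀ e, f2 e = ∑ a, e a := by
    intro e
    show Fintype.linearCombination ℚ (fun _ => (1 : ℚ)) e = _
    rw [Fintype.linearCombination_apply]
    simp
  let f : (A → ℚ) →ₗ[ℚ] (V ⧸ W) × ℚ := f1.prod f2
  have hf : LinearMap.ker f = ⊥ := by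
    rw [LinearMap.ker_eq_bot']
    intro e he
    have h1 : f1 e = 0 := congrArg Prod.fst he
    have h2 : f2 e = 0 := congrArg Prod.snd he
    rw [f1a] at h1
    rw [f2a] at h2
    exact h e ((Submodule.Quotient.mk_eq_zero _).mp h1) h2
  obtain ⟨g, hg⟩ := f.exists_leftInverse_of_injective hf
  refine ⟨fun a => (LinearMap.proj a).comp (g.comp ((LinearMap.inl ℚ (V ⧸ W) ℚ).comp
    (Submodule.mkQ W))), fun a w hw => ?_, fun a b => ?_⟩
  · show g (Submodule.Quotient.mk w, 0) a = 0
    rw [(Submodule.Quotient.mk_eq_zero W).mpr hw]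
    have : g ((0 : V ⧸ W), (0 : ℚ)) = 0 := map_zero g
    rw [this]; rfl
  · show g (Submodule.Quotient.mk (θ b), 0) a = _
    have h1 : f (Pi.single b 1 - fun _ => (Fintype.card A : ℚ)⁻¹) =
        (Submodule.Quotient.mk (θ b), 0) := by
      refine Prod.ext ?_ ?_
      · show f1 _ = _
        rw [f1a]
        congr 1
        have : ∀ a, (Pi.single b 1 - fun _ => (Fintype.card A : ℚ)⁻¹ : A → ℚ) a • θ a =
            (if a = b then θ a else 0) - (Fintype.card A : ℚ)⁻¹ • θ a := by
          intro a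
          rw [Pi.sub_apply, sub_smul, Pi.single_apply, ite_smul, one_smul, zero_smul]
        rw [Finset.sum_congr rfl fun a _ => this a, Finset.sum_sub_distrib, ← Finset.smul_sum,
          hs, smul_zero, sub_zero, Finset.sum_ite_eq', if_pos (Finset.mem_univ _)]
      · show f2 _ = 0
        rw [f2a]
        have : ∀ a, (Pi.single b 1 - fun _ => (Fintype.card A : ℚ)⁻¹ : A → ℚ) a =
            (if a = b then 1 else 0) - (Fintype.card A : ℚ)⁻¹ := by
          intro a
          rw [Pi.sub_apply, Pi.single_apply]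
        rw [Finset.sum_congr rfl fun a _ => this a, Finset.sum_sub_distrib,
          Finset.sum_ite_eq', if_pos (Finset.mem_univ _), Finset.sum_const, Finset.card_univ,
          nsmul_eq_mul, mul_inv_cancel₀ Pen.card_ne, sub_self]
    have h2 : g (f (Pi.single b 1 - fun _ => (Fintype.card A : ℚ)⁻¹)) =
        (Pi.single b 1 - fun _ => (Fintype.card A : ℚ)⁻¹) := by
      have := congrArg (fun F : (A → ℚ) →ₗ[ℚ] (A → ℚ) =>
        F (Pi.single b 1 - fun _ => (Fintype.card A : ℚ)⁻¹)) hg
      exact this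
    rw [← h1, h2, Pi.sub_apply, Pi.single_apply]

variable {lam : A → A → A → A → F} {θ G : A → FT F}

namespace Fam

variable (h : Fam k lam θ G)

include h

/-- an element in terms of the averages -/
lemma sum_eq (K : Submodule ℚ (HK F)) (hK : KC k F ≤ K) (u : A × A × A × A → FT F) :
    K.mkQ (∑ j, hk (Ls lam j) (u j)) = (1 / 2 : ℚ) • ∑ c, ∑ d,
      hkq K hK (ta (fun S p q r => (C0 k F).mkQ (sy (lam S p q r))) c d) (Yu u c d) := by
  set T := ta (fun S p q r => (C0 k F).mkQ (sy (lam S p q r))) with hT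
  have h1 : ∀ j, K.mkQ (hk (Ls lam j) (u j)) = (1 / 2 : ℚ) • ∑ c, ∑ d,
      hkq K hK (T c d) (ww j c d • u j) := by
    intro j
    rw [← hkq_mk K hK, h.Ls_eq, map_smul, LinearMap.smul_apply]
    congr 1
    rw [map_sum, LinearMap.sum_apply]
    refine Finset.sum_congr rfl fun c _ => ?_
    rw [map_sum, LinearMap.sum_apply]
    refine Finset.sum_congr rfl fun d _ => ?_
    rw [map_smul, LinearMap.smul_apply, map_smul]
  rw [map_sum, Finset.sum_congr rfl fun j _ => h1 j, ← Finset.smul_sum, Finset.sum_comm]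
  congr 1
  refine Finset.sum_congr rfl fun c _ => ?_
  rw [Finset.sum_comm]
  refine Finset.sum_congr rfl fun d _ => ?_
  unfold Yu
  rw [map_sum]

/-- constant coefficients -/
lemma zero_of_const {o : A → FT F →ₗ[ℚ] ℚ} (oV : ∀ a, ∀ w ∈ V0 k F, o a w = 0)
    (oth : ∀ a b, o a (θ b) = (if a = b then 1 else 0) - (Fintype.card A : ℚ)⁻¹)
    (u : A × A × A × A → FT F) {κ : HK F} (hκ : κ ∈ KC k F)
    (hc : Closed (∑ j, hk (Ls lam j) (u j) + κ)) (hu : ∀ j, u j ∈ V0 k F) :
    ∑ j, hk (Ls lam j) (u j) ∈ KC k F := by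
  have h1 := h.star_of_closed oV oth u hκ hc
  have h2 : ∀ a c d, o a (Yu u c d) = 0 := by
    intro a c d
    unfold Yu
    rw [map_sum]
    refine Finset.sum_eq_zero fun j _ => ?_
    rw [map_smul, oV a _ (hu j), smul_zero]
  have h3 : ∀ c d, Yu u c d = 0 := by
    intro c d
    rw [h1.Y_eq c d]
    simp only [h2, zero_smul, Finset.sum_const_zero, sub_zero]
  rw [← Submodule.Quotient.mk_eq_zero]
  show (KC k F).mkQ _ = 0
  rw [h.sum_eq (KC k F) le_rfl]
  simp only [h3, map_zero, Finset.sum_const_zero, smul_zero]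

/-- the constant part -/
noncomputable def MC (k : Type*) [Field k] [Algebra k F] (lam : A → A → A → A → F) :
    Submodule ℚ (HK F) :=
  KC k F ⊔ Submodule.span ℚ {z | ∃ j : A × A × A × A, ∃ w ∈ V0 k F, z = hk (Ls lam j) w}

omit h in
lemma KC_le_MC : KC k F ≤ MC k lam := le_sup_left

omit h in
lemma mem_MC_of {j : A × A × A × A} {w : FT F} (hw : w ∈ V0 k F) :
    hk (Ls lam j) w ∈ MC k lam :=
  (le_sup_right : _ ≤ MC k lam) (Submodule.subset_span ⟨j, w, hw, rfl⟩)

omit h in
lemma mem_MC {z : HK F} (hz : z ∈ MC k lam) : ∃ u : A × A × A × A → FT F,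
    (∀ j, u j ∈ V0 k F) ∧ z - ∑ j, hk (Ls lam j) (u j) ∈ KC k F := by
  have key : ∀ z ∈ Submodule.span ℚ {z | ∃ j : A × A × A × A, ∃ w ∈ V0 k F, z = hk (Ls lam j) w},
      ∃ u : A × A × A × A → FT F, (∀ j, u j ∈ V0 k F) ∧ z = ∑ j, hk (Ls lam j) (u j) := by
    intro z hz
    induction hz using Submodule.span_induction with
    | mem z hz =>
      obtain ⟨i, w, hw, rfl⟩ := hz
      refine ⟨fun j => if j = i then w else 0, fun j => ?_, ?_⟩
      · show (if j = i then w else 0) ∈ V0 k F
        split_ifs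
        · exact hw
        · exact Submodule.zero_mem _
      · have : ∀ j, hk (Ls lam j) (if j = i then w else 0) =
            if j = i then hk (Ls lam j) w else 0 := by
          intro j
          split_ifs
          · rfl
          · rw [hk_zero_right]
        rw [Finset.sum_congr rfl fun j _ => this j, Finset.sum_ite_eq', if_pos (Finset.mem_univ _)]
    | zero => exact ⟨fun _ => 0, fun _ => Submodule.zero_mem _, by
        simp only [hk_zero_right, Finset.sum_const_zero]⟩
    | add a b _ _ ha hb =>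
      obtain ⟨u, hu, rfl⟩ := ha
      obtain ⟨v, hv, rfl⟩ := hb
      refine ⟨fun j => u j + v j, fun j => Submodule.add_mem _ (hu j) (hv j), ?_⟩
      rw [← Finset.sum_add_distrib]
      exact Finset.sum_congr rfl fun j _ => (hk_add_right _ _ _).symm
    | smul q a _ ha =>
      obtain ⟨u, hu, rfl⟩ := ha
      refine ⟨fun j => q • u j, fun j => Submodule.smul_mem _ _ (hu j), ?_⟩
      rw [Finset.smul_sum]
      exact Finset.sum_congr rfl fun j _ => (hk_smul_right _ _ _).symm
  obtain ⟨a, ha, b, hb, rfl⟩ := Submodule.mem_sup.mp hz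
  obtain ⟨u, hu, rfl⟩ := key b hb
  exact ⟨u, hu, by rw [add_sub_cancel_right]; exact ha⟩

/-- the averages satisfy the trivial relations -/
lemma tri : Tri (fun a b c => hkq (MC k lam) KC_le_MC
    (ta (fun S p q r => (C0 k F).mkQ (sy (lam S p q r))) a b) (θ c)) := by
  set T := ta (fun S p q r => (C0 k F).mkQ (sy (lam S p q r))) with hT
  set B := hkq (k := k) (MC k lam) KC_le_MC with hB
  have hC : ∀ S p q x, C8 (fun a b c => B (T a b) (θ c)) S p q x =
      B (mu T S p q) (θ x + θ (S - x)) := by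
    intro S p q x
    unfold C8 mu
    simp only [map_add, LinearMap.add_apply]
  constructor
  · intro a b c
    rw [show T b a = - T a b from h.pen.ta_sw a b, map_neg, LinearMap.neg_apply]
  · intro a c
    have : ∑ b, B (T a b) (θ c) = B (∑ b, T a b) (θ c) := by
      rw [map_sum, LinearMap.sum_apply]
    rw [this, h.pen.ta_row, map_zero, LinearMap.zero_apply]
  · intro m c
    have : ∑ a, B (T a (a + m)) (θ c) = B (∑ a, T a (a + m)) (θ c) := by
      rw [map_sum, LinearMap.sum_apply]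
    rw [this, h.pen.ta_diag, map_zero, LinearMap.zero_apply]
  · intro a b
    have : ∑ c, B (T a b) (θ c) = B (T a b) (∑ c, θ c) := by
      rw [map_sum]
    rw [this, h.ths, map_zero]
  · intro S p q r
    have hL := h.pen.L_eq S p q r
    rw [← hT] at hL
    have e : ∀ x, C8 (fun a b c => B (T a b) (θ c)) S p q x +
        C8 (fun a b c => B (T a b) (θ c)) S q r x +
        C8 (fun a b c => B (T a b) (θ c)) S r p x =
        (MC k lam).mkQ (hk (sy (lam S p q r)) (θ x + θ (S - x))) := by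
      intro x
      rw [hC, hC, hC, ← hkq_mk (k := k) (MC k lam) KC_le_MC, hL, ← LinearMap.add_apply,
        ← LinearMap.add_apply, ← map_add, ← map_add]
    rw [e p, e q, ← map_sub, ← hk_sub_right]
    by_cases hj : Nd S p q r
    · have h0 : hk (sy (lam S p q r)) (lg (lam S p q r)) = 0 :=
        hk_self (h.ne0 _ _ _ _ hj) (h.ne1 _ _ _ _ hj)
      rw [h.lg0 _ _ _ _ hj] at h0
      set g := G (r - p) + G (r - (S - p)) - G (r - q) - G (r - (S - q)) with hg
      have hgV : g ∈ V0 k F := Submodule.sub_mem _ (Submodule.sub_mem _ (Submodule.add_mem _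
        (h.GV _) (h.GV _)) (h.GV _)) (h.GV _)
      have h1 : hk (sy (lam S p q r)) (θ p + θ (S - p) - (θ q + θ (S - q))) =
          hk (sy (lam S p q r)) g := by
        rw [← sub_eq_zero, ← hk_sub_right, ← h0]
        congr 1
        abel
      rw [h1]
      exact (Submodule.Quotient.mk_eq_zero _).mpr (mem_MC_of (j := (S, p, q, r)) hgV)
    · exact (Submodule.Quotient.mk_eq_zero _).mpr (KC_le_MC (h.L_deg' (j := (S, p, q, r)) hj _))

/-- **closed elements are constant** -/
theorem closed_const {o : A → FT F →ₗ[ℚ] ℚ} (oV : ∀ a, ∀ w ∈ V0 k F, o a w = 0)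
    (oth : ∀ a b, o a (θ b) = (if a = b then 1 else 0) - (Fintype.card A : ℚ)⁻¹)
    (hind : ∀ e : A → ℚ, e 0 = 0 → (∀ a, e (-a) = e a) → ∑ a, e a = 0 →
      ∑ a, e a • G a = 0 → e = 0)
    (u : A × A × A × A → FT F) {κ : HK F} (hκ : κ ∈ KC k F)
    (hc : Closed (∑ j, hk (Ls lam j) (u j) + κ)) :
    ∑ j, hk (Ls lam j) (u j) ∈ KC k F := by
  have hs := h.star_of_closed oV oth u hκ hc
  have hmem : ∑ j, hk (Ls lam j) (u j) ∈ MC k lam := by
    rw [← Submodule.Quotient.mk_eq_zero]
    show Submodule.mkQ (MC k lam) _ = 0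
    set T := ta (fun S p q r => (C0 k F).mkQ (sy (lam S p q r))) with hT
    rw [h.sum_eq (MC k lam) KC_le_MC]
    have e1 : ∀ c, ∑ d, hkq (MC k lam) KC_le_MC (T c d) (Yu u c d) =
        ∑ d, ∑ a, o a (Yu u c d) • hkq (MC k lam) KC_le_MC (T c d) (θ a) := by
      intro c
      refine Finset.sum_congr rfl fun d _ => ?_
      conv_lhs => rw [hs.Y_eq c d]
      rw [map_sub]
      have hV : ∑ b, (o d (Yu u c b) • G (c - b) - o c (Yu u d b) • G (d - b)) ∈ V0 k F :=
        Submodule.sum_mem _ fun b _ => Submodule.sub_mem _ (Submodule.smul_mem _ _ (h.GV _))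
          (Submodule.smul_mem _ _ (h.GV _))
      have hT0 : ∀ w ∈ V0 k F, hkq (MC k lam) KC_le_MC (T c d) w = 0 := by
        intro w hw
        rw [hT]
        unfold ta
        rw [map_smul, LinearMap.smul_apply, map_sum, LinearMap.sum_apply]
        rw [Finset.sum_eq_zero, smul_zero]
        intro S _
        rw [map_sum, LinearMap.sum_apply]
        refine Finset.sum_eq_zero fun r _ => ?_
        rw [hkq_mk]
        exact (Submodule.Quotient.mk_eq_zero _).mpr (mem_MC_of (j := (S, c, d, r)) hw)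
      rw [hT0 _ hV, sub_zero, map_sum]
      refine Finset.sum_congr rfl fun a _ => ?_
      rw [map_smul]
    rw [Finset.sum_congr rfl fun c _ => e1 c]
    have h2 := h.tri.contract hs.cof (fun m n => hs.xi_anti hind m n)
    rw [h2, smul_zero]
  obtain ⟨v, hv, hz⟩ := mem_MC hmem
  have hc' : Closed (∑ j, hk (Ls lam j) (v j) +
      ((∑ j, hk (Ls lam j) (u j) - ∑ j, hk (Ls lam j) (v j)) + κ)) := by
    rw [← add_assoc, add_sub_cancel]; exact hc
  have h3 := h.zero_of_const oV oth v (Submodule.add_mem _ hz hκ) hc' hv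
  have := Submodule.add_mem _ hz h3
  rwa [sub_add_cancel] at this

end Fam

end

end Pool.Agent.GK
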